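import Pool.Agent.H97.Eis

/-!
# The curve `(X + Y + Z)³ = 16 X Y Z`

It is isomorphic to `y² = v³ + 4 (v+1)²` (conductor `44`).  All its rational points have
`X Y Z = 0`.  Proof by infinite descent (an explicit `3`-isogeny descent).
-/

set_option autoImplicit false

namespace Pool.Agent.H97

open QuadraticAlgebra

/-- cubes are injective on `ℤ` -/
theorem cube_inj {a b : ℤ} (h : a ^ 3 = b ^ 3) : a = b :=
  (Odd.strictMono_pow (by decide : Odd 3)).injective h

/-- primitive step -/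
theorem stepA1 (X Y Z : ℤ) (hXY : IsCoprime X Y) (hXZ : IsCoprime X Z) (hYZ : IsCoprime Y Z)
    (hZ : Even Z) (h : (X + Y + Z) ^ 3 = 16 * (X * Y * Z)) :
    ∃ x y z : ℤ, X = x ^ 3 ∧ Y = y ^ 3 ∧ Z = 4 * z ^ 3 ∧ Odd x ∧ Odd y ∧
      x ^ 3 + y ^ 3 + 4 * z ^ 3 = 4 * (x * y * z) ∧ X + Y + Z = 4 * (x * y * z) := by
  have hXo : Odd X := by
    rw [← Int.not_even_iff_odd]
    intro hX
    have := hXZ.isUnit_of_dvd' hX.two_dvd hZ.two_dvd
    exact absurd this (by decide)
  have hYo : Odd Y := by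
    rw [← Int.not_even_iff_odd]
    intro hY
    have := hYZ.isUnit_of_dvd' hY.two_dvd hZ.two_dvd
    exact absurd this (by decide)
  -- S = X + Y + Z = 4 S₂
  have hS : Even (X + Y + Z) := by
    have : Even ((X + Y + Z) ^ 3) := by
      rw [h]; exact ⟨8 * (X * Y * Z), by ring⟩
    exact (Int.even_pow' (by norm_num)).1 this
  obtain ⟨S1, hS1⟩ := hS
  have h1 : S1 ^ 3 = 2 * (X * Y * Z) := by
    have : (S1 + S1) ^ 3 = 16 * (X * Y * Z) := by rw [← hS1]; exact h
    nlinarith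
  have hS1e : Even S1 := by
    have : Even (S1 ^ 3) := by rw [h1]; exact ⟨X * Y * Z, by ring⟩
    exact (Int.even_pow' (by norm_num)).1 this
  obtain ⟨S2, hS2⟩ := hS1e
  have h2 : X * Y * Z = 4 * S2 ^ 3 := by
    rw [hS2] at h1
    nlinarith
  have h4 : (4 : ℤ) ∣ Z := by
    have hc : IsCoprime (4 : ℤ) (X * Y) := by
      have : IsCoprime (2 : ℤ) (X * Y) := by
        rw [Int.isCoprime_iff_gcd_eq_one]
        have := hXo.mul hYo
        obtain ⟨k, hk⟩ := this
        rw [hk]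
        have : Int.gcd 2 (2 * k + 1) = Int.gcd 2 1 := by
          rw [add_comm, Int.gcd_add_mul_left_right]
        rw [this]; rfl
      have h22 : (4 : ℤ) = 2 ^ 2 := by norm_num
      rw [h22]
      exact this.pow_left
    exact hc.dvd_of_dvd_mul_left ⟨S2 ^ 3, h2⟩
  obtain ⟨Z', hZ'⟩ := h4
  have h3 : X * Y * Z' = S2 ^ 3 := by
    rw [hZ'] at h2
    nlinarith
  have hXZ' : IsCoprime X Z' := by
    rw [hZ'] at hXZ
    exact hXZ.of_mul_right_right
  have hYZ' : IsCoprime Y Z' := by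
    rw [hZ'] at hYZ
    exact hYZ.of_mul_right_right
  obtain ⟨x, hx⟩ := Int.eq_pow_of_mul_eq_pow_odd_left (hXY.mul_right hXZ') (by decide : Odd 3)
    (by rw [← h3]; ring : X * (Y * Z') = S2 ^ 3)
  obtain ⟨y, hy⟩ := Int.eq_pow_of_mul_eq_pow_odd_left (hXY.symm.mul_right hYZ') (by decide : Odd 3)
    (by rw [← h3]; ring : Y * (X * Z') = S2 ^ 3)
  obtain ⟨z, hz⟩ := Int.eq_pow_of_mul_eq_pow_odd_left (hXZ'.symm.mul_right hYZ'.symm)
    (by decide : Odd 3) (by rw [← h3]; ring : Z' * (X * Y) = S2 ^ 3)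
  have hS2' : S2 = x * y * z := by
    apply cube_inj
    rw [← h3, hx, hy, hz]; ring
  have hsum : X + Y + Z = 4 * (x * y * z) := by
    rw [hS1, hS2, hS2']; ring
  refine ⟨x, y, z, hx, hy, by rw [hZ', hz], ?_, ?_, ?_, hsum⟩
  · rw [hx] at hXo
    exact (Int.odd_pow' (by norm_num)).1 hXo
  · rw [hy] at hYo
    exact (Int.odd_pow' (by norm_num)).1 hYo
  · rw [← hsum, hx, hy, hZ', hz]

/-- three integers with gcd `1`, at least one nonzero, satisfying the equation are pairwise coprime -/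
theorem coprime_of_eq (X Y Z : ℤ) (h0 : X * Y * Z ≠ 0)
    (hg : ∀ p : ℤ, Prime p → p ∣ X → p ∣ Y → p ∣ Z → False)
    (h : (X + Y + Z) ^ 3 = 16 * (X * Y * Z)) : IsCoprime X Y := by
  apply isCoprime_of_prime_dvd
  · rintro ⟨h1, -⟩
    rw [h1] at h0
    simp at h0
  · intro p hp h1 h2
    have h3 : p ∣ (X + Y + Z) ^ 3 := by
      rw [h]
      exact Dvd.dvd.mul_left ((h1.mul_right Y).mul_right Z) 16
    have h4 := hp.dvd_of_dvd_pow h3
    have h5 : p ∣ Z := by
      have : Z = (X + Y + Z) - X - Y := by ring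
      rw [this]
      exact dvd_sub (dvd_sub h4 h1) h2
    exact hg p hp h1 h2 h5

theorem stepA (X Y Z : ℤ) (h : (X + Y + Z) ^ 3 = 16 * (X * Y * Z)) (h0 : X * Y * Z ≠ 0) :
    ∃ d x y z : ℤ, 0 < d ∧ z ≠ 0 ∧ Odd x ∧ Odd y ∧
      x ^ 3 + y ^ 3 + 4 * z ^ 3 = 4 * (x * y * z) ∧ X + Y + Z = d * (4 * (x * y * z)) := by
  -- divide by the gcd
  set e : ℤ := (Int.gcd X Y : ℤ) with he
  set d : ℤ := (Int.gcd e Z : ℤ) with hd
  have hX0 : X ≠ 0 := by rintro rfl; simp at h0
  have hZ0 : Z ≠ 0 := by rintro rfl; simp at h0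
  have hdpos : 0 < d := by
    rw [hd]
    have : Int.gcd e Z ≠ 0 := by
      intro h1
      rw [Int.gcd_eq_zero_iff] at h1
      exact hZ0 h1.2
    omega
  have hde : d ∣ e := Int.gcd_dvd_left ..
  have hdZ : d ∣ Z := Int.gcd_dvd_right ..
  have hdX : d ∣ X := hde.trans (Int.gcd_dvd_left ..)
  have hdY : d ∣ Y := hde.trans (Int.gcd_dvd_right ..)
  obtain ⟨X', hX'⟩ := hdX
  obtain ⟨Y', hY'⟩ := hdY
  obtain ⟨Z', hZ'⟩ := hdZ
  have hg : ∀ p : ℤ, Prime p → p ∣ X' → p ∣ Y' → p ∣ Z' → False := by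
    intro p hp h1 h2 h3
    have a1 : d * p ∣ X := by rw [hX']; exact mul_dvd_mul_left d h1
    have a2 : d * p ∣ Y := by rw [hY']; exact mul_dvd_mul_left d h2
    have a3 : d * p ∣ Z := by rw [hZ']; exact mul_dvd_mul_left d h3
    have a4 : d * p ∣ e := Int.dvd_coe_gcd a1 a2
    have a5 : d * p ∣ d := Int.dvd_coe_gcd a4 a3
    have a6 : p ∣ 1 := by
      have : d * p ∣ d * 1 := by simpa using a5
      exact (mul_dvd_mul_iff_left hdpos.ne').1 this
    exact hp.not_isUnit (isUnit_of_dvd_one a6)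
  have h' : (X' + Y' + Z') ^ 3 = 16 * (X' * Y' * Z') := by
    have : d ^ 3 * (X' + Y' + Z') ^ 3 = d ^ 3 * (16 * (X' * Y' * Z')) := by
      rw [hX', hY', hZ'] at h
      linear_combination h
    exact mul_left_cancel₀ (pow_ne_zero 3 hdpos.ne') this
  have h0' : X' * Y' * Z' ≠ 0 := by
    intro h1
    apply h0
    rw [hX', hY', hZ']
    linear_combination d ^ 3 * h1
  have hXY : IsCoprime X' Y' := coprime_of_eq X' Y' Z' h0' hg h'
  have hXZ : IsCoprime X' Z' := coprime_of_eq X' Z' Y' (by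
    intro h1; apply h0'; linear_combination h1) (fun p hp a b c => hg p hp a c b) (by
    linear_combination h')
  have hYZ : IsCoprime Y' Z' := coprime_of_eq Y' Z' X' (by
    intro h1; apply h0'; linear_combination h1) (fun p hp a b c => hg p hp c a b) (by
    linear_combination h')
  have hev : Even X' ∨ Even Y' ∨ Even Z' := by
    by_contra hcon
    push Not at hcon
    obtain ⟨a, b, c⟩ := hcon
    rw [Int.not_even_iff_odd] at a b c
    have h1 : Odd ((X' + Y' + Z') ^ 3) := ((a.add_odd b).add_odd c).pow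
    rw [h'] at h1
    rw [← Int.not_even_iff_odd] at h1
    exact h1 ⟨8 * (X' * Y' * Z'), by ring⟩
  have hfin : ∀ A B C : ℤ, A + B + C = X' + Y' + Z' → A * B * C = X' * Y' * Z' →
      IsCoprime A B → IsCoprime A C → IsCoprime B C → Even C →
      ∃ d x y z : ℤ, 0 < d ∧ z ≠ 0 ∧ Odd x ∧ Odd y ∧
      x ^ 3 + y ^ 3 + 4 * z ^ 3 = 4 * (x * y * z) ∧ X + Y + Z = d * (4 * (x * y * z)) := by
    intro A B C hs hp h1 h2 h3 h4
    obtain ⟨x, y, z, e1, e2, e3, e4, e5, e6, e7⟩ := stepA1 A B C h1 h2 h3 h4 (by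
      rw [hs, hp]; exact h')
    refine ⟨d, x, y, z, hdpos, ?_, e4, e5, e6, ?_⟩
    · rintro rfl
      apply h0'
      rw [← hp, e3]
      ring
    · rw [← e7, hs, hX', hY', hZ']
      ring
  rcases hev with hE | hE | hE
  · exact hfin Y' Z' X' (by ring) (by ring) hYZ hXY.symm hXZ.symm hE
  · exact hfin X' Z' Y' (by ring) (by ring) hXZ hXY hYZ.symm hE
  · exact hfin X' Y' Z' rfl rfl hXY hXZ hYZ hE

/-- the form `P² - P Q + Q²` and the prime `11` -/
theorem eleven_dvd {P Q : ℤ} (h : (11 : ℤ) ∣ P ^ 2 - P * Q + Q ^ 2) : (11 : ℤ) ∣ P ∧ (11 : ℤ) ∣ Q := by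
  have key : ∀ a b : ZMod 11, a ^ 2 - a * b + b ^ 2 = 0 → a = 0 ∧ b = 0 := by decide
  have h1 : ((P ^ 2 - P * Q + Q ^ 2 : ℤ) : ZMod 11) = 0 :=
    (ZMod.intCast_zmod_eq_zero_iff_dvd _ 11).2 h
  push_cast at h1
  obtain ⟨a, b⟩ := key _ _ h1
  exact ⟨(ZMod.intCast_zmod_eq_zero_iff_dvd _ 11).1 a, (ZMod.intCast_zmod_eq_zero_iff_dvd _ 11).1 b⟩

theorem odd_of_coprime_even {a b : ℤ} (h : IsCoprime a b) (hb : Even b) : Odd a := by
  rw [← Int.not_even_iff_odd]
  intro ha
  have := h.isUnit_of_dvd' ha.two_dvd hb.two_dvd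
  exact absurd this (by decide)

/-- Arithmetic part of the descent: from a primitive solution of `x³+y³+4z³ = 4xyz` with `z ≠ 0` we
get `G`, `ζ > 0` with `z = -Gζ`, `3(x+y)+4z = 44G³` and the norm of `3(y-x) + (4z-3x) ω` equal
to `ζ³`. -/
theorem step_arith (x y z : ℤ) (hxz : IsCoprime x z) (hyz : IsCoprime y z)
    (hz : z ≠ 0) (hx : Odd x) (hy : Odd y) (h : x ^ 3 + y ^ 3 + 4 * z ^ 3 = 4 * (x * y * z)) :
    ∃ G ζ : ℤ, z = -(G * ζ) ∧ 3 * (x + y) + 4 * z = 44 * G ^ 3 ∧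
      (3 * (y - x)) ^ 2 - (3 * (y - x)) * (4 * z - 3 * x) + (4 * z - 3 * x) ^ 2 = ζ ^ 3 := by
  set m := x + y with hm
  set g : ℤ := (Int.gcd m z : ℤ) with hg
  have hgpos : 0 < g := by
    rw [hg]
    have : Int.gcd m z ≠ 0 := by
      intro h1
      rw [Int.gcd_eq_zero_iff] at h1
      exact hz h1.2
    omega
  obtain ⟨m', hm'⟩ : g ∣ m := Int.gcd_dvd_left ..
  obtain ⟨z', hz'⟩ : g ∣ z := Int.gcd_dvd_right ..
  have hcop : IsCoprime m' z' := by
    have h1 : (g : ℤ) = m * Int.gcdA m z + z * Int.gcdB m z := Int.gcd_eq_gcd_ab m z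
    refine ⟨Int.gcdA m z, Int.gcdB m z, ?_⟩
    have h2 : g * (Int.gcdA m z * m' + Int.gcdB m z * z') = g * 1 := by
      linear_combination -(Int.gcdA m z) * hm' - (Int.gcdB m z) * hz' - h1
    exact mul_left_cancel₀ hgpos.ne' h2
  have hkey : (3 * m + 4 * z) * (x * y) = m ^ 3 + 4 * z ^ 3 := by
    rw [hm]
    linear_combination -h
  have hgxy : IsCoprime g (x * y) := by
    have : IsCoprime z (x * y) := hxz.symm.mul_right hyz.symm
    rw [hz'] at this
    exact this.of_mul_left_left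
  have h1 : g ^ 3 ∣ (3 * m + 4 * z) * (x * y) := by
    rw [hkey, hm', hz']
    exact ⟨m' ^ 3 + 4 * z' ^ 3, by ring⟩
  have h2 : g ^ 3 ∣ 3 * m + 4 * z := hgxy.pow_left.dvd_of_dvd_mul_right h1
  obtain ⟨k, hk⟩ := h2
  have hk1 : 3 * m' + 4 * z' = g ^ 2 * k := by
    have : g * (3 * m' + 4 * z') = g * (g ^ 2 * k) := by
      rw [hm', hz'] at hk
      linear_combination hk
    exact mul_left_cancel₀ hgpos.ne' this
  have hk2 : x * y * k = m' ^ 3 + 4 * z' ^ 3 := by
    have : g ^ 3 * (x * y * k) = g ^ 3 * (m' ^ 3 + 4 * z' ^ 3) := by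
      rw [hk] at hkey
      rw [hm', hz'] at hkey
      linear_combination hkey
    exact mul_left_cancel₀ (pow_ne_zero 3 hgpos.ne') this
  -- k divides 44
  have hk44 : k ∣ 44 := by
    have d1 : k ∣ 44 * z' ^ 3 := by
      have : 44 * z' ^ 3 = 27 * (x * y * k) -
          (3 * m' + 4 * z') * (9 * m' ^ 2 - 12 * m' * z' + 16 * z' ^ 2) := by
        rw [hk2]; ring
      rw [this, hk1]
      exact ⟨27 * (x * y) - g ^ 2 * (9 * m' ^ 2 - 12 * m' * z' + 16 * z' ^ 2), by ring⟩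
    have d2 : k ∣ 11 * m' ^ 3 := by
      have : 11 * m' ^ 3 = (3 * m' + 4 * z') * (9 * m' ^ 2 - 12 * m' * z' + 16 * z' ^ 2) -
          16 * (x * y * k) := by
        rw [hk2]; ring
      rw [this, hk1]
      exact ⟨g ^ 2 * (9 * m' ^ 2 - 12 * m' * z' + 16 * z' ^ 2) - 16 * (x * y), by ring⟩
    obtain ⟨a, b, hab⟩ := (hcop.pow_left (m := 3)).pow_right (n := 3)
    have : (44 : ℤ) = 4 * a * (11 * m' ^ 3) + b * (44 * z' ^ 3) := by
      linear_combination (-44) * hab
    rw [this]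
    exact dvd_add (d2.mul_left _) (d1.mul_left _)
  -- parity
  have hxyo : Odd (x * y) := hx.mul hy
  have hme : Even m := by rw [hm]; exact hx.add_odd hy
  have hz'o : Odd z' := by
    rw [← Int.not_even_iff_odd]
    intro hze
    have hmo : Odd m' := odd_of_coprime_even hcop hze
    have e1 : Odd (m' ^ 3 + 4 * z' ^ 3) :=
      (hmo.pow).add_even ⟨2 * z' ^ 3, by ring⟩
    have e3 : Odd (3 * m' + 4 * z') := ((by decide : Odd (3 : ℤ)).mul hmo).add_even ⟨2 * z', by ring⟩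
    rw [hk1] at e3
    have e4 : Odd g := (Int.odd_pow' (by norm_num)).1 (Int.Odd.of_mul_left e3)
    have e5 : Odd m := by rw [hm']; exact e4.mul hmo
    rw [← Int.not_even_iff_odd] at e5
    exact e5 hme
  have hm'e : Even m' := by
    rw [← Int.not_odd_iff_even]
    intro hmo
    have e3 : Odd (3 * m' + 4 * z') := ((by decide : Odd (3 : ℤ)).mul hmo).add_even ⟨2 * z', by ring⟩
    rw [hk1] at e3
    have e4 : Odd g := (Int.odd_pow' (by norm_num)).1 (Int.Odd.of_mul_left e3)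
    have e5 : Odd m := by rw [hm']; exact e4.mul hmo
    rw [← Int.not_even_iff_odd] at e5
    exact e5 hme
  obtain ⟨m1, hm1⟩ := hm'e
  have hk4 : (4 : ℤ) ∣ k := by
    have hc : IsCoprime (4 : ℤ) (x * y) := by
      have : IsCoprime (2 : ℤ) (x * y) := by
        obtain ⟨t, ht⟩ := hxyo
        exact ⟨-t, 1, by rw [ht]; ring⟩
      have h22 : (4 : ℤ) = 2 ^ 2 := by norm_num
      rw [h22]
      exact this.pow_left
    apply hc.dvd_of_dvd_mul_left
    rw [hk2, hm1]
    exact ⟨2 * m1 ^ 3 + z' ^ 3, by ring⟩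
  obtain ⟨κ, hκ⟩ := hk4
  have hκ11 : κ ∣ 11 := by
    obtain ⟨t, ht⟩ := hk44
    refine ⟨t, ?_⟩
    rw [hκ] at ht
    linarith
  -- the norm identity
  have hnorm : κ * ((3 * (y - x)) ^ 2 - (3 * (y - x)) * (4 * z - 3 * x) + (4 * z - 3 * x) ^ 2) =
      -11 * z' ^ 3 := by
    have e1 : (3 * m + 4 * z) *
        ((3 * (y - x)) ^ 2 - (3 * (y - x)) * (4 * z - 3 * x) + (4 * z - 3 * x) ^ 2) =
        -44 * z ^ 3 := by
      rw [hm]
      linear_combination 27 * h
    rw [hk, hκ] at e1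
    have e2 : (4 * g ^ 3) * (κ * ((3 * (y - x)) ^ 2 - (3 * (y - x)) * (4 * z - 3 * x) +
        (4 * z - 3 * x) ^ 2)) = (4 * g ^ 3) * (-11 * z' ^ 3) := by
      have : z ^ 3 = g ^ 3 * z' ^ 3 := by rw [hz']; ring
      rw [this] at e1
      linear_combination e1
    exact mul_left_cancel₀ (mul_ne_zero (by norm_num) (pow_ne_zero 3 hgpos.ne')) e2
  have hL0 : 3 * (x + y) + 4 * z = g ^ 3 * (4 * κ) := by rw [← hm, hk, hκ]
  -- κ = ±1 or ±11
  have hκcases : κ = 1 ∨ κ = -1 ∨ κ = 11 ∨ κ = -11 := by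
    have h1 : κ.natAbs ∣ 11 := by
      have := Int.natAbs_dvd_natAbs.2 hκ11
      simpa using this
    rcases (Nat.dvd_prime (by norm_num)).1 h1 with h2 | h2
    · omega
    · omega
  set N := (3 * (y - x)) ^ 2 - (3 * (y - x)) * (4 * z - 3 * x) + (4 * z - 3 * x) ^ 2 with hN
  have hbad : (11 : ℤ) ∣ N → (∃ w : ℤ, N = 11 * w * z' ^ 3 ∧ IsUnit w) → False := by
    intro h11 ⟨w, hw, hwu⟩
    obtain ⟨a1, a2⟩ := eleven_dvd h11
    obtain ⟨P', hP'⟩ := a1
    obtain ⟨Q', hQ'⟩ := a2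
    have hp11 : Prime (11 : ℤ) := by
      rw [Int.prime_iff_natAbs_prime]; norm_num
    have b1 : (11 : ℤ) ∣ z' := by
      have c1 : 11 * (11 * (P' ^ 2 - P' * Q' + Q' ^ 2)) = 11 * (w * z' ^ 3) := by
        have : N = 121 * (P' ^ 2 - P' * Q' + Q' ^ 2) := by
          rw [hN, hP', hQ']; ring
        linear_combination -this + hw
      have c2 : 11 * (P' ^ 2 - P' * Q' + Q' ^ 2) = w * z' ^ 3 :=
        mul_left_cancel₀ (by norm_num) c1
      have c3 : (11 : ℤ) ∣ w * z' ^ 3 := ⟨_, c2.symm⟩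
      have c4 : (11 : ℤ) ∣ z' ^ 3 := (hwu.dvd_mul_left).1 c3
      exact hp11.dvd_of_dvd_pow c4
    have b2 : (11 : ℤ) ∣ z := by rw [hz']; exact b1.mul_left g
    have b3 : (11 : ℤ) ∣ 3 * x := by
      have : 3 * x = 4 * z - (4 * z - 3 * x) := by ring
      rw [this, hQ']
      exact dvd_sub (b2.mul_left 4) ⟨Q', rfl⟩
    have b4 : (11 : ℤ) ∣ x := by
      rcases hp11.dvd_or_dvd b3 with h' | h'
      · norm_num at h'
      · exact h'
    exact hp11.not_isUnit (hxz.isUnit_of_dvd' b4 b2)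
  rcases hκcases with hc | hc | hc | hc
  · exfalso
    rw [hc] at hnorm
    apply hbad
    · exact ⟨-z' ^ 3, by linarith⟩
    · exact ⟨-1, by linarith, isUnit_one.neg⟩
  · exfalso
    rw [hc] at hnorm
    apply hbad
    · exact ⟨z' ^ 3, by linarith⟩
    · exact ⟨1, by linarith, isUnit_one⟩
  · rw [hc] at hnorm hL0
    refine ⟨g, -z', by rw [hz']; ring, by rw [hL0]; ring, ?_⟩
    have : N = -z' ^ 3 := by linarith
    rw [this]; ring
  · rw [hc] at hnorm hL0
    refine ⟨-g, z', by rw [hz']; ring, by rw [hL0]; ring, ?_⟩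
    linarith

/-- Eisenstein part of the descent: `3(y-x) + (4z-3x) ω` is a unit times a cube. -/
theorem step_eis (x y z G ζ : ℤ) (hxz : IsCoprime x z)
    (hz : z ≠ 0) (h : x ^ 3 + y ^ 3 + 4 * z ^ 3 = 4 * (x * y * z)) (hzG : z = -(G * ζ))
    (hN : (3 * (y - x)) ^ 2 - (3 * (y - x)) * (4 * z - 3 * x) + (4 * z - 3 * x) ^ 2 = ζ ^ 3) :
    ∃ (j : ℕ) (Γ : Eis), j < 3 ∧
      (⟨3 * (y - x), 4 * z - 3 * x⟩ : Eis) = (⟨0, 1⟩ : Eis) ^ j * Γ ^ 3 := by
  have hζz : ζ ∣ z := ⟨-G, by rw [hzG]; ring⟩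
  have hζ0 : ζ ≠ 0 := by
    rintro rfl
    apply hz
    rw [hzG]; ring
  by_cases h3 : (3 : ℤ) ∣ ζ
  · -- 3 ∣ ζ
    obtain ⟨ζ1, hζ1⟩ := h3
    have hp3 : Prime (3 : ℤ) := Int.prime_three
    set z3 := -(G * ζ1) with hz3
    have hzz : z = 3 * z3 := by rw [hzG, hζ1, hz3]; ring
    have h3z : (3 : ℤ) ∣ z := ⟨z3, hzz⟩
    have h3x : ¬ (3 : ℤ) ∣ x := fun hd => hp3.not_isUnit (hxz.isUnit_of_dvd' hd h3z)
    -- N' = 3 ζ1³
    have hN' : (y - x) ^ 2 - (y - x) * (4 * z3 - x) + (4 * z3 - x) ^ 2 = 3 * ζ1 ^ 3 := by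
      have : 9 * ((y - x) ^ 2 - (y - x) * (4 * z3 - x) + (4 * z3 - x) ^ 2) = 9 * (3 * ζ1 ^ 3) := by
        rw [hzz, hζ1] at hN
        linear_combination hN
      exact mul_left_cancel₀ (by norm_num) this
    -- 3 ∣ P' + Q'
    have hPQ : (3 : ℤ) ∣ (y - x) + (4 * z3 - x) := by
      apply hp3.dvd_of_dvd_pow (n := 2)
      refine ⟨ζ1 ^ 3 + (y - x) * (4 * z3 - x), ?_⟩
      linear_combination hN'
    obtain ⟨Q2, hQ2⟩ := hPQ
    -- P'' = P' - Q''
    set P2 := (y - x) - Q2 with hP2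
    have hN2 : P2 ^ 2 - P2 * Q2 + Q2 ^ 2 = ζ1 ^ 3 := by
      have : 3 * (P2 ^ 2 - P2 * Q2 + Q2 ^ 2) = 3 * ζ1 ^ 3 := by
        rw [← hN', hP2]
        have hQ' : 4 * z3 - x = 3 * Q2 - (y - x) := by linarith
        rw [hQ']; ring
      exact mul_left_cancel₀ (by norm_num) this
    -- 3 ∣ x + y
    have h3xy : (3 : ℤ) ∣ x + y := by
      apply hp3.dvd_of_dvd_pow (n := 3)
      refine ⟨x * y * (x + y) + 4 * z3 * (x * y) - 4 * z3 * (3 * z3) ^ 2, ?_⟩
      rw [hzz] at h
      linear_combination h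
    have h3ζ1 : ¬ (3 : ℤ) ∣ ζ1 := by
      intro hd
      have e1 : (3 : ℤ) ∣ (y - x) := by
        apply hp3.dvd_of_dvd_pow (n := 2)
        obtain ⟨t, ht⟩ := hd
        refine ⟨9 * t ^ 3 + P2 * Q2, ?_⟩
        have : (y - x) = P2 + Q2 := by rw [hP2]; ring
        rw [this]
        rw [ht] at hN2
        linear_combination hN2
      have e2 : (3 : ℤ) ∣ 2 * x := by
        have : 2 * x = (x + y) - (y - x) := by ring
        rw [this]
        exact dvd_sub h3xy e1
      rcases hp3.dvd_or_dvd e2 with h' | h'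
      · norm_num at h'
      · exact h3x h'
    have hcop : IsCoprime P2 Q2 := by
      apply isCoprime_of_prime_dvd
      · rintro ⟨a, b⟩
        rw [a, b] at hN2
        apply h3ζ1
        have : ζ1 ^ 3 = 0 := by rw [← hN2]; ring
        have : ζ1 = 0 := by simpa using this
        rw [this]; exact dvd_zero 3
      · intro p hp a b
        have c1 : p ∣ ζ1 := by
          apply hp.dvd_of_dvd_pow (n := 3)
          rw [← hN2]
          obtain ⟨s, hs⟩ := a
          obtain ⟨t, ht⟩ := b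
          exact ⟨p * s ^ 2 - p * s * t + p * t ^ 2, by rw [hs, ht]; ring⟩
        have c2 : p ∣ z3 := by rw [hz3]; exact ((c1.mul_left G)).neg_right
        have c3 : p ∣ z := by rw [hzz]; exact c2.mul_left 3
        have c4 : p ∣ x := by
          have : x = 4 * z3 - (2 * Q2 - P2) := by
            have : 4 * z3 - x = 3 * Q2 - (y - x) := by linarith
            rw [hP2]; linarith
          rw [this]
          exact dvd_sub (c2.mul_left 4) (dvd_sub (b.mul_left 2) a)
        exact hp.not_isUnit (hxz.isUnit_of_dvd' c4 c3)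
    obtain ⟨j, Γ, hj, hΓ⟩ := Eis.cube_lemma P2 Q2 ζ1 hcop h3ζ1 hN2
    -- L = 3 (1-ω) L'' = - ω² (1-ω)³ L''
    refine ⟨(j + 2) % 3, -(⟨1, -1⟩ : Eis) * Γ, Nat.mod_lt _ (by norm_num), ?_⟩
    have hw : (⟨0, 1⟩ : Eis) ^ 3 = 1 := by
      ext <;> simp [pow_succ]
    have e1 : (⟨0, 1⟩ : Eis) ^ ((j + 2) % 3) = (⟨0, 1⟩ : Eis) ^ (j + 2) := by
      conv_rhs => rw [← Nat.div_add_mod (j + 2) 3, pow_add, pow_mul, hw, one_pow, one_mul]
    rw [e1, mul_pow]
    have e2 : (⟨3 * (y - x), 4 * z - 3 * x⟩ : Eis) =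
        (⟨0, 1⟩ : Eis) ^ 2 * (-(⟨1, -1⟩ : Eis)) ^ 3 * ⟨P2, Q2⟩ := by
      have hyx : y - x = P2 + Q2 := by rw [hP2]; ring
      have hq : 4 * z - 3 * x = 3 * (2 * Q2 - P2) := by
        have : 4 * z3 - x = 3 * Q2 - (y - x) := by linarith
        rw [hzz]; linarith
      rw [hyx, hq]
      ext
      · simp [pow_succ]
        ring
      · simp [pow_succ]
        ring
    rw [e2, hΓ]
    ring
  · apply Eis.cube_lemma _ _ ζ _ h3 hN
    apply isCoprime_of_prime_dvd
    · rintro ⟨a, b⟩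
      rw [a, b] at hN
      apply hζ0
      have : ζ ^ 3 = 0 := by rw [← hN]; ring
      simpa using this
    · intro p hp a b
      have c1 : p ∣ ζ := by
        apply hp.dvd_of_dvd_pow (n := 3)
        rw [← hN]
        obtain ⟨s, hs⟩ := a
        obtain ⟨t, ht⟩ := b
        exact ⟨p * s ^ 2 - p * s * t + p * t ^ 2, by rw [hs, ht]; ring⟩
      have c2 : p ∣ z := c1.trans hζz
      have c3 : p ∣ 3 * x := by
        have : 3 * x = 4 * z - (4 * z - 3 * x) := by ring
        rw [this]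
        exact dvd_sub (c2.mul_left 4) b
      rcases hp.dvd_or_dvd c3 with h' | h'
      · -- p ∣ 3, so p is associated to 3
        apply h3
        have hass : Associated p 3 := (hp.dvd_prime_iff_associated Int.prime_three).1 h'
        exact hass.symm.dvd.trans c1
      · exact hp.not_isUnit (hxz.isUnit_of_dvd' h' c2)

/-- small cases excluded at the end of the descent -/
theorem small_cases (x y z : ℤ) (hx : Odd x) (hy : Odd y) (hz : z ≠ 0) (hxy : |x * y| ≤ 3)
    (h : x ^ 3 + y ^ 3 + 4 * z ^ 3 = 4 * (x * y * z)) : False := by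
  have hx0 : x ≠ 0 := by rintro rfl; exact absurd hx (by decide)
  have hy0 : y ≠ 0 := by rintro rfl; exact absurd hy (by decide)
  have hx1 : 1 ≤ |x| := Int.one_le_abs hx0
  have hy1 : 1 ≤ |y| := Int.one_le_abs hy0
  rw [abs_mul] at hxy
  have hx3 : |x| ≤ 3 := by nlinarith
  have hy3 : |y| ≤ 3 := by nlinarith
  obtain ⟨t, ht⟩ : ∃ t : ℤ, z ^ 3 = z + 2 * t := by
    rcases Int.even_or_odd z with ⟨s, hs⟩ | ⟨s, hs⟩
    · exact ⟨4 * s ^ 3 - s, by rw [hs]; ring⟩
    · exact ⟨4 * s ^ 3 + 6 * s ^ 2 + 2 * s, by rw [hs]; ring⟩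
  have hpos : 0 < z ^ 2 := by positivity
  rw [abs_le] at hx3 hy3
  obtain ⟨a1, a2⟩ := hx3
  obtain ⟨b1, b2⟩ := hy3
  obtain ⟨p, hp⟩ := hx
  obtain ⟨q, hq⟩ := hy
  interval_cases x <;> first
    | omega
    | (interval_cases y <;> first
        | (simp only [abs_neg, Int.abs_eq_natAbs] at hxy; norm_num at hxy; done)
        | (rw [ht] at h; omega)
        | (apply hz; nlinarith))

theorem parity_form (u v : ℤ) (h : Even (-(u ^ 3 - 3 * u ^ 2 * v + v ^ 3))) : Even u ∧ Even v := by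
  have key : ∀ a b : ZMod 2, -(a ^ 3 - 3 * a ^ 2 * b + b ^ 3) = 0 → a = 0 ∧ b = 0 := by decide
  have h1 : ((-(u ^ 3 - 3 * u ^ 2 * v + v ^ 3) : ℤ) : ZMod 2) = 0 :=
    (ZMod.intCast_zmod_eq_zero_iff_dvd _ 2).2 (even_iff_two_dvd.1 h)
  push_cast at h1
  obtain ⟨a, b⟩ := key _ _ h1
  exact ⟨even_iff_two_dvd.2 ((ZMod.intCast_zmod_eq_zero_iff_dvd _ 2).1 a),
    even_iff_two_dvd.2 ((ZMod.intCast_zmod_eq_zero_iff_dvd _ 2).1 b)⟩

/-- The descent step. -/
theorem step (x y z : ℤ) (hxy : IsCoprime x y) (hxz : IsCoprime x z) (hyz : IsCoprime y z)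
    (hz : z ≠ 0) (hx : Odd x) (hy : Odd y) (h : x ^ 3 + y ^ 3 + 4 * z ^ 3 = 4 * (x * y * z)) :
    ∃ x' y' z' : ℤ, z' ≠ 0 ∧ |z'| < |z| ∧ x' ^ 3 + y' ^ 3 + 4 * z' ^ 3 = 4 * (x' * y' * z') := by
  obtain ⟨G, ζ, hzG, hL0, hN⟩ := step_arith x y z hxz hyz hz hx hy h
  obtain ⟨j, Γ, hj, hΓ⟩ := step_eis x y z G ζ hxz hz h hzG hN
  obtain ⟨u, v⟩ := Γ
  have hQodd : Odd (4 * z - 3 * x) := by
    obtain ⟨t, ht⟩ := hx
    exact ⟨2 * z - 3 * t - 2, by rw [ht]; ring⟩
  have hPeven : Even (3 * (y - x)) := by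
    obtain ⟨t, ht⟩ := hx
    obtain ⟨s, hs⟩ := hy
    exact ⟨3 * (s - t), by rw [ht, hs]; ring⟩
  have hre := congrArg QuadraticAlgebra.re hΓ
  have him := congrArg QuadraticAlgebra.im hΓ
  have hparity : ∀ a b : ℤ, Even (a * b * (a - b)) := by
    intro a b
    rcases Int.even_or_odd a with ha | ha
    · exact (ha.mul_right b).mul_right _
    · rcases Int.even_or_odd b with hb | hb
      · exact (hb.mul_left a).mul_right _
      · exact (ha.sub_odd hb).mul_left _
  interval_cases j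
  · -- j = 0
    exfalso
    simp [pow_succ] at him
    have : 4 * z - 3 * x = 3 * (u * v * (u - v)) := by rw [him]; ring
    rw [this, ← Int.not_even_iff_odd] at hQodd
    exact hQodd ((hparity u v).mul_left 3)
  · -- j = 1
    simp [pow_succ] at hre him
    have hP : 3 * (y - x) = -3 * u * v * (u - v) := by rw [hre]; ring
    have hQ : 4 * z - 3 * x = u ^ 3 - 3 * u ^ 2 * v + v ^ 3 := by rw [him]; ring
    -- ζ = u² - u v + v²
    have hζ : ζ = u ^ 2 - u * v + v ^ 2 := by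
      apply cube_inj
      rw [← hN, hP, hQ]
      ring
    have hG0 : G ≠ 0 := by
      rintro rfl
      apply hz
      rw [hzG]; ring
    have hζ0 : ζ ≠ 0 := by
      rintro h0
      apply hz
      rw [hzG, h0]; ring
    have hζpos : 0 < ζ := by
      apply lt_of_le_of_ne _ (Ne.symm hζ0)
      rw [hζ]
      nlinarith [sq_nonneg (u - v), sq_nonneg u, sq_nonneg v]
    -- the relation 44 G³ + 12 G ζ = P - 2 Q
    have hrel : 44 * G ^ 3 + 12 * G * ζ =
        -3 * u * v * (u - v) - 2 * (u ^ 3 - 3 * u ^ 2 * v + v ^ 3) := by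
      rw [← hP, ← hQ, ← hL0]
      have : 12 * G * ζ = -12 * z := by rw [hzG]; ring
      rw [this]; ring
    set T1 := u + v + 4 * G with hT1
    set T2 := v - 2 * u + 4 * G with hT2
    set T3 := u - 2 * v + 4 * G with hT3
    have hsum : T1 + T2 + T3 = 12 * G := by rw [hT1, hT2, hT3]; ring
    have hprod : T1 * T2 * T3 = 108 * G ^ 3 := by
      have : T1 * T2 * T3 = (-3 * u * v * (u - v) - 2 * (u ^ 3 - 3 * u ^ 2 * v + v ^ 3)) -
          12 * G * (u ^ 2 - u * v + v ^ 2) + 64 * G ^ 3 := by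
        rw [hT1, hT2, hT3]; ring
      rw [this, ← hrel, ← hζ]; ring
    obtain ⟨d, x1, y1, z1, hd, hz1, hx1, hy1, heq, hs⟩ := stepA T1 T2 T3 (by
      rw [hsum, hprod]; ring) (by
      rw [hprod]
      exact mul_ne_zero (by norm_num) (pow_ne_zero 3 hG0))
    refine ⟨x1, y1, z1, hz1, ?_, heq⟩
    -- 3 G = d x1 y1 z1
    have h3G : 3 * G = d * (x1 * y1 * z1) := by
      have : 4 * (3 * G) = 4 * (d * (x1 * y1 * z1)) := by
        rw [hsum] at hs
        linear_combination hs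
      exact mul_left_cancel₀ (by norm_num) this
    have h3z : 3 * |z| = d * |x1 * y1| * |z1| * ζ := by
      have e1 : 3 * |z| = |3 * G| * ζ := by
        rw [hzG, abs_neg, abs_mul, abs_of_pos hζpos, abs_mul]
        norm_num
        ring
      rw [e1, h3G, abs_mul, abs_mul (x1 * y1) z1, abs_of_pos hd]
      ring
    by_contra hcon
    push Not at hcon
    apply small_cases x1 y1 z1 hx1 hy1 hz1 _ heq
    have hz1pos : 0 < |z1| := abs_pos.2 hz1
    have h1 : d * |x1 * y1| * ζ * |z1| ≤ 3 * |z1| := by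
      calc d * |x1 * y1| * ζ * |z1| = 3 * |z| := by rw [h3z]; ring
        _ ≤ 3 * |z1| := by linarith
    have h2 : d * |x1 * y1| * ζ ≤ 3 := le_of_mul_le_mul_right h1 hz1pos
    have h3 : 0 ≤ |x1 * y1| := abs_nonneg _
    have h4 : |x1 * y1| ≤ d * |x1 * y1| := le_mul_of_one_le_left h3 (by omega)
    have h5 : d * |x1 * y1| ≤ d * |x1 * y1| * ζ :=
      le_mul_of_one_le_right (by positivity) (by omega)
    linarith
  · -- j = 2
    exfalso
    simp [pow_succ] at hre him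
    have hP : 3 * (y - x) = -(u ^ 3 - 3 * u ^ 2 * v + v ^ 3) := by rw [hre]; ring
    have hQ : 4 * z - 3 * x = -u ^ 3 + 3 * u * v ^ 2 - v ^ 3 := by rw [him]; ring
    rw [hP] at hPeven
    rw [hQ] at hQodd
    obtain ⟨⟨a, ha⟩, ⟨b, hb⟩⟩ := parity_form u v hPeven
    rw [← Int.not_even_iff_odd] at hQodd
    apply hQodd
    exact ⟨-4 * a ^ 3 + 12 * a * b ^ 2 - 4 * b ^ 3, by rw [ha, hb]; ring⟩

/-- **The cubic** `x³ + y³ + 4 z³ = 4 x y z` has only the solutions with `z = 0`. -/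
theorem cubic44 (x y z : ℤ) (h : x ^ 3 + y ^ 3 + 4 * z ^ 3 = 4 * (x * y * z)) : z = 0 := by
  have main : ∀ n : ℕ, ∀ x y z : ℤ, z.natAbs = n →
      x ^ 3 + y ^ 3 + 4 * z ^ 3 = 4 * (x * y * z) → z = 0 := by
    intro n
    induction n using Nat.strong_induction_on with
    | _ n ih =>
      intro x y z hn h
      by_contra hz
      -- primitive?
      by_cases hprim : ∃ p : ℤ, Prime p ∧ p ∣ x ∧ p ∣ y ∧ p ∣ z
      · obtain ⟨p, hp, ⟨a, ha⟩, ⟨b, hb⟩, ⟨c, hc⟩⟩ := hprim
        have hc0 : c ≠ 0 := by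
          rintro rfl
          apply hz
          rw [hc]; ring
        have hlt : c.natAbs < n := by
          rw [← hn, hc, Int.natAbs_mul]
          have h1 : 1 < p.natAbs := (Int.prime_iff_natAbs_prime.1 hp).one_lt
          have h2 : 0 < c.natAbs := Int.natAbs_pos.2 hc0
          exact (lt_mul_iff_one_lt_left h2).2 h1
        have heq : a ^ 3 + b ^ 3 + 4 * c ^ 3 = 4 * (a * b * c) := by
          have : p ^ 3 * (a ^ 3 + b ^ 3 + 4 * c ^ 3) = p ^ 3 * (4 * (a * b * c)) := by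
            rw [ha, hb, hc] at h
            linear_combination h
          exact mul_left_cancel₀ (pow_ne_zero 3 hp.ne_zero) this
        exact hc0 (ih _ hlt a b c rfl heq)
      · push Not at hprim
        have hp2 : Prime (2 : ℤ) := Int.prime_two
        -- parity: x and y are odd
        have hpar : Odd x ∧ Odd y := by
          rcases Int.even_or_odd x with hx | hx
          · exfalso
            rcases Int.even_or_odd y with hy | hy
            · obtain ⟨a, ha⟩ := hx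
              obtain ⟨b, hb⟩ := hy
              have hz2 : (2 : ℤ) ∣ z := by
                apply hp2.dvd_of_dvd_pow (n := 3)
                refine ⟨2 * (a * b * z) - a ^ 3 - b ^ 3, ?_⟩
                rw [ha, hb] at h
                linarith [h]
              exact hprim 2 hp2 ⟨a, by rw [ha]; ring⟩ ⟨b, by rw [hb]; ring⟩ hz2
            · obtain ⟨a, ha⟩ := hx
              obtain ⟨b, hb⟩ := hy
              rw [ha, hb] at h
              have : (1 : ℤ) = 2 * (2 * ((a + a) * (2 * b + 1) * z) - 4 * a ^ 3 - 2 * z ^ 3 -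
                (4 * b ^ 3 + 6 * b ^ 2 + 3 * b)) := by linarith [h]
              omega
          · rcases Int.even_or_odd y with hy | hy
            · exfalso
              obtain ⟨a, ha⟩ := hx
              obtain ⟨b, hb⟩ := hy
              rw [ha, hb] at h
              have : (1 : ℤ) = 2 * (2 * ((2 * a + 1) * (b + b) * z) - 4 * b ^ 3 - 2 * z ^ 3 -
                (4 * a ^ 3 + 6 * a ^ 2 + 3 * a)) := by linarith [h]
              omega
            · exact ⟨hx, hy⟩
        obtain ⟨hx, hy⟩ := hpar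
        have hx0 : x ≠ 0 := by rintro rfl; exact absurd hx (by decide)
        have hy0 : y ≠ 0 := by rintro rfl; exact absurd hy (by decide)
        have hxz : IsCoprime x z := by
          apply isCoprime_of_prime_dvd
          · rintro ⟨a, -⟩; exact hx0 a
          · intro p hp a b
            apply hprim p hp a _ b
            apply hp.dvd_of_dvd_pow (n := 3)
            have : y ^ 3 = z * (4 * (x * y) - 4 * z ^ 2) - x * x ^ 2 := by linear_combination h
            rw [this]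
            exact dvd_sub (b.mul_right _) (a.mul_right _)
        have hyz : IsCoprime y z := by
          apply isCoprime_of_prime_dvd
          · rintro ⟨a, -⟩; exact hy0 a
          · intro p hp a b
            apply hprim p hp _ a b
            apply hp.dvd_of_dvd_pow (n := 3)
            have : x ^ 3 = z * (4 * (x * y) - 4 * z ^ 2) - y * y ^ 2 := by linear_combination h
            rw [this]
            exact dvd_sub (b.mul_right _) (a.mul_right _)
        have hxy : IsCoprime x y := by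
          apply isCoprime_of_prime_dvd
          · rintro ⟨a, -⟩; exact hx0 a
          · intro p hp a b
            -- p divides 4 z³
            have c1 : p ∣ 4 * z ^ 3 := by
              have : 4 * z ^ 3 = x * (4 * (y * z) - x ^ 2) - y * y ^ 2 := by linear_combination h
              rw [this]
              exact dvd_sub (a.mul_right _) (b.mul_right _)
            rcases hp.dvd_or_dvd c1 with c2 | c2
            · have c3 : p ∣ (2 : ℤ) ^ 2 := by norm_num; exact c2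
              have c4 : p ∣ 2 := hp.dvd_of_dvd_pow c3
              have c5 : Associated p 2 := (hp.dvd_prime_iff_associated hp2).1 c4
              have c6 : (2 : ℤ) ∣ x := c5.symm.dvd.trans a
              rw [← Int.not_even_iff_odd] at hx
              exact hx (even_iff_two_dvd.2 c6)
            · exact hprim p hp a b (hp.dvd_of_dvd_pow c2)
        obtain ⟨x', y', z', h1, h2, h3⟩ := step x y z hxy hxz hyz hz hx hy h
        apply h1
        apply ih z'.natAbs _ x' y' z' rfl h3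
        rw [← hn]
        rw [Int.abs_eq_natAbs, Int.abs_eq_natAbs] at h2
        exact_mod_cast h2
  exact main _ x y z rfl h

/-- **The curve** `(X+Y+Z)³ = 16 X Y Z` over `ℤ`. -/
theorem curve44 (X Y Z : ℤ) (h : (X + Y + Z) ^ 3 = 16 * (X * Y * Z)) : X * Y * Z = 0 := by
  by_contra h0
  obtain ⟨d, x, y, z, -, hz, -, -, heq, -⟩ := stepA X Y Z h h0
  exact hz (cubic44 x y z heq)

/-- The same over `ℚ`. -/
theorem curve44_rat (X Y Z : ℚ) (h : (X + Y + Z) ^ 3 = 16 * (X * Y * Z)) : X * Y * Z = 0 := by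
  have hX := Rat.num_div_den X
  have hY := Rat.num_div_den Y
  have hZ := Rat.num_div_den Z
  have hXd : (X.den : ℚ) ≠ 0 := by exact_mod_cast X.den_nz
  have hYd : (Y.den : ℚ) ≠ 0 := by exact_mod_cast Y.den_nz
  have hZd : (Z.den : ℚ) ≠ 0 := by exact_mod_cast Z.den_nz
  have key := curve44 (X.num * Y.den * Z.den) (Y.num * X.den * Z.den) (Z.num * X.den * Y.den) (by
    have : (((X.num * Y.den * Z.den + Y.num * X.den * Z.den + Z.num * X.den * Y.den) ^ 3 : ℤ) : ℚ) =
        ((16 * ((X.num * Y.den * Z.den) * (Y.num * X.den * Z.den) * (Z.num * X.den * Y.den)) : ℤ) :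
          ℚ) := by
      push_cast
      have e1 : (X.num : ℚ) = X * X.den := by field_simp at hX ⊢; linarith
      have e2 : (Y.num : ℚ) = Y * Y.den := by field_simp at hY ⊢; linarith
      have e3 : (Z.num : ℚ) = Z * Z.den := by field_simp at hZ ⊢; linarith
      rw [e1, e2, e3]
      linear_combination (X.den * Y.den * Z.den : ℚ) ^ 3 * h
    exact_mod_cast this)
  have h1 : X.num = 0 ∨ Y.num = 0 ∨ Z.num = 0 := by
    have hXd' : (X.den : ℤ) ≠ 0 := by exact_mod_cast X.den_nz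
    have hYd' : (Y.den : ℤ) ≠ 0 := by exact_mod_cast Y.den_nz
    have hZd' : (Z.den : ℤ) ≠ 0 := by exact_mod_cast Z.den_nz
    simp only [mul_eq_zero, hXd', hYd', hZd', or_false] at key
    tauto
  rcases h1 with h1 | h1 | h1
  · rw [Rat.num_eq_zero.1 h1]; ring
  · rw [Rat.num_eq_zero.1 h1]; ring
  · rw [Rat.num_eq_zero.1 h1]; ring

end Pool.Agent.H97
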