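import Mathlib

/-!
# Eisenstein integers

The ring `ℤ[ω]`, `ω² = -1 - ω`, as a Euclidean domain, and the lemma that a primitive element whose
norm is the cube of an integer prime to `3` is a unit times a cube.
-/

set_option autoImplicit false

namespace Pool.Agent.H97

open QuadraticAlgebra

/-- The Eisenstein integers. -/
abbrev Eis : Type := QuadraticAlgebra ℤ (-1) (-1)

namespace Eis

theorem norm_eq (z : Eis) : norm z = z.re ^ 2 - z.re * z.im + z.im ^ 2 := by
  rw [norm_def]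
  ring

theorem norm_nonneg (z : Eis) : 0 ≤ norm z := by
  rw [norm_eq]
  nlinarith [sq_nonneg (z.re - z.im), sq_nonneg z.re, sq_nonneg z.im]

theorem norm_eq_zero {z : Eis} (h : norm z = 0) : z = 0 := by
  rw [norm_eq] at h
  have h1 : z.re = 0 := by
    nlinarith [sq_nonneg (2 * z.im - z.re), sq_nonneg z.re]
  have h2 : z.im = 0 := by
    rw [h1] at h
    nlinarith
  ext
  · rw [h1]; rfl
  · rw [h2]; rfl

theorem norm_pos {z : Eis} (h : z ≠ 0) : 0 < norm z :=
  lt_of_le_of_ne (norm_nonneg z) (fun h' => h (norm_eq_zero h'.symm))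

instance : NoZeroDivisors Eis where
  eq_zero_or_eq_zero_of_mul_eq_zero := by
    intro a b h
    have h1 : norm a * norm b = 0 := by
      rw [← map_mul, h]
      simp
    rcases mul_eq_zero.1 h1 with h2 | h2
    · exact Or.inl (norm_eq_zero h2)
    · exact Or.inr (norm_eq_zero h2)

instance : Nontrivial Eis := ⟨⟨0, 1, fun h => by
  have := congrArg QuadraticAlgebra.re h
  simp at this⟩⟩

instance : IsDomain Eis := NoZeroDivisors.to_isDomain _

theorem norm_star' (z : Eis) : norm (star z) = norm z := by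
  simp

theorem mul_star_eq (z : Eis) : z * star z = ((norm z : ℤ) : Eis) := by
  rw [← algebraMap_norm_eq_mul_star]
  simp

/-- rounding division in `ℤ` -/
theorem exists_round (z n : ℤ) (hn : 0 < n) : ∃ q : ℤ, |2 * (z - n * q)| ≤ n := by
  refine ⟨(2 * z + n) / (2 * n), ?_⟩
  have h1 := Int.emod_add_mul_ediv (2 * z + n) (2 * n)
  have h2 := Int.emod_nonneg (2 * z + n) (show 2 * n ≠ 0 by omega)
  have h3 := Int.emod_lt_of_pos (2 * z + n) (show 0 < 2 * n by omega)
  set q := (2 * z + n) / (2 * n)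
  rw [abs_le]
  constructor <;> nlinarith

theorem exists_quot (x y : Eis) (hy : y ≠ 0) : ∃ q : Eis, norm (x - y * q) < norm y := by
  have hn := norm_pos hy
  set n := norm y with hn'
  set z := x * star y with hz
  obtain ⟨q1, h1⟩ := exists_round z.re n hn
  obtain ⟨q2, h2⟩ := exists_round z.im n hn
  refine ⟨⟨q1, q2⟩, ?_⟩
  set q : Eis := ⟨q1, q2⟩ with hq
  have h3 : norm (x - y * q) * n = norm (z - (n : Eis) * q) := by
    have : z - (n : Eis) * q = (x - y * q) * star y := by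
      rw [hz, hn', ← mul_star_eq y]
      ring
    rw [this, map_mul, norm_star']
  have hre : (z - (n : Eis) * q).re = z.re - n * q1 := by
    simp [hq]
  have him : (z - (n : Eis) * q).im = z.im - n * q2 := by
    simp [hq]
  rw [norm_eq (z - (n : Eis) * q), hre, him] at h3
  set r1 := z.re - n * q1
  set r2 := z.im - n * q2
  have h1' := abs_le.1 h1
  have h2' := abs_le.1 h2
  -- 4 (r1² - r1 r2 + r2²) ≤ 3 n²
  have h4 : 4 * (r1 ^ 2 - r1 * r2 + r2 ^ 2) ≤ 3 * (n * n) := by
    have a1 : (2 * r1) ^ 2 ≤ n ^ 2 := sq_le_sq' h1'.1 h1'.2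
    have a2 : (2 * r2) ^ 2 ≤ n ^ 2 := sq_le_sq' h2'.1 h2'.2
    nlinarith [mul_nonneg (show 0 ≤ n + 2 * r1 by linarith) (show 0 ≤ n + 2 * r2 by linarith),
      mul_nonneg (show 0 ≤ n - 2 * r1 by linarith) (show 0 ≤ n - 2 * r2 by linarith)]
  by_contra hcon
  push Not at hcon
  have h5 : n * n ≤ norm (x - y * q) * n := mul_le_mul_of_nonneg_right hcon hn.le
  nlinarith

open Classical in
/-- quotient -/
noncomputable def quot (x y : Eis) : Eis := if h : y = 0 then 0 else (exists_quot x y h).choose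

theorem norm_quot_lt (x : Eis) {y : Eis} (hy : y ≠ 0) : norm (x - y * quot x y) < norm y := by
  rw [quot, dif_neg hy]
  exact (exists_quot x y hy).choose_spec

noncomputable instance : EuclideanDomain Eis where
  quotient := quot
  quotient_zero := fun x => by simp [quot]
  remainder x y := x - y * quot x y
  quotient_mul_add_remainder_eq := fun x y => by ring
  r x y := (norm x).natAbs < (norm y).natAbs
  r_wellFounded := (measure (fun x : Eis => (norm x).natAbs)).wf
  remainder_lt := fun x y hy => by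
    have h1 := norm_quot_lt x hy
    have h2 := norm_nonneg (x - y * quot x y)
    have h3 := norm_nonneg y
    show (norm (x - y * quot x y)).natAbs < (norm y).natAbs
    omega
  mul_left_not_lt := fun x y hy => by
    show ¬ (norm (x * y)).natAbs < (norm x).natAbs
    rw [map_mul, Int.natAbs_mul]
    have : 0 < (norm y).natAbs := Int.natAbs_pos.2 (norm_pos hy).ne'
    have := Nat.le_mul_of_pos_right (norm x).natAbs this
    omega

/-- Units of `ℤ[ω]`. -/
theorem unit_cases (u : Eis) (hu : IsUnit u) : ∃ s : ℤ, (s = 1 ∨ s = -1) ∧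
    (u = ⟨s, 0⟩ ∨ u = ⟨0, s⟩ ∨ u = ⟨-s, -s⟩) := by
  have h1 : norm u = 1 := by
    have h2 : IsUnit (QuadraticAlgebra.norm u) := hu.map QuadraticAlgebra.norm
    rcases Int.isUnit_iff.1 h2 with h | h
    · exact h
    · have := norm_nonneg u
      omega
  rw [norm_eq] at h1
  have hre : -1 ≤ u.re ∧ u.re ≤ 1 := by
    constructor <;> nlinarith [sq_nonneg (2 * u.im - u.re), sq_nonneg (u.re)]
  have him : -1 ≤ u.im ∧ u.im ≤ 1 := by
    constructor <;> nlinarith [sq_nonneg (2 * u.re - u.im), sq_nonneg (u.im)]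
  obtain ⟨a, b⟩ := u
  simp only at h1 hre him
  obtain ⟨h3, h4⟩ := hre
  obtain ⟨h5, h6⟩ := him
  interval_cases a <;> interval_cases b <;> simp_all

/-- The key lemma: `P + Q ω` primitive of norm `ζ³`, `3 ∤ ζ`, is `ω^j Γ³`; spelled out over `ℤ`. -/
theorem cube_lemma (P Q ζ : ℤ) (hcop : IsCoprime P Q) (h3 : ¬ (3 : ℤ) ∣ ζ)
    (hN : P ^ 2 - P * Q + Q ^ 2 = ζ ^ 3) :
    ∃ (j : ℕ) (Γ : Eis), j < 3 ∧ (⟨P, Q⟩ : Eis) = (⟨0, 1⟩ : Eis) ^ j * Γ ^ 3 := by
  set L : Eis := ⟨P, Q⟩ with hL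
  have hprod : L * star L = ((ζ : ℤ) : Eis) ^ 3 := by
    rw [mul_star_eq, norm_eq]
    simp only [hL]
    rw [hN]
    push_cast
    rfl
  have hco : IsCoprime L (star L) := by
    obtain ⟨x, y, hxy⟩ := hcop
    -- 3 ∈ (L, star L) and ζ³ ∈ (L, star L)
    have e1 : ∃ A B : Eis, A * L + B * star L = 3 := by
      -- star L = P - Q - Q ω
      refine ⟨(⟨-(2 * x + y), -(x + 2 * y)⟩ : Eis) * 0 + ⟨1, 2⟩ * (-(y : Eis)) + (⟨1, 2⟩ : Eis) *
        (x : Eis) * (⟨-1, -1⟩ : Eis), (⟨1, 2⟩ : Eis) * (y : Eis) + (⟨1, 2⟩ : Eis) *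
        (-(x : Eis)) * (⟨0, 1⟩ : Eis), ?_⟩
      ext
      · simp [hL]
        linear_combination 3 * hxy
      · simp [hL]
        ring
    obtain ⟨A, B, hAB⟩ := e1
    have e2 : IsCoprime (3 : ℤ) (ζ ^ 3) := by
      apply IsCoprime.pow_right
      exact (Int.prime_three.coprime_iff_not_dvd).2 h3
    obtain ⟨s, t, hst⟩ := e2
    refine ⟨(s : Eis) * A + (t : Eis) * star L, (s : Eis) * B, ?_⟩
    have : ((s * 3 + t * ζ ^ 3 : ℤ) : Eis) = 1 := by rw [hst]; simp
    push_cast at this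
    calc ((s : Eis) * A + (t : Eis) * star L) * L + (s : Eis) * B * star L
        = (s : Eis) * (A * L + B * star L) + (t : Eis) * (L * star L) := by ring
      _ = 1 := by rw [hAB, hprod, ← this]
  obtain ⟨d, hd⟩ := exists_associated_pow_of_mul_eq_pow' hco hprod
  obtain ⟨u, hu⟩ := hd
  obtain ⟨s, hs, hcases⟩ := unit_cases u u.isUnit
  have hs3 : ((s : ℤ) : Eis) ^ 3 = (s : Eis) := by
    rcases hs with h | h <;> rw [h] <;> norm_num
  rcases hcases with h | h | h
  · refine ⟨0, (s : Eis) * d, by norm_num, ?_⟩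
    rw [← hu, h, mul_pow, hs3, pow_zero, one_mul, mul_comm]
    rfl
  · refine ⟨1, (s : Eis) * d, by norm_num, ?_⟩
    rw [← hu, h, mul_pow, hs3, pow_one]
    have : (⟨0, s⟩ : Eis) = ⟨0, 1⟩ * (s : Eis) := by ext <;> simp
    rw [this]
    ring
  · refine ⟨2, (s : Eis) * d, by norm_num, ?_⟩
    rw [← hu, h, mul_pow, hs3]
    have : (⟨-s, -s⟩ : Eis) = ⟨0, 1⟩ ^ 2 * (s : Eis) := by ext <;> simp [pow_two]
    rw [this]
    ring

end Eis

end Pool.Agent.H97
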