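import Mathlib

/-!
# Counting integers with all prime factors among those of `N`
-/

set_option autoImplicit false

namespace Pool.Agent.H97

/-- `m ↦ m ^ (-ε)` as a multiplicative map -/
noncomputable def powHom (ε : ℝ) : ℕ →* ℝ where
  toFun m := (m : ℝ) ^ (-ε)
  map_one' := by simp
  map_mul' a b := by
    rw [Nat.cast_mul, Real.mul_rpow (Nat.cast_nonneg _) (Nat.cast_nonneg _)]

/-- the integers up to `X` all of whose prime factors divide `N` -/
noncomputable def fac (N X : ℕ) : Finset ℕ :=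
  (Finset.Icc 1 X).filter (fun m => m ∈ Nat.factoredNumbers N.primeFactors)

theorem rpow_neg_lt_one {ε : ℝ} (hε : 0 < ε) {p : ℕ} (hp : p.Prime) : (p : ℝ) ^ (-ε) < 1 := by
  have h1 : (1 : ℝ) < p := by exact_mod_cast hp.one_lt
  exact Real.rpow_lt_one_of_one_lt_of_neg h1 (by linarith)

theorem card_fac_le_prod {ε : ℝ} (hε : 0 < ε) (N X : ℕ) (hX : 1 ≤ X) :
    ((fac N X).card : ℝ) ≤ (X : ℝ) ^ ε * ∏ p ∈ N.primeFactors, (1 - (p : ℝ) ^ (-ε))⁻¹ := by
  have hlt : ∀ {p : ℕ}, p.Prime → ‖powHom ε p‖ < 1 := by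
    intro p hp
    show ‖(p : ℝ) ^ (-ε)‖ < 1
    rw [Real.norm_of_nonneg (Real.rpow_nonneg (Nat.cast_nonneg _) _)]
    exact rpow_neg_lt_one hε hp
  obtain ⟨_, h2⟩ := EulerProduct.summable_and_hasSum_factoredNumbers_prod_filter_prime_geometric
    (f := powHom ε) hlt N.primeFactors
  have hfil : N.primeFactors.filter (fun p => p.Prime) = N.primeFactors := by
    apply Finset.filter_true_of_mem
    intro p hp
    exact Nat.prime_of_mem_primeFactors hp
  rw [hfil] at h2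
  have h3 : ∑ m ∈ (Finset.Icc 1 X).subtype (fun m => m ∈ Nat.factoredNumbers N.primeFactors),
      powHom ε (m : ℕ) ≤ ∏ p ∈ N.primeFactors, (1 - powHom ε p)⁻¹ := by
    apply sum_le_hasSum _ _ h2
    intro i _
    exact Real.rpow_nonneg (Nat.cast_nonneg _) _
  rw [Finset.sum_subtype_eq_sum_filter (f := fun m : ℕ => powHom ε m)] at h3
  have hX0 : (0 : ℝ) < (X : ℝ) := by exact_mod_cast hX
  have h4 : ((fac N X).card : ℝ) ≤ ∑ m ∈ fac N X, (X : ℝ) ^ ε * powHom ε m := by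
    rw [Finset.card_eq_sum_ones, Nat.cast_sum]
    apply Finset.sum_le_sum
    intro m hm
    have hm1 : 1 ≤ m ∧ m ≤ X := Finset.mem_Icc.1 (Finset.mem_filter.1 hm).1
    have hm0 : (0 : ℝ) < (m : ℝ) := by exact_mod_cast hm1.1
    show ((1 : ℕ) : ℝ) ≤ (X : ℝ) ^ ε * (m : ℝ) ^ (-ε)
    rw [Real.rpow_neg hm0.le, ← div_eq_mul_inv, le_div_iff₀ (Real.rpow_pos_of_pos hm0 _)]
    rw [Nat.cast_one, one_mul]
    exact Real.rpow_le_rpow hm0.le (by exact_mod_cast hm1.2) hε.le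
  rw [← Finset.mul_sum] at h4
  refine h4.trans ?_
  exact mul_le_mul_of_nonneg_left h3 (Real.rpow_nonneg hX0.le _)

theorem prod_primes_le {ε : ℝ} (hε : 0 < ε) : ∃ C : ℝ, 1 ≤ C ∧ ∀ N : ℕ, 1 ≤ N →
    ∏ p ∈ N.primeFactors, (1 - (p : ℝ) ^ (-ε))⁻¹ ≤ C * (N : ℝ) ^ ε := by
  set K : ℝ := (1 - (2 : ℝ) ^ (-ε))⁻¹ with hK
  have h2lt : (2 : ℝ) ^ (-ε) < 1 := by
    have := rpow_neg_lt_one hε Nat.prime_two
    exact_mod_cast this
  have h2pos : 0 < (2 : ℝ) ^ (-ε) := Real.rpow_pos_of_pos (by norm_num) _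
  have hK1 : 1 ≤ K := by
    rw [hK]
    exact (one_le_inv₀ (by linarith)).2 (by linarith)
  set P0 : ℕ := ⌈(2 : ℝ) ^ (1 / ε)⌉₊ with hP0
  refine ⟨K ^ P0, one_le_pow₀ hK1, ?_⟩
  intro N hN
  have hfac : ∀ p ∈ N.primeFactors, (1 - (p : ℝ) ^ (-ε))⁻¹ ≤
      (if p < P0 then K else 1) * (p : ℝ) ^ ε := by
    intro p hp
    have hpp := Nat.prime_of_mem_primeFactors hp
    have hp2 : (2 : ℝ) ≤ p := by exact_mod_cast hpp.two_le
    have hp0 : (0 : ℝ) < p := by linarith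
    have hpe1 : 1 ≤ (p : ℝ) ^ ε := Real.one_le_rpow (by linarith) hε.le
    have hplt := rpow_neg_lt_one hε hpp
    split_ifs with h
    · have h1 : (p : ℝ) ^ (-ε) ≤ (2 : ℝ) ^ (-ε) :=
        Real.rpow_le_rpow_of_nonpos (by norm_num) hp2 (by linarith)
      have h2 : (1 - (p : ℝ) ^ (-ε))⁻¹ ≤ K := by
        rw [hK]
        exact inv_anti₀ (by linarith) (by linarith)
      calc (1 - (p : ℝ) ^ (-ε))⁻¹ ≤ K * 1 := by rw [mul_one]; exact h2
        _ ≤ K * (p : ℝ) ^ ε := mul_le_mul_of_nonneg_left hpe1 (by linarith)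
    · push Not at h
      have h1 : (2 : ℝ) ^ (1 / ε) ≤ p := (Nat.le_ceil _).trans (by exact_mod_cast h)
      have h2 : (2 : ℝ) ≤ (p : ℝ) ^ ε := by
        have := Real.rpow_le_rpow (Real.rpow_nonneg (by norm_num) _) h1 hε.le
        rw [← Real.rpow_mul (by norm_num), one_div, inv_mul_cancel₀ hε.ne', Real.rpow_one] at this
        exact this
      have h3 : (p : ℝ) ^ (-ε) ≤ 1 / 2 := by
        rw [Real.rpow_neg hp0.le, ← one_div]
        exact one_div_le_one_div_of_le (by norm_num) h2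
      rw [one_mul]
      calc (1 - (p : ℝ) ^ (-ε))⁻¹ ≤ (1 / 2 : ℝ)⁻¹ := inv_anti₀ (by norm_num) (by linarith)
        _ = 2 := by norm_num
        _ ≤ (p : ℝ) ^ ε := h2
  calc ∏ p ∈ N.primeFactors, (1 - (p : ℝ) ^ (-ε))⁻¹
      ≤ ∏ p ∈ N.primeFactors, (if p < P0 then K else 1) * (p : ℝ) ^ ε := by
        apply Finset.prod_le_prod _ hfac
        intro p hp
        have := rpow_neg_lt_one hε (Nat.prime_of_mem_primeFactors hp)
        exact inv_nonneg.2 (by linarith)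
    _ = (∏ p ∈ N.primeFactors, if p < P0 then K else 1) * ∏ p ∈ N.primeFactors, (p : ℝ) ^ ε := by
        rw [Finset.prod_mul_distrib]
    _ ≤ K ^ P0 * (N : ℝ) ^ ε := by
        apply mul_le_mul
        · rw [Finset.prod_ite, Finset.prod_const, Finset.prod_const_one, mul_one]
          apply pow_le_pow_right₀ hK1
          calc (N.primeFactors.filter (fun p => p < P0)).card ≤ (Finset.range P0).card := by
                apply Finset.card_le_card
                intro p hp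
                exact Finset.mem_range.2 (Finset.mem_filter.1 hp).2
            _ = P0 := Finset.card_range P0
        · have h1 : ∏ p ∈ N.primeFactors, (p : ℝ) ^ ε = (((∏ p ∈ N.primeFactors, p : ℕ)) : ℝ) ^ ε := by
            rw [Nat.cast_prod, ← Real.finsetProd_rpow _ _ (fun i _ => Nat.cast_nonneg _)]
          rw [h1]
          apply Real.rpow_le_rpow (Nat.cast_nonneg _) _ hε.le
          exact_mod_cast Nat.le_of_dvd hN (Nat.prod_primeFactors_dvd N)
        · exact Finset.prod_nonneg fun i _ => Real.rpow_nonneg (Nat.cast_nonneg _) _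
        · exact pow_nonneg (by linarith) _

/-- **Rankin's bound** -/
theorem card_fac_le {ε : ℝ} (hε : 0 < ε) : ∃ C : ℝ, 1 ≤ C ∧ ∀ N X : ℕ, 1 ≤ N → 1 ≤ X →
    ((fac N X).card : ℝ) ≤ C * ((N : ℝ) ^ ε * (X : ℝ) ^ ε) := by
  obtain ⟨C, hC, h⟩ := prod_primes_le hε
  refine ⟨C, hC, fun N X hN hX => ?_⟩
  calc ((fac N X).card : ℝ) ≤ (X : ℝ) ^ ε * ∏ p ∈ N.primeFactors, (1 - (p : ℝ) ^ (-ε))⁻¹ :=
        card_fac_le_prod hε N X hX
    _ ≤ (X : ℝ) ^ ε * (C * (N : ℝ) ^ ε) :=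
        mul_le_mul_of_nonneg_left (h N hN) (Real.rpow_nonneg (Nat.cast_nonneg _) _)
    _ = C * ((N : ℝ) ^ ε * (X : ℝ) ^ ε) := by ring

theorem divisors_subset_fac (n : ℕ) : n.divisors ⊆ fac n n := by
  intro d hd
  have hd1 := Nat.dvd_of_mem_divisors hd
  have hn0 : n ≠ 0 := (Nat.mem_divisors.1 hd).2
  have hd0 : d ≠ 0 := by
    rintro rfl
    exact hn0 (Nat.eq_zero_of_zero_dvd hd1)
  refine Finset.mem_filter.2 ⟨Finset.mem_Icc.2 ⟨Nat.pos_of_ne_zero hd0,
    Nat.le_of_dvd (Nat.pos_of_ne_zero hn0) hd1⟩, ?_⟩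
  rw [Nat.mem_factoredNumbers_iff_primeFactors_subset]
  exact ⟨hd0, Nat.primeFactors_mono hd1 hn0⟩

end Pool.Agent.H97
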