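import Pool.Agent.H97.PadicTools

/-!
# Basic facts on the maps `x ↦ b x + c / x`
-/

set_option autoImplicit false

namespace Pool.Agent.H97

/-- The map `x ↦ b x + c / x` on `ℙ¹(ℚ) = ℚ ∪ {∞}` (`none` is `∞`; both `0` and `∞` go to `∞`). -/
def mf (b c : ℚ) : Option ℚ → Option ℚ :=
  fun q : Option ℚ => Option.bind q (fun x : ℚ => if x = 0 then none else some (b * x + c / x))

theorem mf_none (b c : ℚ) : mf b c none = none := rfl

theorem mf_some (b c x : ℚ) (hx : x ≠ 0) : mf b c (some x) = some (b * x + c / x) := by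
  simp [mf, hx]

theorem mf_zero (b c : ℚ) : mf b c (some 0) = none := by
  simp [mf]

theorem iter_none (b c : ℚ) (i : ℕ) : (mf b c)^[i] none = none := by
  induction i with
  | zero => rfl
  | succ i ih => rw [Function.iterate_succ_apply', ih, mf_none]

/-- A cycle: a periodic sequence of nonzero rationals following the map. -/
structure IsCycle (b c : ℚ) (x : ℕ → ℚ) (n : ℕ) : Prop where
  pos : 0 < n
  ne : ∀ i, x i ≠ 0
  next : ∀ i, x (i + 1) = b * x i + c / x i
  per : ∀ i, x (i + n) = x i

theorem exists_cycle (b c : ℚ) (q : Option ℚ) (hq : q ∈ Function.periodicPts (mf b c)) :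
    q = none ∨ ∃ (x : ℕ → ℚ) (n : ℕ), IsCycle b c x n ∧ q = some (x 0) := by
  obtain ⟨n, hn, hper⟩ := hq
  rcases eq_or_ne q none with h | h
  · exact Or.inl h
  · right
    -- no iterate is none
    have hper' : ∀ m, (mf b c)^[m * n] q = q := by
      intro m
      have := hper.const_mul m
      exact this
    have hnn : ∀ i, (mf b c)^[i] q ≠ none := by
      intro i hi
      apply h
      have h1 : (mf b c)^[(i + 1) * n] q = q := hper' (i + 1)
      have h2 : (i + 1) * n = ((i + 1) * n - i) + i := by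
        have : i ≤ (i + 1) * n := by nlinarith
        omega
      rw [h2, Function.iterate_add_apply, hi, iter_none] at h1
      exact h1.symm
    choose x hx using fun i => Option.ne_none_iff_exists'.1 (hnn i)
    have hx0 : ∀ i, x i ≠ 0 := by
      intro i hi
      apply hnn (i + 1)
      rw [Function.iterate_succ_apply', hx i, hi, mf_zero]
    refine ⟨x, n, ⟨hn, hx0, ?_, ?_⟩, ?_⟩
    · intro i
      have h1 := hx (i + 1)
      rw [Function.iterate_succ_apply', hx i, mf_some _ _ _ (hx0 i)] at h1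
      exact (Option.some.inj h1).symm
    · intro i
      have h1 := hx (i + n)
      rw [Function.iterate_add_apply, hper.eq, hx i] at h1
      exact (Option.some.inj h1).symm
    · have := hx 0
      simpa using this

namespace IsCycle

variable {b c : ℚ} {x : ℕ → ℚ} {n : ℕ}

theorem iter (h : IsCycle b c x n) (i : ℕ) : (mf b c)^[i] (some (x 0)) = some (x i) := by
  induction i with
  | zero => rfl
  | succ i ih => rw [Function.iterate_succ_apply', ih, mf_some _ _ _ (h.ne i), h.next]

theorem isPeriodicPt (h : IsCycle b c x n) {k : ℕ} (hk : x k = x 0) :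
    Function.IsPeriodicPt (mf b c) k (some (x 0)) := by
  show (mf b c)^[k] (some (x 0)) = some (x 0)
  rw [h.iter, hk]

theorem next_eq_of_eq (h : IsCycle b c x n) {i j : ℕ} (hij : x i = x j) :
    x (i + 1) = x (j + 1) := by
  rw [h.next, h.next, hij]

theorem next_eq_of_neg (h : IsCycle b c x n) {i j : ℕ} (hij : x i = -x j) :
    x (i + 1) = -x (j + 1) := by
  rw [h.next, h.next, hij, div_neg]
  ring

theorem minimalPeriod_pos (h : IsCycle b c x n) :
    0 < Function.minimalPeriod (mf b c) (some (x 0)) := by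
  apply Function.minimalPeriod_pos_of_mem_periodicPts
  refine ⟨n, h.pos, h.isPeriodicPt ?_⟩
  have := h.per 0
  rwa [zero_add] at this

theorem mem12 (h : IsCycle b c x n) (h1 : x 1 = x 0 ∨ x 1 = -x 0) :
    Function.minimalPeriod (mf b c) (some (x 0)) ∈ ({1, 2} : Finset ℕ) := by
  have h2 : x 2 = x 0 := by
    rcases h1 with h1 | h1
    · rw [← h1]; exact h.next_eq_of_eq h1
    · have : x 2 = -x 1 := h.next_eq_of_neg h1
      rw [this, h1, neg_neg]
  have h3 := (h.isPeriodicPt h2).minimalPeriod_dvd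
  have h4 := h.minimalPeriod_pos
  have h5 := Nat.le_of_dvd (by norm_num) h3
  simp only [Finset.mem_insert, Finset.mem_singleton]
  omega

theorem mem124 (h : IsCycle b c x n) (h4 : x 4 = x 0) :
    Function.minimalPeriod (mf b c) (some (x 0)) ∈ ({1, 2, 4} : Finset ℕ) := by
  have h3 := (h.isPeriodicPt h4).minimalPeriod_dvd
  have h5 := h.minimalPeriod_pos
  have h6 := Nat.le_of_dvd (by norm_num) h3
  simp only [Finset.mem_insert, Finset.mem_singleton]
  set m := Function.minimalPeriod (mf b c) (some (x 0))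
  interval_cases m <;> revert h3 <;> decide

/-- the `t`-coordinate `x² / c` -/
theorem t_rec (h : IsCycle b c x n) (hc : c ≠ 0) (i : ℕ) :
    x (i + 1) ^ 2 / c = (b * (x i ^ 2 / c) + 1) ^ 2 / (x i ^ 2 / c) := by
  have := h.ne i
  rw [h.next]
  field_simp

theorem t_ne (h : IsCycle b c x n) (hc : c ≠ 0) (i : ℕ) : x i ^ 2 / c ≠ 0 :=
  div_ne_zero (pow_ne_zero 2 (h.ne i)) hc

theorem eq_or_neg_of_t (hc : c ≠ 0) {u v : ℚ} (ht : u ^ 2 / c = v ^ 2 / c) : u = v ∨ u = -v := by
  have : u ^ 2 = v ^ 2 := by field_simp at ht; exact ht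
  exact sq_eq_sq_iff_eq_or_eq_neg.1 this

end IsCycle

/-- A cycle of the quotient map `t ↦ (b t + 1)² / t`. -/
structure IsTCycle (b : ℚ) (t : ℕ → ℚ) (n : ℕ) : Prop where
  pos : 0 < n
  ne : ∀ i, t i ≠ 0
  next : ∀ i, t (i + 1) = (b * t i + 1) ^ 2 / t i
  per : ∀ i, t (i + n) = t i

theorem IsCycle.toT {b c : ℚ} {x : ℕ → ℚ} {n : ℕ} (h : IsCycle b c x n) (hc : c ≠ 0) :
    IsTCycle b (fun i => x i ^ 2 / c) n where
  pos := h.pos
  ne := h.t_ne hc
  next := h.t_rec hc
  per := fun i => by simp only [h.per i]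

namespace IsTCycle

variable {b : ℚ} {t : ℕ → ℚ} {n : ℕ}

/-- difference formula -/
theorem diff (h : IsTCycle b t n) (i k : ℕ) :
    t (i + 1 + k) - t (i + 1) = (b ^ 2 - 1 / (t i * t (i + k))) * (t (i + k) - t i) := by
  have h1 := h.next i
  have h2 := h.next (i + k)
  have e1 := h.ne i
  have e2 := h.ne (i + k)
  rw [show i + 1 + k = i + k + 1 by ring, h1, h2]
  field_simp
  ring

theorem next_mul (h : IsTCycle b t n) (i : ℕ) : t (i + 1) * t i = (b * t i + 1) ^ 2 := by
  rw [h.next]
  have := h.ne i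
  field_simp

end IsTCycle

end Pool.Agent.H97
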