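import Pool.Agent.H97.ManesHeight
import Pool.Agent.H97.FactoredCount

/-!
# Counting the parameters `b` with a rational cycle of period other than 1, 2
-/

set_option autoImplicit false

namespace Pool.Agent.H97

/-- pairs (numerator, denominator) which can be exceptional -/
noncomputable def excPairs (H : ℕ) : Finset (ℤ × ℕ) :=
  ((Finset.Icc (-(H : ℤ)) H).erase 0).biUnion (fun N =>
    (fac N.natAbs (N.natAbs ^ 4) ×ˢ fac N.natAbs (N.natAbs ^ 4)).biUnion (fun rs =>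
      (((rs.2 : ℤ) ^ 2 - (rs.1 : ℤ) ^ 2).natAbs.divisors).image (fun D => (N, D))))

theorem IsTCycle.mem_excPairs {b : ℚ} {t : ℕ → ℚ} {n : ℕ} (h : IsTCycle b t n) (hb0 : b ≠ 0)
    (hne : t 1 ≠ t 0) {H : ℕ} (hH : b.num.natAbs ≤ H) : (b.num, b.den) ∈ excPairs H := by
  obtain ⟨i, hi⟩ := h.exists_small hb0
  set q := (b * t i + 1) / t i with hq
  have hn0 : b.num ≠ 0 := Rat.num_ne_zero.2 hb0
  have hr0 : q.num.natAbs ≠ 0 := Int.natAbs_ne_zero.2 (Rat.num_ne_zero.2 (h.q_ne i))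
  have hs0 := q.den_nz
  have hmem : ∀ m : ℕ, m ≠ 0 → m ∣ sz q → m ∈ fac b.num.natAbs (b.num.natAbs ^ 4) := by
    intro m hm0 hmd
    refine Finset.mem_filter.2 ⟨Finset.mem_Icc.2 ⟨Nat.pos_of_ne_zero hm0, ?_⟩, ?_⟩
    · exact (Nat.le_of_dvd (Nat.pos_of_ne_zero (sz_ne_zero (h.q_ne i))) hmd).trans hi
    · rw [Nat.mem_factoredNumbers_iff_primeFactors_subset]
      refine ⟨hm0, ?_⟩
      intro p hp
      have hpp := Nat.prime_of_mem_primeFactors hp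
      have hpd := Nat.dvd_of_mem_primeFactors hp
      exact Nat.mem_primeFactors.2 ⟨hpp, h.prime_dvd_sz hpp i (hpd.trans hmd),
        Int.natAbs_ne_zero.2 hn0⟩
  have hz : (q.den : ℤ) ^ 2 - ((q.num.natAbs : ℕ) : ℤ) ^ 2 = (q.den : ℤ) ^ 2 - q.num ^ 2 := by
    rw [Int.natCast_natAbs, sq_abs]
  have hz0 : (q.den : ℤ) ^ 2 - q.num ^ 2 ≠ 0 := fun h0 => hne (h.fixed_of_ratio i h0)
  refine Finset.mem_biUnion.2 ⟨b.num, ?_, ?_⟩
  · rw [Finset.mem_erase, Finset.mem_Icc]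
    refine ⟨hn0, ?_⟩
    omega
  · refine Finset.mem_biUnion.2 ⟨(q.num.natAbs, q.den), ?_, ?_⟩
    · exact Finset.mem_product.2 ⟨hmem _ hr0 (Dvd.intro _ rfl), hmem _ hs0 (Dvd.intro_left _ rfl)⟩
    · refine Finset.mem_image.2 ⟨b.den, ?_, rfl⟩
      rw [Nat.mem_divisors]
      simp only
      rw [hz]
      exact ⟨Int.natCast_dvd.1 (h.den_dvd i), Int.natAbs_ne_zero.2 hz0⟩

theorem card_excPairs_le {ε : ℝ} (hε : 0 < ε) : ∃ C : ℝ, 0 ≤ C ∧ ∀ H : ℕ, 1 ≤ H →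
    ((excPairs H).card : ℝ) ≤ C * (H : ℝ) ^ (1 + ε) := by
  set δ := ε / 26 with hδ
  have hδ0 : 0 < δ := by positivity
  obtain ⟨C, hC1, hC⟩ := card_fac_le hδ0
  refine ⟨2 * C ^ 3, by positivity, ?_⟩
  intro H hH
  have hHR : (1 : ℝ) ≤ (H : ℝ) := by exact_mod_cast hH
  have hH0 : (0 : ℝ) < (H : ℝ) := by linarith
  -- bound for one numerator
  have hfac : ∀ N ∈ (Finset.Icc (-(H : ℤ)) H).erase 0,
      ((fac N.natAbs (N.natAbs ^ 4)).card : ℝ) ≤ C * (H : ℝ) ^ (5 * δ) := by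
    intro N hN
    rw [Finset.mem_erase, Finset.mem_Icc] at hN
    have h1 : 1 ≤ N.natAbs := by omega
    have h2 : N.natAbs ≤ H := by omega
    have h1R : (1 : ℝ) ≤ (N.natAbs : ℝ) := by exact_mod_cast h1
    have h2R : (N.natAbs : ℝ) ≤ (H : ℝ) := by exact_mod_cast h2
    refine (hC N.natAbs (N.natAbs ^ 4) h1 (Nat.one_le_pow _ _ h1)).trans ?_
    apply mul_le_mul_of_nonneg_left _ (by linarith)
    have e1 : (N.natAbs : ℝ) ^ δ ≤ (H : ℝ) ^ δ :=
      Real.rpow_le_rpow (by linarith) h2R hδ0.le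
    have e2 : ((N.natAbs ^ 4 : ℕ) : ℝ) ^ δ ≤ (H : ℝ) ^ (4 * δ) := by
      have : ((N.natAbs ^ 4 : ℕ) : ℝ) ≤ (H : ℝ) ^ (4 : ℕ) := by
        push_cast
        exact pow_le_pow_left₀ (by linarith) h2R 4
      refine (Real.rpow_le_rpow (by positivity) this hδ0.le).trans ?_
      rw [← Real.rpow_natCast, ← Real.rpow_mul hH0.le]
      norm_num
    calc (N.natAbs : ℝ) ^ δ * ((N.natAbs ^ 4 : ℕ) : ℝ) ^ δ ≤ (H : ℝ) ^ δ * (H : ℝ) ^ (4 * δ) :=
          mul_le_mul e1 e2 (by positivity) (by positivity)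
      _ = (H : ℝ) ^ (5 * δ) := by rw [← Real.rpow_add hH0]; ring_nf
  have hdiv : ∀ N ∈ (Finset.Icc (-(H : ℤ)) H).erase 0,
      ∀ rs ∈ fac N.natAbs (N.natAbs ^ 4) ×ˢ fac N.natAbs (N.natAbs ^ 4),
      ((((rs.2 : ℤ) ^ 2 - (rs.1 : ℤ) ^ 2).natAbs.divisors).card : ℝ) ≤ C * (H : ℝ) ^ (16 * δ) := by
    intro N hN rs hrs
    rw [Finset.mem_erase, Finset.mem_Icc] at hN
    have h1 : 1 ≤ N.natAbs := by omega
    have h2 : N.natAbs ≤ H := by omega
    rw [Finset.mem_product] at hrs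
    have hr := (Finset.mem_Icc.1 (Finset.mem_filter.1 hrs.1).1)
    have hs := (Finset.mem_Icc.1 (Finset.mem_filter.1 hrs.2).1)
    set m := ((rs.2 : ℤ) ^ 2 - (rs.1 : ℤ) ^ 2).natAbs with hm
    rcases Nat.eq_zero_or_pos m with h0 | h0
    · rw [h0]
      simp only [Nat.divisors_zero, Finset.card_empty, Nat.cast_zero]
      positivity
    · have hle : m ≤ H ^ 8 := by
        have a1 : rs.1 ≤ H ^ 4 := hr.2.trans (Nat.pow_le_pow_left h2 4)
        have a2 : rs.2 ≤ H ^ 4 := hs.2.trans (Nat.pow_le_pow_left h2 4)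
        have a3 : rs.1 ^ 2 ≤ H ^ 8 := by
          calc rs.1 ^ 2 ≤ (H ^ 4) ^ 2 := Nat.pow_le_pow_left a1 2
            _ = H ^ 8 := by ring
        have a4 : rs.2 ^ 2 ≤ H ^ 8 := by
          calc rs.2 ^ 2 ≤ (H ^ 4) ^ 2 := Nat.pow_le_pow_left a2 2
            _ = H ^ 8 := by ring
        rw [hm]
        zify
        rw [abs_le]
        have b3 : (rs.1 : ℤ) ^ 2 ≤ (H : ℤ) ^ 8 := by exact_mod_cast a3
        have b4 : (rs.2 : ℤ) ^ 2 ≤ (H : ℤ) ^ 8 := by exact_mod_cast a4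
        constructor <;> nlinarith [sq_nonneg (rs.1 : ℤ), sq_nonneg (rs.2 : ℤ)]
      have hcard : (m.divisors.card : ℝ) ≤ ((fac m m).card : ℝ) := by
        exact_mod_cast Finset.card_le_card (divisors_subset_fac m)
      refine hcard.trans ((hC m m h0 h0).trans ?_)
      apply mul_le_mul_of_nonneg_left _ (by linarith)
      have e2 : (m : ℝ) ^ δ ≤ (H : ℝ) ^ (8 * δ) := by
        have : (m : ℝ) ≤ (H : ℝ) ^ (8 : ℕ) := by exact_mod_cast hle
        refine (Real.rpow_le_rpow (by positivity) this hδ0.le).trans ?_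
        rw [← Real.rpow_natCast, ← Real.rpow_mul hH0.le]
        norm_num
      calc (m : ℝ) ^ δ * (m : ℝ) ^ δ ≤ (H : ℝ) ^ (8 * δ) * (H : ℝ) ^ (8 * δ) :=
            mul_le_mul e2 e2 (by positivity) (by positivity)
        _ = (H : ℝ) ^ (16 * δ) := by rw [← Real.rpow_add hH0]; ring_nf
  have hone : ∀ N ∈ (Finset.Icc (-(H : ℤ)) H).erase 0,
      ((((fac N.natAbs (N.natAbs ^ 4) ×ˢ fac N.natAbs (N.natAbs ^ 4)).biUnion (fun rs =>
      (((rs.2 : ℤ) ^ 2 - (rs.1 : ℤ) ^ 2).natAbs.divisors).image (fun D => (N, D)))).card : ℕ) : ℝ)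
      ≤ C ^ 3 * (H : ℝ) ^ ε := by
    intro N hN
    have h1 : ((((fac N.natAbs (N.natAbs ^ 4) ×ˢ fac N.natAbs (N.natAbs ^ 4)).biUnion (fun rs =>
      (((rs.2 : ℤ) ^ 2 - (rs.1 : ℤ) ^ 2).natAbs.divisors).image (fun D => (N, D)))).card : ℕ) : ℝ)
      ≤ ∑ rs ∈ fac N.natAbs (N.natAbs ^ 4) ×ˢ fac N.natAbs (N.natAbs ^ 4),
        C * (H : ℝ) ^ (16 * δ) := by
      refine (Nat.cast_le.2 Finset.card_biUnion_le).trans ?_
      rw [Nat.cast_sum]
      apply Finset.sum_le_sum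
      intro rs hrs
      refine le_trans ?_ (hdiv N hN rs hrs)
      exact_mod_cast Finset.card_image_le
    refine h1.trans ?_
    rw [Finset.sum_const, Finset.card_product, nsmul_eq_mul, Nat.cast_mul]
    have h2 := hfac N hN
    calc ((fac N.natAbs (N.natAbs ^ 4)).card : ℝ) * ((fac N.natAbs (N.natAbs ^ 4)).card : ℝ) *
          (C * (H : ℝ) ^ (16 * δ))
        ≤ (C * (H : ℝ) ^ (5 * δ)) * (C * (H : ℝ) ^ (5 * δ)) * (C * (H : ℝ) ^ (16 * δ)) := by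
          apply mul_le_mul_of_nonneg_right _ (by positivity)
          exact mul_le_mul h2 h2 (Nat.cast_nonneg _) (by positivity)
      _ = C ^ 3 * ((H : ℝ) ^ (5 * δ) * (H : ℝ) ^ (5 * δ) * (H : ℝ) ^ (16 * δ)) := by ring
      _ = C ^ 3 * (H : ℝ) ^ ε := by
          rw [← Real.rpow_add hH0, ← Real.rpow_add hH0]
          congr 2
          rw [hδ]; ring
  have htot : ((excPairs H).card : ℝ) ≤
      ∑ N ∈ (Finset.Icc (-(H : ℤ)) H).erase 0, C ^ 3 * (H : ℝ) ^ ε := by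
    refine (Nat.cast_le.2 Finset.card_biUnion_le).trans ?_
    rw [Nat.cast_sum]
    exact Finset.sum_le_sum hone
  refine htot.trans ?_
  rw [Finset.sum_const, nsmul_eq_mul]
  have hcard : ((Finset.Icc (-(H : ℤ)) H).erase 0).card = 2 * H := by
    rw [Finset.card_erase_of_mem (by simp), Int.card_Icc]
    omega
  rw [hcard, Real.rpow_add hH0, Real.rpow_one]
  push_cast
  apply le_of_eq
  ring

end Pool.Agent.H97
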