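import Pool.Agent.H97.ManesBasic
import Pool.Agent.H97.Descent44

/-!
# No rational solution of `f⁴(x) = -x`
-/

set_option autoImplicit false

namespace Pool.Agent.H97

namespace IsCycle

variable {b c : ℚ} {x : ℕ → ℚ} {n : ℕ}

theorem not_neg_four (h : IsCycle b c x n) (hb0 : b ≠ 0) (h4 : x 4 = -x 0) : False := by
  have hx0 := h.ne 0
  have hx1 := h.ne 1
  have h5 : x 5 = -x 1 := h.next_eq_of_neg h4
  have e1 : x 0 * x 1 = b * x 0 ^ 2 + c := by
    have := h.next 0
    rw [zero_add] at this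
    rw [this]; field_simp
  have e2 : x 1 * x 2 = b * x 1 ^ 2 + c := by
    have : x 2 = b * x 1 + c / x 1 := h.next 1
    rw [this]; field_simp
  have e3 : x 2 * x 3 = b * x 2 ^ 2 + c := by
    have : x 3 = b * x 2 + c / x 2 := h.next 2
    have h2 := h.ne 2
    rw [this]; field_simp
  have e4 : x 3 * -x 0 = b * x 3 ^ 2 + c := by
    have : x 4 = b * x 3 + c / x 3 := h.next 3
    have h2 := h.ne 3
    rw [← h4, this]; field_simp
  set r := x 2 / x 0 with hr
  set s := x 3 / x 1 with hs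
  have hx2 : x 2 = r * x 0 := by rw [hr]; field_simp
  have hx3 : x 3 = s * x 1 := by rw [hs]; field_simp
  have hA : 1 - r ^ 2 ≠ 0 := by
    intro hA
    have h1 : (x 2 - x 0) * (x 2 + x 0) = 0 := by
      rw [hx2]; linear_combination -x 0 ^ 2 * hA
    have h24 : x 2 = x 0 → x 4 = x 2 := fun hh => h.next_eq_of_eq (h.next_eq_of_eq (i := 2) (j := 0) hh)
    have h24' : x 2 = -x 0 → x 4 = -x 2 := fun hh =>
      h.next_eq_of_neg (h.next_eq_of_neg (i := 2) (j := 0) hh)
    rcases mul_eq_zero.1 h1 with h2 | h2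
    · have h3 : x 2 = x 0 := by linarith
      have h4' := h24 h3
      rw [h4, h3] at h4'
      exact hx0 (by linarith)
    · have h3 : x 2 = -x 0 := by linarith
      have h4' := h24' h3
      rw [h4, h3] at h4'
      exact hx0 (by linarith)
  have hB : 1 - s ^ 2 ≠ 0 := by
    intro hB
    have h1 : (x 3 - x 1) * (x 3 + x 1) = 0 := by
      rw [hx3]; linear_combination -x 1 ^ 2 * hB
    have h24 : x 3 = x 1 → x 5 = x 3 := fun hh => h.next_eq_of_eq (h.next_eq_of_eq (i := 3) (j := 1) hh)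
    have h24' : x 3 = -x 1 → x 5 = -x 3 := fun hh =>
      h.next_eq_of_neg (h.next_eq_of_neg (i := 3) (j := 1) hh)
    rcases mul_eq_zero.1 h1 with h2 | h2
    · have h3 : x 3 = x 1 := by linarith
      have h4' := h24 h3
      rw [h5, h3] at h4'
      exact hx1 (by linarith)
    · have h3 : x 3 = -x 1 := by linarith
      have h4' := h24' h3
      rw [h5, h3] at h4'
      exact hx1 (by linarith)
  rw [hx2] at e2
  rw [hx2, hx3] at e3
  rw [hx3] at e4
  have hP : x 0 * x 1 ≠ 0 := mul_ne_zero hx0 hx1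
  -- the three linear relations
  have fa : (1 - r * s) * (x 0 * x 1) = b * x 0 ^ 2 * (1 - r ^ 2) := by
    linear_combination e1 - e3
  have fb : (r + s) * (x 0 * x 1) = b * x 1 ^ 2 * (1 - s ^ 2) := by
    linear_combination e2 - e4
  have fc : (1 - r) * (x 0 * x 1) = b * (x 0 ^ 2 - x 1 ^ 2) := by
    linear_combination e1 - e2
  have hK : (1 - r) * (1 - r ^ 2) * (1 - s ^ 2) - (1 - r * s) * (1 - s ^ 2) + (r + s) * (1 - r ^ 2)
      = 0 := by
    have : ((1 - r) * (1 - r ^ 2) * (1 - s ^ 2) - (1 - r * s) * (1 - s ^ 2) +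
        (r + s) * (1 - r ^ 2)) * (x 0 * x 1) = 0 := by
      linear_combination (1 - r ^ 2) * (1 - s ^ 2) * fc - (1 - s ^ 2) * fa + (1 - r ^ 2) * fb
    exact (mul_eq_zero.1 this).resolve_right hP
  have hS : b ^ 2 * ((1 - r ^ 2) * (1 - s ^ 2)) = (1 - r * s) * (r + s) := by
    have : (b ^ 2 * ((1 - r ^ 2) * (1 - s ^ 2)) - (1 - r * s) * (r + s)) * (x 0 * x 1) ^ 2 = 0 := by
      linear_combination -(r + s) * (x 0 * x 1) * fa - b * x 0 ^ 2 * (1 - r ^ 2) * fb
    have h1 := (mul_eq_zero.1 this).resolve_right (pow_ne_zero 2 hP)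
    linarith
  have hcurve := curve44_rat (4 * r * s + (1 - r ^ 2) * (1 - s ^ 2) + 4 * ((1 - r * s) * (r + s)))
    (-(4 * r * s)) (-((1 - r ^ 2) * (1 - s ^ 2))) (by
      linear_combination -64 * (- r^3*s - r^2*s^3 + r^2*s^2 + r^2*s - r*s^2 + r*s + r - s^2) * hK)
  have hS0 : ((1 - r * s) * (r + s)) ^ 3 = 0 := by
    linear_combination (1/4) * hcurve -
      (- r^3*s - r^2*s^3 + r^2*s^2 + r^2*s - r*s^2 + r*s + r - s^2) * hK
  have hS1 : (1 - r * s) * (r + s) = 0 := by
    simpa using hS0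
  rw [hS1] at hS
  exact (mul_ne_zero (pow_ne_zero 2 hb0) (mul_ne_zero hA hB)) hS

end IsCycle

end Pool.Agent.H97
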