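import Pool.Agent.H97.ManesLocal

/-!
# Good reduction at `5`
-/

set_option autoImplicit false

namespace Pool.Agent.H97

namespace IsTCycle

variable {b : ℚ} {t : ℕ → ℚ} {n : ℕ}

/-- sub-cycles under iteration -/
theorem per_mul (h : IsTCycle b t n) (m i : ℕ) : t (m * (i + n)) = t (m * i) := by
  rw [mul_add]
  exact periodic_mul h.per _ _

theorem five_large (h : IsTCycle b t n) (hb : padicNorm 5 b = 1) {τ : ℚ} (hτ : 1 < τ)
    (ht : ∀ i, padicNorm 5 (t i) = τ) : t 4 = t 0 := by
  have : Fact (Nat.Prime 5) := ⟨Nat.prime_five⟩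
  obtain ⟨r, hr0, hr, h1⟩ := exists_residue' (p := 5) hb
  have hb2 : padicNorm 5 (b ^ 2 - (r * r : ℚ)) ≤ 1 / (5 : ℕ) := by
    have := mul_congr (p := 5) (by positivity) h1 h1 (padicNorm.of_nat r) hb.le
    rwa [← pow_two] at this
  have hbn : padicNorm 5 (b ^ 2) ≤ 1 := by rw [norm_pow, hb, one_pow]
  have hKc : ∀ i j k l, padicNorm 5 ((b ^ 2 - 1 / (t i * t (i + k))) -
      (b ^ 2 - 1 / (t j * t (j + l)))) ≤ 1 / ((5 : ℕ) : ℚ) ^ 2 := by
    intro i j k l
    refine norm_tri (h.large_K hτ ht i k) ?_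
    rw [norm_sub_comm]
    exact h.large_K hτ ht j l
  have hsm : (1 : ℚ) / ((5 : ℕ) : ℚ) ^ 2 ≤ 1 / (5 : ℕ) := by norm_num
  -- K² sequence
  set K : ℕ → ℕ → ℚ := fun i k => b ^ 2 - 1 / (t i * t (i + k)) with hK
  have hKb : ∀ i k, padicNorm 5 (K i k - b ^ 2) ≤ 1 / ((5 : ℕ) : ℚ) ^ 2 :=
    fun i k => h.large_K hτ ht i k
  have hKn : ∀ i k, padicNorm 5 (K i k) ≤ 1 := fun i k =>
    norm_le_one_of_congr (by norm_num) (hKb i k) hbn
  have hb4 : padicNorm 5 (b ^ 2 * b ^ 2 - 1) ≤ 1 / (5 : ℕ) := by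
    have e : b ^ 2 * b ^ 2 - 1 = (b ^ 2 * b ^ 2 - (r * r : ℚ) * (r * r)) +
        (((r * r) * (r * r) - 1 : ℤ) : ℚ) := by push_cast; ring
    rw [e]
    apply norm_add_le
    · refine mul_congr (by positivity) hb2 hb2 ?_ hbn
      have := padicNorm.of_nat (p := 5) (r * r)
      push_cast at this
      exact this
    · apply norm_int_le
      interval_cases r <;> norm_num
  have key : t (2 * 1) = t (2 * 0) := by
    refine no_cycle (p := 5) (fun i => t (2 * i)) n h.pos (fun i => h.per_mul 2 i)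
      (fun i k => K (2 * i + 1) (2 * k) * K (2 * i) (2 * k)) ?_ ?_ (Or.inr ⟨by norm_num, ?_⟩)
    · intro i k
      have e1 := h.diff (2 * i) (2 * k)
      have e2 := h.diff (2 * i + 1) (2 * k)
      simp only [hK]
      rw [show 2 * (i + 1 + k) = 2 * i + 1 + 1 + 2 * k by ring, show 2 * (i + 1) = 2 * i + 1 + 1 by ring,
        show 2 * (i + k) = 2 * i + 2 * k by ring, e2, e1]
      ring
    · intro i k
      refine norm_tri ?_ hb4
      refine mul_congr (by positivity) ((hKb _ _).trans hsm) ((hKb _ _).trans hsm) hbn (hKn _ _)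
    · intro i j k
      exact mul_congr (by positivity) (hKc _ _ _ _) (hKc _ _ _ _) (hKn _ _) (hKn _ _)
  have e2 : t 2 = t 0 := by simpa using key
  have e3 : t 3 = t 1 := by
    have a := h.next 2
    have b' := h.next 0
    rw [show 2 + 1 = 3 by norm_num] at a
    rw [show 0 + 1 = 1 by norm_num] at b'
    rw [a, b', e2]
  have a := h.next 3
  have b' := h.next 1
  rw [show 3 + 1 = 4 by norm_num] at a
  rw [show 1 + 1 = 2 by norm_num] at b'
  rw [a, e3, ← b', e2]

theorem four_of_five_unit (h : IsTCycle b t n) (hb : padicNorm 5 b = 1) : t 4 = t 0 := by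
  have : Fact (Nat.Prime 5) := ⟨Nat.prime_five⟩
  rcases h.unit_dichotomy hb with hall | ⟨τ, hτ, ht⟩
  swap
  · exact h.five_large hb hτ ht
  have hb0 : b ≠ 0 := by
    rintro rfl
    rw [padicNorm.zero] at hb
    norm_num at hb
  have hu1 : ∀ i, padicNorm 5 (b * t i) = 1 := fun i => by
    rw [padicNorm.mul, hb, hall i, one_mul]
  -- the residue of b²
  obtain ⟨rb, hrb0, hrb, hb1⟩ := exists_residue' (p := 5) hb
  have hbn : padicNorm 5 (b ^ 2) ≤ 1 := by rw [norm_pow, hb, one_pow]
  obtain ⟨ε, hε, hb2⟩ : ∃ ε : ℤ, (ε = 1 ∨ ε = -1) ∧ padicNorm 5 (b ^ 2 - ε) ≤ 1 / (5 : ℕ) := by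
    have hb2 : padicNorm 5 (b ^ 2 - (rb * rb : ℚ)) ≤ 1 / (5 : ℕ) := by
      have := mul_congr (p := 5) (by positivity) hb1 hb1 (padicNorm.of_nat rb) hb.le
      rwa [← pow_two] at this
    have : ∃ ε : ℤ, (ε = 1 ∨ ε = -1) ∧ (5 : ℤ) ∣ rb * rb - ε := by
      interval_cases rb
      · exact ⟨1, Or.inl rfl, by norm_num⟩
      · exact ⟨-1, Or.inr rfl, by norm_num⟩
      · exact ⟨-1, Or.inr rfl, by norm_num⟩
      · exact ⟨1, Or.inl rfl, by norm_num⟩
    obtain ⟨ε, h1, h2⟩ := this
    refine ⟨ε, h1, norm_tri hb2 ?_⟩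
    have := norm_int_le (p := 5) h2
    push_cast at this ⊢
    exact this
  -- residues of u i = b t i
  have hres : ∀ i, ∃ r : ℕ, 0 < r ∧ r < 5 ∧ padicNorm 5 (b * t i - r) ≤ 1 / (5 : ℕ) :=
    fun i => exists_residue' (p := 5) (hu1 i)
  choose r hr0 hr5 hr using hres
  have hrel : ∀ i, (5 : ℤ) ∣ r (i + 1) * r i - ε * (r i + 1) ^ 2 := by
    intro i
    apply int_dvd_of_norm (p := 5)
    have e1 : (b * t (i + 1)) * (b * t i) = b ^ 2 * ((b * t i + 1) * (b * t i + 1)) := by
      have := h.next_mul i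
      linear_combination b ^ 2 * this
    have c1 : padicNorm 5 ((b * t (i + 1)) * (b * t i) - (r (i + 1) : ℚ) * (r i)) ≤ 1 / (5 : ℕ) :=
      mul_congr (by positivity) (hr (i + 1)) (hr i) (padicNorm.of_nat _) (hu1 i).le
    have c2 : padicNorm 5 ((b * t i + 1) - ((r i : ℚ) + 1)) ≤ 1 / (5 : ℕ) := by
      have : (b * t i + 1) - ((r i : ℚ) + 1) = b * t i - r i := by ring
      rw [this]; exact hr i
    have n1 : padicNorm 5 ((r i : ℚ) + 1) ≤ 1 := by
      have := padicNorm.of_nat (p := 5) (r i + 1)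
      push_cast at this
      exact this
    have n2 : padicNorm 5 (b * t i + 1) ≤ 1 := norm_le_one_of_congr (by norm_num) c2 n1
    have c3 : padicNorm 5 ((b * t i + 1) * (b * t i + 1) - ((r i : ℚ) + 1) * ((r i : ℚ) + 1)) ≤
        1 / (5 : ℕ) := mul_congr (by positivity) c2 c2 n1 n2
    have n3 : padicNorm 5 ((b * t i + 1) * (b * t i + 1)) ≤ 1 := by
      calc _ ≤ 1 * (1 : ℚ) := norm_mul_le n2 n2
        _ = 1 := by norm_num
    have c4 : padicNorm 5 (b ^ 2 * ((b * t i + 1) * (b * t i + 1)) -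
        (ε : ℚ) * (((r i : ℚ) + 1) * ((r i : ℚ) + 1))) ≤ 1 / (5 : ℕ) :=
      mul_congr (by positivity) hb2 c3 (padicNorm.of_int ε) n3
    have e2 : ((r (i + 1) * r i - ε * (r i + 1) ^ 2 : ℤ) : ℚ) =
        ((r (i + 1) : ℚ) * (r i)) - (ε : ℚ) * (((r i : ℚ) + 1) * ((r i : ℚ) + 1)) := by
      push_cast; ring
    rw [e2]
    refine norm_tri ?_ c4
    rw [norm_sub_comm, ← e1]
    exact c1
  -- general formula for K
  have hKform : ∀ i k, b ^ 2 - 1 / (t i * t (i + k)) =
      b ^ 2 * ((b * t i) * (b * t (i + k)) - 1) / ((b * t i) * (b * t (i + k))) := by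
    intro i k
    have h1 := h.ne i
    have h2 := h.ne (i + k)
    field_simp
  -- a constant residue
  have hconst : (∀ i, r i = 1 ∧ ε = -1) ∨ (∀ i, r i = 2 ∧ ε = 1) ∨ (∀ i, r i = 3 ∧ ε = -1) := by
    -- propagate
    have hdet : ∀ i, (r i = 1 → ε = -1 ∧ r (i + 1) = 1) ∧ (r i = 2 → (ε = 1 → r (i + 1) = 2) ∧
        (ε = -1 → r (i + 1) = 3)) ∧ (r i = 3 → (ε = 1 → r (i + 1) = 2) ∧
        (ε = -1 → r (i + 1) = 3)) ∧ r i ≠ 4 := by
      intro i
      have h1 := hrel i
      have h2 := hrel (i + 1)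
      have a1 := hr0 i
      have a2 := hr5 i
      have a3 := hr0 (i + 1)
      have a4 := hr5 (i + 1)
      have a5 := hr0 (i + 1 + 1)
      have a6 := hr5 (i + 1 + 1)
      generalize r i = u at *
      generalize r (i + 1) = v at *
      generalize r (i + 1 + 1) = w at *
      rcases hε with rfl | rfl <;> interval_cases u <;> interval_cases v <;> interval_cases w <;>
        simp_all
    -- residues depend only on the value t i, hence periodic
    have hrper : ∀ i j, t i = t j → r i = r j := by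
      intro i j hij
      have h1 : (5 : ℤ) ∣ r i - r j := by
        apply int_dvd_of_norm (p := 5)
        push_cast
        have c := hr j
        rw [← hij] at c
        refine norm_tri ?_ c
        rw [norm_sub_comm]
        exact hr i
      have a1 := hr0 i
      have a2 := hr5 i
      have a3 := hr0 j
      have a4 := hr5 j
      omega
    have hspread : ∀ i0 v, (∀ i, r i = v → r (i + 1) = v) → r i0 = v → ∀ i, r i = v := by
      intro i0 v hst h0
      have h1 : ∀ j, r (i0 + j) = v := by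
        intro j
        induction j with
        | zero => exact h0
        | succ j ih => rw [← add_assoc]; exact hst _ ih
      intro i
      have e2 : t i = t (i + i0 * n) := (periodic_mul h.per _ _).symm
      have e3 : i0 ≤ i + i0 * n := by
        have := h.pos
        nlinarith
      obtain ⟨j, hj⟩ := Nat.exists_eq_add_of_le e3
      rw [hrper _ _ e2, hj]
      exact h1 j
    have hcase : r 0 = 1 ∨ r 0 = 2 ∨ r 0 = 3 := by
      have a1 := hr0 0
      have a2 := hr5 0
      have a3 := (hdet 0).2.2.2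
      omega
    rcases hε with hε | hε
    · -- ε = 1 : residue 2 everywhere
      have h2 : r 1 = 2 := by
        rcases hcase with h | h | h
        · have := ((hdet 0).1 h).1
          omega
        · exact ((hdet 0).2.1 h).1 hε
        · exact ((hdet 0).2.2.1 h).1 hε
      right; left
      intro i
      refine ⟨hspread 1 2 (fun i hi => ((hdet i).2.1 hi).1 hε) h2 i, hε⟩
    · rcases hcase with h | h | h
      · left
        intro i
        exact ⟨hspread 0 1 (fun i hi => ((hdet i).1 hi).2) h i, hε⟩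
      · right; right
        have h2 : r 1 = 3 := ((hdet 0).2.1 h).2 hε
        intro i
        exact ⟨hspread 1 3 (fun i hi => ((hdet i).2.2.1 hi).2 hε) h2 i, hε⟩
      · right; right
        intro i
        exact ⟨hspread 0 3 (fun i hi => ((hdet i).2.2.1 hi).2 hε) h i, hε⟩
  -- products u u' modulo 5 from the constant residue
  have hprod : ∀ v : ℕ, (∀ i, r i = v) → ∀ i j, padicNorm 5 ((b * t i) * (b * t j) - (v * v : ℚ)) ≤
      1 / (5 : ℕ) := by
    intro v hv i j
    have h1 := hr i
    have h2 := hr j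
    rw [hv] at h1 h2
    exact mul_congr (by positivity) h1 h2 (padicNorm.of_nat _) (hu1 j).le
  have finish1 : t 1 = t 0 → t 4 = t 0 := by
    intro h1
    have h2 : ∀ i, t i = t 0 := by
      intro i
      induction i with
      | zero => rfl
      | succ i ih =>
        have a := h.next i
        have c := h.next 0
        rw [ih] at a
        rw [a, ← c]
        exact h1
    exact h2 4
  rcases hconst with hc | hc | hc
  · -- contraction
    apply finish1
    refine contract (p := 5) t n h.pos h.per _ (fun i => h.diff i 1) ?_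
    intro i
    rw [hKform, padicNorm.div, padicNorm.mul, padicNorm.mul (b * t i), hu1, hu1, norm_pow, hb,
      one_pow, one_mul, one_mul, div_one]
    have := hprod 1 (fun i => (hc i).1) i (i + 1)
    simp only [Nat.cast_one, one_mul] at this
    exact lt_of_le_of_lt this inv_le_one
  all_goals
    -- K is congruent to κ = 2 or 3, of order 4
    obtain ⟨κ, hκ4, hκs, hKκ⟩ : ∃ κ : ℤ, (5 : ℤ) ∣ κ * κ * (κ * κ) - 1 ∧
        (5 : ℤ) ∣ 1 + κ + κ * κ + κ * κ * κ ∧
        ∀ i k, padicNorm 5 ((b ^ 2 - 1 / (t i * t (i + k))) - κ) ≤ 1 / (5 : ℕ) := by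
      have hunit : ∀ i k, padicNorm 5 ((b * t i) * (b * t (i + k))) = 1 := fun i k => by
        rw [padicNorm.mul, hu1, hu1, one_mul]
      have hdiv : ∀ κ v : ℤ, (∀ i, (r i : ℤ) = v) → (5 : ℤ) ∣ ε * (v * v - 1) - κ * (v * v) →
          ∀ i k, padicNorm 5 ((b ^ 2 - 1 / (t i * t (i + k))) - κ) ≤ 1 / (5 : ℕ) := by
        intro κ v hv hd i k
        set w := (b * t i) * (b * t (i + k)) with hw
        have hw1 : padicNorm 5 w = 1 := hunit i k
        have hw0 : w ≠ 0 := by
          intro h0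
          rw [h0, padicNorm.zero] at hw1
          norm_num at hw1
        have e : (b ^ 2 - 1 / (t i * t (i + k))) - κ = (b ^ 2 * (w - 1) - κ * w) / w := by
          rw [hKform, ← hw]
          field_simp
        rw [e, padicNorm.div, hw1, div_one]
        have c1 : padicNorm 5 (w - ((v * v : ℤ) : ℚ)) ≤ 1 / (5 : ℕ) := by
          have := hprod (r 0) (fun i => by
            have a := hv i
            have c := hv 0
            omega) i (i + k)
          have hv0 : ((r 0 : ℕ) : ℚ) = (v : ℚ) := by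
            have := hv 0
            exact_mod_cast this
          rw [hv0] at this
          push_cast
          exact this
        have c2 : padicNorm 5 ((w - 1) - (((v * v - 1 : ℤ)) : ℚ)) ≤ 1 / (5 : ℕ) := by
          have : (w - 1) - (((v * v - 1 : ℤ)) : ℚ) = w - ((v * v : ℤ) : ℚ) := by push_cast; ring
          rw [this]; exact c1
        have n1 : padicNorm 5 (w - 1) ≤ 1 :=
          norm_le_one_of_congr (by norm_num) c2 (padicNorm.of_int _)
        have c3 : padicNorm 5 (b ^ 2 * (w - 1) - (ε : ℚ) * ((v * v - 1 : ℤ) : ℚ)) ≤ 1 / (5 : ℕ) :=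
          mul_congr (by positivity) hb2 c2 (padicNorm.of_int _) n1
        have c4 : padicNorm 5 ((κ : ℚ) * w - (κ : ℚ) * ((v * v : ℤ) : ℚ)) ≤ 1 / (5 : ℕ) :=
          mul_congr (by positivity) (by simp) c1 (padicNorm.of_int _) hw1.le
        have e2 : b ^ 2 * (w - 1) - κ * w = (b ^ 2 * (w - 1) - (ε : ℚ) * ((v * v - 1 : ℤ) : ℚ)) -
            ((κ : ℚ) * w - (κ : ℚ) * ((v * v : ℤ) : ℚ)) +
            ((ε * (v * v - 1) - κ * (v * v) : ℤ) : ℚ) := by push_cast; ring
        rw [e2]
        exact norm_add_le (norm_sub_le c3 c4) (norm_int_le hd)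
      first
      | exact ⟨2, by norm_num, by norm_num, hdiv 2 2 (fun i => by exact_mod_cast (hc i).1)
          (by rw [(hc 0).2]; norm_num)⟩
      | exact ⟨3, by norm_num, by norm_num, hdiv 3 3 (fun i => by exact_mod_cast (hc i).1)
          (by rw [(hc 0).2]; norm_num)⟩
    have hinv5 : (1 : ℚ) / (5 : ℕ) ≤ 1 := by norm_num
    have hsm : (1 : ℚ) / ((5 : ℕ) : ℚ) ^ 2 ≤ 1 / (5 : ℕ) := by norm_num
    set K : ℕ → ℕ → ℚ := fun i k => b ^ 2 - 1 / (t i * t (i + k)) with hK
    have hKn : ∀ i k, padicNorm 5 (K i k) ≤ 1 := fun i k =>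
      norm_le_one_of_congr hinv5 (hKκ i k) (padicNorm.of_int _)
    -- t (i+1) ≡ t i mod 5
    have hd1 : ∀ i, padicNorm 5 (t (i + 1) - t i) ≤ 1 / (5 : ℕ) := by
      intro i
      have e : t (i + 1) - t i = (b * t (i + 1) - b * t i) / b := by field_simp
      rw [e, padicNorm.div, hb, div_one]
      have h1 := hr (i + 1)
      have h2 := hr i
      have h3 : r (i + 1) = r i := by
        have a := (hc (i + 1)).1
        have c := (hc i).1
        omega
      rw [h3] at h1
      refine norm_tri h1 ?_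
      rw [norm_sub_comm]
      exact h2
    -- t (i+4) ≡ t i mod 25
    have hd4 : ∀ i, padicNorm 5 (t (i + 4) - t i) ≤ 1 / ((5 : ℕ) : ℚ) ^ 2 := by
      intro i
      have e1 := h.diff i 1
      have e2 := h.diff (i + 1) 1
      have e3 := h.diff (i + 2) 1
      rw [show i + 1 + 1 = i + 2 by ring] at e1 e2
      rw [show i + 2 + 1 = i + 3 by ring] at e2 e3
      rw [show i + 3 + 1 = i + 4 by ring] at e3
      have e : t (i + 4) - t i = (1 + K i 1 + K i 1 * K (i + 1) 1 +
          K i 1 * K (i + 1) 1 * K (i + 2) 1) * (t (i + 1) - t i) := by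
        have : t (i + 4) - t i = (t (i + 4) - t (i + 3)) + (t (i + 3) - t (i + 2)) +
            (t (i + 2) - t (i + 1)) + (t (i + 1) - t i) := by ring
        rw [this, e3, e2, e1]
        simp only [hK]
        ring
      rw [e]
      have c2 : padicNorm 5 (K i 1 * K (i + 1) 1 - (κ : ℚ) * κ) ≤ 1 / (5 : ℕ) :=
        mul_congr (by positivity) (hKκ _ _) (hKκ _ _) (padicNorm.of_int _) (hKn _ _)
      have n2 : padicNorm 5 ((κ : ℚ) * κ) ≤ 1 := by
        have := padicNorm.of_int (p := 5) (κ * κ)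
        push_cast at this
        exact this
      have c3 : padicNorm 5 (K i 1 * K (i + 1) 1 * K (i + 2) 1 - (κ : ℚ) * κ * κ) ≤ 1 / (5 : ℕ) :=
        mul_congr (by positivity) c2 (hKκ _ _) n2 (hKn _ _)
      have c4 : padicNorm 5 (1 + K i 1 + K i 1 * K (i + 1) 1 +
          K i 1 * K (i + 1) 1 * K (i + 2) 1) ≤ 1 / (5 : ℕ) := by
        have e5 : 1 + K i 1 + K i 1 * K (i + 1) 1 + K i 1 * K (i + 1) 1 * K (i + 2) 1 =
            (K i 1 - κ) + (K i 1 * K (i + 1) 1 - (κ : ℚ) * κ) +
            (K i 1 * K (i + 1) 1 * K (i + 2) 1 - (κ : ℚ) * κ * κ) +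
            ((1 + κ + κ * κ + κ * κ * κ : ℤ) : ℚ) := by push_cast; ring
        rw [e5]
        exact norm_add_le (norm_add_le (norm_add_le (hKκ _ _) c2) c3) (norm_int_le hκs)
      calc _ ≤ 1 / ((5 : ℕ) : ℚ) * (1 / (5 : ℕ)) := norm_mul_le c4 (hd1 i)
        _ = _ := by norm_num
    have hd4m : ∀ m i, padicNorm 5 (t (i + 4 * m) - t i) ≤ 1 / ((5 : ℕ) : ℚ) ^ 2 := by
      intro m i
      induction m with
      | zero => simp
      | succ m ih =>
        refine norm_tri ?_ ih
        rw [show i + 4 * (m + 1) = i + 4 * m + 4 by ring]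
        exact hd4 _
    -- K (4 j + i) (4 k) is constant mod 25 in j
    have hKc : ∀ i k j m, padicNorm 5 (K (i + 4 * j) (4 * k) - K (i + 4 * m) (4 * k)) ≤
        1 / ((5 : ℕ) : ℚ) ^ 2 := by
      intro i k j m
      have e : K (i + 4 * j) (4 * k) - K (i + 4 * m) (4 * k) =
          (t (i + 4 * j) * t (i + 4 * j + 4 * k) - t (i + 4 * m) * t (i + 4 * m + 4 * k)) /
          ((t (i + 4 * m) * t (i + 4 * m + 4 * k)) * (t (i + 4 * j) * t (i + 4 * j + 4 * k))) := by
        simp only [hK]
        have h1 := h.ne (i + 4 * j)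
        have h2 := h.ne (i + 4 * j + 4 * k)
        have h3 := h.ne (i + 4 * m)
        have h4 := h.ne (i + 4 * m + 4 * k)
        field_simp
        ring
      have hden : padicNorm 5 ((t (i + 4 * m) * t (i + 4 * m + 4 * k)) *
          (t (i + 4 * j) * t (i + 4 * j + 4 * k))) = 1 := by
        simp only [padicNorm.mul, hall, one_mul]
      rw [e, padicNorm.div, hden, div_one]
      have hcg : ∀ a c d, padicNorm 5 (t (a + 4 * c) - t (a + 4 * d)) ≤ 1 / ((5 : ℕ) : ℚ) ^ 2 := by
        intro a c d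
        refine norm_tri (hd4m c a) ?_
        rw [norm_sub_comm]
        exact hd4m d a
      refine mul_congr (by positivity) (hcg _ _ _) ?_ (hall _).le (hall _).le
      rw [show i + 4 * j + 4 * k = i + 4 * (j + k) by ring,
        show i + 4 * m + 4 * k = i + 4 * (m + k) by ring]
      exact hcg _ _ _
    have key : t (4 * 1) = t (4 * 0) := by
      refine no_cycle (p := 5) (fun i => t (4 * i)) n h.pos (fun i => h.per_mul 4 i)
        (fun i k => K (3 + 4 * i) (4 * k) * K (2 + 4 * i) (4 * k) *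
          (K (1 + 4 * i) (4 * k) * K (0 + 4 * i) (4 * k))) ?_ ?_ (Or.inr ⟨by norm_num, ?_⟩)
      · intro i k
        have e1 := h.diff (0 + 4 * i) (4 * k)
        have e2 := h.diff (1 + 4 * i) (4 * k)
        have e3 := h.diff (2 + 4 * i) (4 * k)
        have e4 := h.diff (3 + 4 * i) (4 * k)
        rw [show 0 + 4 * i + 1 = 1 + 4 * i by ring] at e1
        rw [show 1 + 4 * i + 1 = 2 + 4 * i by ring] at e2
        rw [show 2 + 4 * i + 1 = 3 + 4 * i by ring] at e3
        rw [show 3 + 4 * i + 1 = 4 * (i + 1) by ring] at e4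
        simp only [hK]
        rw [show 4 * (i + 1 + k) = 4 * (i + 1) + 4 * k by ring,
          show 4 * (i + k) = 0 + 4 * i + 4 * k by ring, e4, e3, e2, e1]
        rw [show 0 + 4 * i = 4 * i by ring]
        ring
      · intro i k
        have c2 : ∀ a c, padicNorm 5 (K a (4 * k) * K c (4 * k) - (κ : ℚ) * κ) ≤ 1 / (5 : ℕ) :=
          fun a c => mul_congr (by positivity) (hKκ _ _) (hKκ _ _) (padicNorm.of_int _) (hKn _ _)
        have n2 : padicNorm 5 ((κ : ℚ) * κ) ≤ 1 := by
          have := padicNorm.of_int (p := 5) (κ * κ)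
          push_cast at this
          exact this
        have n3 : ∀ a c, padicNorm 5 (K a (4 * k) * K c (4 * k)) ≤ 1 := fun a c =>
          norm_le_one_of_congr hinv5 (c2 a c) n2
        have c4 := mul_congr (p := 5) (by positivity) (c2 (3 + 4 * i) (2 + 4 * i))
          (c2 (1 + 4 * i) (0 + 4 * i)) n2 (n3 _ _)
        refine norm_tri c4 ?_
        have := norm_int_le (p := 5) hκ4
        push_cast at this ⊢
        exact this
      · intro i j k
        have n3 : ∀ a c, padicNorm 5 (K a (4 * k) * K c (4 * k)) ≤ 1 := fun a c => by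
          calc _ ≤ 1 * (1 : ℚ) := norm_mul_le (hKn _ _) (hKn _ _)
            _ = 1 := by norm_num
        refine mul_congr (by positivity) ?_ ?_ (n3 _ _) (n3 _ _)
        · exact mul_congr (by positivity) (hKc _ _ _ _) (hKc _ _ _ _) (hKn _ _) (hKn _ _)
        · exact mul_congr (by positivity) (hKc _ _ _ _) (hKc _ _ _ _) (hKn _ _) (hKn _ _)
    simpa using key

end IsTCycle

end Pool.Agent.H97
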