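import Pool.Agent.H97.ManesFive
import Pool.Agent.H97.Descent44

/-!
# Global statements on the maps `x ↦ b x + c / x`
-/

set_option autoImplicit false

namespace Pool.Agent.H97

/-- rationals with equal `p`-adic norms for all `p` agree up to sign -/
theorem eq_or_neg_of_norms {a b : ℚ} (ha : a ≠ 0) (hb : b ≠ 0)
    (h : ∀ p : ℕ, p.Prime → padicNorm p a = padicNorm p b) : a = b ∨ a = -b := by
  have hq : ∀ p : ℕ, p.Prime → padicNorm p (a / b) = 1 := by
    intro p hp
    have : Fact p.Prime := ⟨hp⟩
    rw [padicNorm.div, h p hp, div_self (padicNorm.nonzero hb)]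
  set q := a / b with hqdef
  have hq0 : q ≠ 0 := div_ne_zero ha hb
  have hnum : q.num.natAbs = 1 := by
    by_contra hne
    obtain ⟨p, hp, hd⟩ := Nat.exists_prime_and_dvd hne
    have : Fact p.Prime := ⟨hp⟩
    have h1 : padicNorm p (q.num : ℚ) < 1 :=
      (padicNorm.int_lt_one_iff q.num).2 (Int.natCast_dvd.2 hd)
    have h2 : ¬ p ∣ q.den := by
      intro hd2
      have := Nat.dvd_gcd hd hd2
      rw [q.reduced] at this
      exact hp.one_lt.not_ge (Nat.le_of_dvd one_pos this)
    have h3 : padicNorm p (q.den : ℚ) = 1 := (padicNorm.nat_eq_one_iff q.den).2 h2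
    have h4 : padicNorm p q = padicNorm p (q.num : ℚ) / padicNorm p (q.den : ℚ) := by
      rw [← padicNorm.div, Rat.num_div_den]
    rw [hq p hp, h3, div_one] at h4
    linarith
  have hden : q.den = 1 := by
    by_contra hne
    obtain ⟨p, hp, hd⟩ := Nat.exists_prime_and_dvd hne
    have : Fact p.Prime := ⟨hp⟩
    have h1 : padicNorm p (q.den : ℚ) < 1 := (padicNorm.nat_lt_one_iff q.den).2 hd
    have h2 : padicNorm p (q.num : ℚ) = 1 := by
      rw [padicNorm.int_eq_one_iff]
      intro h3
      have h4 := Int.natAbs_dvd_natAbs.2 h3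
      rw [hnum] at h4
      simp at h4
      rw [h4] at hp
      exact Nat.not_prime_one hp
    have h4 : padicNorm p q = padicNorm p (q.num : ℚ) / padicNorm p (q.den : ℚ) := by
      rw [← padicNorm.div, Rat.num_div_den]
    rw [hq p hp, h2] at h4
    have h5 : 0 < padicNorm p (q.den : ℚ) := norm_pos (by exact_mod_cast q.den_nz)
    rw [eq_comm, div_eq_one_iff_eq h5.ne'] at h4
    linarith
  have hqv : q = 1 ∨ q = -1 := by
    have h1 : q = (q.num : ℚ) := by
      have := Rat.num_div_den q
      rw [hden] at this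
      simpa using this.symm
    rcases Int.natAbs_eq_iff.1 hnum with h2 | h2
    · left; rw [h1, h2]; norm_num
    · right; rw [h1, h2]; norm_num
  rcases hqv with h1 | h1
  · left
    rw [hqdef, div_eq_iff hb] at h1
    linarith
  · right
    rw [hqdef, div_eq_iff hb] at h1
    linarith

/-! ### The real place -/

/-- a sequence which never increases and is periodic is constant -/
theorem const_of_antitone_periodic (s : ℕ → ℚ) (n : ℕ) (hn : 0 < n) (hs : s n = s 0)
    (h : ∀ i, s (i + 1) ≤ s i) : s 1 = s 0 := by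
  have h1 : Antitone s := antitone_nat_of_succ_le h
  have h2 : s n ≤ s 1 := h1 hn
  have h3 := h 0
  rw [zero_add] at h3
  linarith

theorem IsCycle.real {b c : ℚ} {x : ℕ → ℚ} {n : ℕ} (h : IsCycle b c x n) (hbc : 0 < b * c) :
    x 1 = x 0 ∨ x 1 = -x 0 := by
  have hb : b ≠ 0 := by rintro rfl; simp at hbc
  have hc : c ≠ 0 := by rintro rfl; simp at hbc
  set B := |b| with hB
  set C := |c| with hC
  have hB0 : 0 < B := abs_pos.2 hb
  have hC0 : 0 < C := abs_pos.2 hc
  set y : ℕ → ℚ := fun i => |x i| with hy
  have hy0 : ∀ i, 0 < y i := fun i => abs_pos.2 (h.ne i)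
  have hrec : ∀ i, y (i + 1) = B * y i + C / y i := by
    intro i
    simp only [hy]
    rw [h.next]
    have h1 : |b * x i + c / x i| = |b * x i| + |c / x i| := by
      rw [abs_add_eq_add_abs_iff]
      have h2 : 0 < (b * x i) * (c / x i) := by
        have : (b * x i) * (c / x i) = b * c := by
          have := h.ne i
          field_simp
        rw [this]; exact hbc
      rcases (mul_pos_iff.1 h2) with ⟨h3, h4⟩ | ⟨h3, h4⟩
      · exact Or.inl ⟨h3.le, h4.le⟩
      · exact Or.inr ⟨h3.le, h4.le⟩
    rw [h1, abs_mul, abs_div]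
  have hper : y n = y 0 := by
    simp only [hy]
    have := h.per 0
    rw [zero_add] at this
    rw [this]
  rcases le_or_gt 1 B with hB1 | hB1
  · exfalso
    have hinc : ∀ i, y i < y (i + 1) := by
      intro i
      rw [hrec]
      have h1 : 0 < C / y i := div_pos hC0 (hy0 i)
      have h2 : y i ≤ B * y i := le_mul_of_one_le_left (hy0 i).le hB1
      linarith
    have := (strictMono_nat_of_lt_succ hinc) h.pos
    rw [hper] at this
    exact lt_irrefl _ this
  · set κ := C / (1 - B) with hκ
    have h1B : 0 < 1 - B := by linarith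
    have hκ0 : 0 < κ := div_pos hC0 h1B
    have hCκ : C = (1 - B) * κ := by rw [hκ]; field_simp
    have hdiff : ∀ i, (y i + κ / y i) - (y (i + 1) + κ / y (i + 1)) =
        (1 - B) * B * (y i ^ 2 - κ) ^ 2 / (y i ^ 2 * y (i + 1)) := by
      intro i
      have h1 := hy0 i
      have h2 := hy0 (i + 1)
      have h3 : y (i + 1) = (B * y i ^ 2 + (1 - B) * κ) / y i := by
        rw [hrec, hCκ]
        field_simp
      have h4 : 0 < B * y i ^ 2 + (1 - B) * κ := by positivity
      rw [h3]
      field_simp
      ring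
    have hanti : ∀ i, (fun i => y i + κ / y i) (i + 1) ≤ (fun i => y i + κ / y i) i := by
      intro i
      have h1 := hy0 i
      have h2 := hy0 (i + 1)
      have h3 := hdiff i
      have h4 : 0 ≤ (1 - B) * B * (y i ^ 2 - κ) ^ 2 / (y i ^ 2 * y (i + 1)) := by
        positivity
      rw [← h3] at h4
      show y (i + 1) + κ / y (i + 1) ≤ y i + κ / y i
      linarith
    have hconst := const_of_antitone_periodic (fun i => y i + κ / y i) n h.pos
      (by simp only [hper]) hanti
    have hconst : y 1 + κ / y 1 = y 0 + κ / y 0 := hconst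
    have h3 := hdiff 0
    rw [zero_add, hconst, sub_self] at h3
    have h1 := hy0 0
    have h2 := hy0 1
    have h5 : y 0 ^ 2 = κ := by
      have h6 : (1 - B) * B * (y 0 ^ 2 - κ) ^ 2 = 0 := by
        by_contra hne
        have h7 : 0 < (1 - B) * B * (y 0 ^ 2 - κ) ^ 2 := lt_of_le_of_ne (by positivity) (Ne.symm hne)
        have h8 : 0 < (1 - B) * B * (y 0 ^ 2 - κ) ^ 2 / (y 0 ^ 2 * y 1) := by positivity
        linarith
      have h7 : (y 0 ^ 2 - κ) ^ 2 = 0 := by
        rcases mul_eq_zero.1 h6 with h8 | h8
        · have : (1 - B) * B ≠ 0 := by positivity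
          exact absurd h8 this
        · exact h8
      have h8 : y 0 ^ 2 - κ = 0 := by simpa using h7
      linarith
    have h6 : y 1 = y 0 := by
      have h7 := hrec 0
      rw [zero_add] at h7
      rw [h7, hCκ, ← h5]
      field_simp
      ring
    simp only [hy] at h6
    exact abs_eq_abs.1 h6

/-! ### Integral parameters -/

namespace IsCycle

variable {b c : ℚ} {x : ℕ → ℚ} {n : ℕ}

theorem g_next (h : IsCycle b c x n) (i : ℕ) :
    x (i + 2) - x (i + 1) = (b - c / (x i * x (i + 1))) * (x (i + 1) - x i) := by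
  have h1 := h.ne i
  have h2 := h.ne (i + 1)
  rw [show i + 2 = (i + 1) + 1 by ring, h.next (i + 1)]
  nth_rewrite 3 [h.next i]
  have h3 := h.next i
  have h4 : c = x i * x (i + 1) - b * x i ^ 2 := by
    rw [h3]; field_simp; ring
  field_simp
  rw [h4]
  ring

theorem h_next (h : IsCycle b c x n) (i : ℕ) :
    x (i + 2) + x (i + 1) = (b + c / (x i * x (i + 1))) * (x (i + 1) + x i) := by
  have h1 := h.ne i
  have h2 := h.ne (i + 1)
  rw [show i + 2 = (i + 1) + 1 by ring, h.next (i + 1)]
  have h3 := h.next i
  have h4 : c = x i * x (i + 1) - b * x i ^ 2 := by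
    rw [h3]; field_simp; ring
  field_simp
  rw [h4]
  ring

theorem g_per (h : IsCycle b c x n) (i : ℕ) : x (i + n + 1) - x (i + n) = x (i + 1) - x i := by
  rw [show i + n + 1 = i + 1 + n by ring, h.per, h.per]

theorem h_per (h : IsCycle b c x n) (i : ℕ) : x (i + n + 1) + x (i + n) = x (i + 1) + x i := by
  rw [show i + n + 1 = i + 1 + n by ring, h.per, h.per]

/-- if a multiplicatively propagating periodic quantity never grows `p`-adically, its norm is
constant -/
theorem norm_const {p : ℕ} [hp : Fact p.Prime] (s : ℕ → ℚ) (m : ℕ) (hm : 0 < m)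
    (hs : ∀ i, s (i + m) = s i) (hle : ∀ i, padicNorm p (s (i + 1)) ≤ padicNorm p (s i)) (i : ℕ) :
    padicNorm p (s (i + 1)) = padicNorm p (s i) := by
  have h1 := const_of_antitone_periodic (fun j => padicNorm p (s (i + j))) m hm
    (by simp only [hs, add_zero]) (fun j => by
      have := hle (i + j)
      rw [add_assoc] at this
      exact this)
  simpa using h1

theorem norm_R {p : ℕ} [hp : Fact p.Prime] (h : IsCycle b c x n) (hb0 : b ≠ 0) (hc : c ≠ 0)
    (hb : padicNorm p b ≤ 1) (i : ℕ) :
    padicNorm p (x (i + 2) - x (i + 1)) * padicNorm p (x (i + 1) + x i) =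
      padicNorm p (x (i + 2) + x (i + 1)) * padicNorm p (x (i + 1) - x i) := by
  have hT := h.toT hc
  have hcn : 0 < padicNorm p c := norm_pos hc
  -- norm of `c / (x i * x (i+1))` squared
  have hxt : ∀ j, padicNorm p (x j) ^ 2 = padicNorm p (x j ^ 2 / c) * padicNorm p c := by
    intro j
    rw [padicNorm.div, norm_pow]
    field_simp
  have hu : ∀ τ : ℚ, 0 < τ → (∀ j, padicNorm p (x j ^ 2 / c) = τ) → ∀ j,
      padicNorm p (c / (x j * x (j + 1))) = 1 / τ := by
    intro τ hτ hall j
    have e1 : padicNorm p (x (j + 1)) = padicNorm p (x j) := by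
      have := hxt j
      have h2 := hxt (j + 1)
      rw [hall] at this h2
      exact (pow_left_inj₀ (padicNorm.nonneg _) (padicNorm.nonneg _) (by norm_num : 2 ≠ 0)).1
        (h2.trans this.symm)
    rw [padicNorm.div, padicNorm.mul, e1, ← pow_two, hxt, hall]
    field_simp
  rcases lt_or_eq_of_le hb with hb1 | hb1
  · -- |b| < 1
    by_cases hex : ∃ j, padicNorm p (x j ^ 2 / c) = 1
    · obtain ⟨j, hj⟩ := hex
      have hall : ∀ k, padicNorm p (x k ^ 2 / c) = 1 := by
        apply hT.all_of_step (Q := fun s => padicNorm p s = 1) _ j hj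
        intro k hk
        have h1 := hT.norm_next (p := p) k
        rw [h1, hk]
        have h2 : padicNorm p (b * (x k ^ 2 / c)) < 1 := by
          rw [padicNorm.mul, hk, mul_one]; exact hb1
        rw [add_comm, norm_add_eq (by rw [padicNorm.one]; exact h2), padicNorm.one]
        norm_num
      have hu1 := hu 1 one_pos hall i
      rw [h.g_next, h.h_next, padicNorm.mul, padicNorm.mul]
      have e1 : padicNorm p (b - c / (x i * x (i + 1))) = 1 := by
        have : b - c / (x i * x (i + 1)) = -(c / (x i * x (i + 1))) + b := by ring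
        rw [this, norm_add_eq, padicNorm.neg, hu1]
        · norm_num
        · rw [padicNorm.neg, hu1]; norm_num; exact hb1
      have e2 : padicNorm p (b + c / (x i * x (i + 1))) = 1 := by
        rw [add_comm, norm_add_eq, hu1]
        · norm_num
        · rw [hu1]; norm_num; exact hb1
      rw [e1, e2]
      ring
    · push Not at hex
      have hne : ∀ j, padicNorm p (x (j + 1)) ≠ padicNorm p (x j) := by
        intro j heq
        -- λ = x (j+1) / x j = b + 1 / t
        have e1 : x (j + 1) / x j = b + 1 / (x j ^ 2 / c) := by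
          have := h.ne j
          rw [h.next]
          field_simp
        have e2 : padicNorm p (x (j + 1) / x j) = 1 := by
          rw [padicNorm.div, heq, div_self (padicNorm.nonzero (h.ne j))]
        rw [e1] at e2
        have ht0 : 0 < padicNorm p (x j ^ 2 / c) := norm_pos (h.t_ne hc j)
        have e3 : padicNorm p (1 / (x j ^ 2 / c)) = 1 / padicNorm p (x j ^ 2 / c) := by
          rw [padicNorm.div, padicNorm.one]
        rcases lt_trichotomy (padicNorm p (1 / (x j ^ 2 / c))) 1 with h1 | h1 | h1
        · have : padicNorm p (b + 1 / (x j ^ 2 / c)) < 1 :=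
            lt_of_le_of_lt (padicNorm.nonarchimedean) (max_lt hb1 h1)
          linarith
        · rw [e3, div_eq_one_iff_eq ht0.ne'] at h1
          exact hex j h1.symm
        · have : padicNorm p (b + 1 / (x j ^ 2 / c)) = padicNorm p (1 / (x j ^ 2 / c)) := by
            rw [add_comm]
            exact norm_add_eq (hb1.trans h1)
          linarith
      have hgh : ∀ j, padicNorm p (x (j + 1) - x j) = padicNorm p (x (j + 1) + x j) := by
        intro j
        rw [padicNorm.add_eq_max_of_ne (hne j), sub_eq_add_neg,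
          padicNorm.add_eq_max_of_ne (by rw [padicNorm.neg]; exact hne j), padicNorm.neg]
      rw [hgh i, show x (i + 2) - x (i + 1) = x (i + 1 + 1) - x (i + 1) by rfl, hgh (i + 1)]
  · -- |b| = 1
    rcases hT.unit_dichotomy hb1 with hall | ⟨τ, hτ, hall⟩
    · have hu1 := hu 1 one_pos hall
      have hg : ∀ j, padicNorm p (x (j + 1 + 1) - x (j + 1)) ≤ padicNorm p (x (j + 1) - x j) := by
        intro j
        rw [h.g_next j, padicNorm.mul]
        have : padicNorm p (b - c / (x j * x (j + 1))) ≤ 1 :=
          norm_sub_le hb1.le (by rw [hu1]; norm_num)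
        calc _ ≤ 1 * padicNorm p (x (j + 1) - x j) :=
              mul_le_mul_of_nonneg_right this (padicNorm.nonneg _)
          _ = _ := one_mul _
      have hh : ∀ j, padicNorm p (x (j + 1 + 1) + x (j + 1)) ≤ padicNorm p (x (j + 1) + x j) := by
        intro j
        rw [h.h_next j, padicNorm.mul]
        have : padicNorm p (b + c / (x j * x (j + 1))) ≤ 1 :=
          norm_add_le hb1.le (by rw [hu1]; norm_num)
        calc _ ≤ 1 * padicNorm p (x (j + 1) + x j) :=
              mul_le_mul_of_nonneg_right this (padicNorm.nonneg _)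
          _ = _ := one_mul _
      have e1 := norm_const (fun j => x (j + 1) - x j) n h.pos h.g_per hg i
      have e2 := norm_const (fun j => x (j + 1) + x j) n h.pos h.h_per hh i
      have e1' : padicNorm p (x (i + 2) - x (i + 1)) = padicNorm p (x (i + 1) - x i) := e1
      have e2' : padicNorm p (x (i + 2) + x (i + 1)) = padicNorm p (x (i + 1) + x i) := e2
      rw [e1', e2']
      ring
    · have hu1 := hu τ (by linarith) hall i
      have hτ1 : 1 / τ < 1 := by rw [div_lt_one (by linarith)]; exact hτ
      rw [h.g_next, h.h_next, padicNorm.mul, padicNorm.mul]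
      have e1 : padicNorm p (b - c / (x i * x (i + 1))) = 1 := by
        rw [sub_eq_add_neg, norm_add_eq, hb1]
        rw [padicNorm.neg, hu1, hb1]; exact hτ1
      have e2 : padicNorm p (b + c / (x i * x (i + 1))) = 1 := by
        rw [norm_add_eq, hb1]
        rw [hu1, hb1]; exact hτ1
      rw [e1, e2]
      ring

/-- **Integral parameter**: only `f(x) = ± x`. -/
theorem integral (h : IsCycle b c x n) (hb0 : b ≠ 0) (hc : c ≠ 0)
    (hb : ∀ p : ℕ, p.Prime → padicNorm p b ≤ 1) : x 1 = x 0 ∨ x 1 = -x 0 := by
  by_contra hcon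
  push Not at hcon
  obtain ⟨hne1, hne2⟩ := hcon
  have hg0 : x 1 - x 0 ≠ 0 := sub_ne_zero.2 hne1
  have hh0 : x 1 + x 0 ≠ 0 := fun h0 => hne2 (by linarith)
  -- nonvanishing at index 1
  have hg1 : x 2 - x 1 ≠ 0 := by
    intro h0
    apply hg0
    -- propagate: x (j+2) = x (j+1) for all j, then by periodicity x 1 = x 0
    have h1 : ∀ j, x (j + 2) - x (j + 1) = 0 := by
      intro j
      induction j with
      | zero => exact h0
      | succ j ih => rw [h.g_next (j + 1), ih, mul_zero]
    have h2 := h.g_per 0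
    have h3 : x (0 + n + 1) - x (0 + n) = 0 := by
      obtain ⟨m, hm⟩ : ∃ m, n = m + 1 := ⟨n - 1, by have := h.pos; omega⟩
      rw [hm, zero_add]
      exact h1 m
    rw [h3] at h2
    simpa using h2.symm
  have hh1 : x 2 + x 1 ≠ 0 := by
    intro h0
    apply hh0
    have h1 : ∀ j, x (j + 2) + x (j + 1) = 0 := by
      intro j
      induction j with
      | zero => exact h0
      | succ j ih => rw [h.h_next (j + 1), ih, mul_zero]
    have h2 := h.h_per 0
    have h3 : x (0 + n + 1) + x (0 + n) = 0 := by
      obtain ⟨m, hm⟩ : ∃ m, n = m + 1 := ⟨n - 1, by have := h.pos; omega⟩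
      rw [hm, zero_add]
      exact h1 m
    rw [h3] at h2
    simpa using h2.symm
  have hR := eq_or_neg_of_norms (a := (x 2 - x 1) * (x 1 + x 0)) (b := (x 2 + x 1) * (x 1 - x 0))
    (mul_ne_zero hg1 hh0) (mul_ne_zero hh1 hg0) (by
      intro p hp
      have : Fact p.Prime := ⟨hp⟩
      rw [padicNorm.mul, padicNorm.mul]
      exact h.norm_R hb0 hc (hb p hp) 0)
  have e1 := h.g_next 0
  have e2 := h.h_next 0
  simp only [zero_add] at e1 e2
  rw [e1, e2] at hR
  have hx0 := h.ne 0
  have hx1 := h.ne 1
  have hgh : (x 1 - x 0) * (x 1 + x 0) ≠ 0 := mul_ne_zero hg0 hh0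
  have hu : c / (x 0 * x 1) ≠ 0 := div_ne_zero hc (mul_ne_zero hx0 hx1)
  rcases hR with h1 | h1
  · have : (2 * (c / (x 0 * x 1))) * ((x 1 - x 0) * (x 1 + x 0)) = 0 := by
      linear_combination -h1
    rcases mul_eq_zero.1 this with h2 | h2
    · exact hu (by linarith)
    · exact hgh h2
  · have : (2 * b) * ((x 1 - x 0) * (x 1 + x 0)) = 0 := by
      linear_combination h1
    rcases mul_eq_zero.1 this with h2 | h2
    · exact hb0 (by linarith)
    · exact hgh h2

end IsCycle

end Pool.Agent.H97
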