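import Pool.Agent.H97.ManesNum

/-!
# Multiplicative structure of the ratios of a cycle

For a cycle of `t ↦ (b t + 1)² / t` put `q i = (b t i + 1) / t i`, so `q i ^ 2 = t (i+1) / t i`.
The numerators and denominators of the `q i` are composed of primes dividing the numerator
`N` of `b`, and for some `i` their product is at most `|N| ^ 4`.  The denominator of `b` divides
`num² - den²`.
-/

set_option autoImplicit false

namespace Pool.Agent.H97

/-- naive size of a rational: `|num| * den` -/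
def sz (q : ℚ) : ℕ := q.num.natAbs * q.den

theorem sz_ne_zero {q : ℚ} (hq : q ≠ 0) : sz q ≠ 0 :=
  mul_ne_zero (Int.natAbs_ne_zero.2 (Rat.num_ne_zero.2 hq)) q.den_nz

theorem factorization_sz {p : ℕ} (hp : p.Prime) {q : ℚ} (hq : q ≠ 0) :
    (((sz q).factorization p : ℕ) : ℤ) = |padicValRat p q| := by
  have : Fact p.Prime := ⟨hp⟩
  have hn : q.num.natAbs ≠ 0 := Int.natAbs_ne_zero.2 (Rat.num_ne_zero.2 hq)
  rw [sz, Nat.factorization_mul hn q.den_nz, Finsupp.add_apply, Nat.factorization_def _ hp,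
    Nat.factorization_def _ hp, padicValRat_def, padicValInt]
  by_cases hd : p ∣ q.den
  · have h1 : ¬ p ∣ q.num.natAbs := by
      intro h2
      have h3 := Nat.dvd_gcd h2 hd
      rw [q.reduced] at h3
      exact hp.one_lt.not_ge (Nat.le_of_dvd one_pos h3)
    rw [padicValNat.eq_zero_of_not_dvd h1]
    simp
  · rw [padicValNat.eq_zero_of_not_dvd hd]
    simp

/-- the potential function -/
def pot (k v : ℤ) : ℤ := -3 * max (-v - k) 0 + min (k - v) 0

theorem pot_step {k v v' e : ℤ} (hk : 0 < k) (h1 : 0 < k + v → e = 0) (h2 : k + v < 0 → e = k + v)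
    (h3 : k + v = 0 → 0 ≤ e) (hv : v' = 2 * e - v) :
    |v' - v| ≤ 8 * k + (pot k v - pot k v') := by
  unfold pot
  rw [abs_le]
  rcases lt_trichotomy (k + v) 0 with h | h | h
  · have := h2 h
    omega
  · have := h3 h
    omega
  · have := h1 h
    omega

theorem val_mul_add_one {p : ℕ} [hp : Fact p.Prime] {b t : ℚ} (hb : b ≠ 0) (ht : t ≠ 0)
    (hw : b * t + 1 ≠ 0) :
    (0 < padicValRat p b + padicValRat p t → padicValRat p (b * t + 1) = 0) ∧
    (padicValRat p b + padicValRat p t < 0 →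
      padicValRat p (b * t + 1) = padicValRat p b + padicValRat p t) ∧
    (padicValRat p b + padicValRat p t = 0 → 0 ≤ padicValRat p (b * t + 1)) := by
  have hbt : b * t ≠ 0 := mul_ne_zero hb ht
  have hm : padicValRat p (b * t) = padicValRat p b + padicValRat p t := padicValRat.mul hb ht
  have h1 : padicValRat p (1 : ℚ) = 0 := padicValRat.one
  refine ⟨fun h => ?_, fun h => ?_, fun h => ?_⟩
  · rw [add_comm, padicValRat.add_eq_of_lt (by rwa [add_comm]) one_ne_zero hbt
      (by rw [h1, hm]; exact h), h1]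
  · rw [padicValRat.add_eq_of_lt hw hbt one_ne_zero (by rw [h1, hm]; exact h), hm]
  · have h2 := padicValRat.min_le_padicValRat_add (p := p) hw
    rw [h1, hm, h, min_self] at h2
    exact h2

theorem val_zero_of_norm {p : ℕ} [hp : Fact p.Prime] {q : ℚ} (hq : q ≠ 0)
    (h : padicNorm p q = 1) : padicValRat p q = 0 := by
  have hp1 : (1 : ℚ) < p := by exact_mod_cast hp.out.one_lt
  rw [padicNorm.eq_zpow_of_nonzero hq] at h
  have h1 : (p : ℚ) ^ (-padicValRat p q) = (p : ℚ) ^ (0 : ℤ) := by rw [h, zpow_zero]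
  have h2 := zpow_right_injective₀ (by linarith) hp1.ne' h1
  omega

namespace IsTCycle

variable {b : ℚ} {t : ℕ → ℚ} {n : ℕ}

/-- the ratio -/
theorem w_ne (h : IsTCycle b t n) (i : ℕ) : b * t i + 1 ≠ 0 := by
  intro h0
  have h1 := h.next_mul i
  rw [h0] at h1
  exact (mul_ne_zero (h.ne (i + 1)) (h.ne i)) (by rw [h1]; norm_num)

theorem q_ne (h : IsTCycle b t n) (i : ℕ) : (b * t i + 1) / t i ≠ 0 :=
  div_ne_zero (h.w_ne i) (h.ne i)

theorem q_sq (h : IsTCycle b t n) (i : ℕ) : ((b * t i + 1) / t i) ^ 2 * t i = t (i + 1) := by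
  rw [h.next]
  have := h.ne i
  field_simp

theorem q_rel (h : IsTCycle b t n) (i : ℕ) :
    b * (1 - ((b * t i + 1) / t i) ^ 2) =
      ((b * t i + 1) / t i) * (1 - ((b * t i + 1) / t i) * ((b * t (i + 1) + 1) / t (i + 1))) := by
  have h1 := h.ne i
  have h2 := h.ne (i + 1)
  have h3 := h.next_mul i
  have h4 := h.w_ne i
  have h5 : t (i + 1) = (b * t i + 1) ^ 2 / t i := h.next i
  rw [h5]
  field_simp
  ring

theorem val_q (h : IsTCycle b t n) {p : ℕ} [hp : Fact p.Prime] (i : ℕ) :
    2 * padicValRat p ((b * t i + 1) / t i) = padicValRat p (t (i + 1)) - padicValRat p (t i) := by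
  have h1 := h.q_sq i
  have h2 : padicValRat p (((b * t i + 1) / t i) ^ 2 * t i) =
      2 * padicValRat p ((b * t i + 1) / t i) + padicValRat p (t i) := by
    rw [padicValRat.mul (pow_ne_zero 2 (h.q_ne i)) (h.ne i), padicValRat.pow]
    push_cast
    ring
  rw [h1] at h2
  omega

/-- at primes not dividing the numerator of `b` the ratio is a unit -/
theorem val_q_zero (h : IsTCycle b t n) {p : ℕ} [hp : Fact p.Prime] (hb : 1 ≤ padicNorm p b)
    (i : ℕ) : padicValRat p ((b * t i + 1) / t i) = 0 := by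
  have h1 := h.norm_const_of_ge hb (i + 1) i
  have h2 : padicNorm p (t (i + 1) / t i) = 1 := by
    rw [padicNorm.div, h1, div_self (padicNorm.nonzero (h.ne i))]
  have h3 := val_zero_of_norm (div_ne_zero (h.ne (i + 1)) (h.ne i)) h2
  rw [padicValRat.div (h.ne (i + 1)) (h.ne i)] at h3
  have h4 := h.val_q (p := p) i
  omega

/-- the average over the cycle of the valuations of the ratios -/
theorem sum_val_q (h : IsTCycle b t n) (hb0 : b ≠ 0) {p : ℕ} [hp : Fact p.Prime]
    (hk : 0 < padicValRat p b) :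
    ∑ i ∈ Finset.range n, |padicValRat p ((b * t i + 1) / t i)| ≤ 4 * padicValRat p b * n := by
  set k := padicValRat p b with hkdef
  have hstep : ∀ i, 2 * |padicValRat p ((b * t i + 1) / t i)| ≤
      8 * k + (pot k (padicValRat p (t i)) - pot k (padicValRat p (t (i + 1)))) := by
    intro i
    obtain ⟨h1, h2, h3⟩ := val_mul_add_one (p := p) hb0 (h.ne i) (h.w_ne i)
    have h4 : padicValRat p (t (i + 1)) =
        2 * padicValRat p (b * t i + 1) - padicValRat p (t i) := by
      rw [h.next, padicValRat.div (pow_ne_zero 2 (h.w_ne i)) (h.ne i),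
        padicValRat.pow]
      push_cast
      ring
    have h5 := pot_step hk h1 h2 h3 h4
    have h6 := h.val_q (p := p) i
    rw [← h6, abs_mul] at h5
    simpa using h5
  have hsum : ∑ i ∈ Finset.range n, 2 * |padicValRat p ((b * t i + 1) / t i)| ≤
      ∑ i ∈ Finset.range n, (8 * k + (pot k (padicValRat p (t i)) -
        pot k (padicValRat p (t (i + 1))))) := Finset.sum_le_sum fun i _ => hstep i
  rw [Finset.sum_add_distrib, Finset.sum_range_sub'] at hsum
  have hper := h.per 0
  rw [zero_add] at hper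
  rw [hper, sub_self, add_zero, Finset.sum_const, Finset.card_range, nsmul_eq_mul,
    ← Finset.mul_sum] at hsum
  nlinarith

theorem norm_ge_of_not_dvd {p : ℕ} (hp : p.Prime) (hd : ¬ p ∣ b.num.natAbs) :
    1 ≤ padicNorm p b := by
  have : Fact p.Prime := ⟨hp⟩
  have h1 : padicNorm p (b.num : ℚ) = 1 := by
    rw [padicNorm.int_eq_one_iff]
    intro h3
    exact hd (Int.natCast_dvd.1 h3)
  have h2 : padicNorm p (b.den : ℚ) ≤ 1 := padicNorm.of_nat b.den
  have h3 : 0 < padicNorm p (b.den : ℚ) := norm_pos (by exact_mod_cast b.den_nz)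
  have h4 : padicNorm p b = padicNorm p (b.num : ℚ) / padicNorm p (b.den : ℚ) := by
    rw [← padicNorm.div, Rat.num_div_den]
  rw [h4, h1, le_div_iff₀ h3]
  linarith

theorem val_of_dvd_num {p : ℕ} (hp : p.Prime) (hb0 : b ≠ 0) (hd : p ∣ b.num.natAbs) :
    padicValRat p b = (b.num.natAbs.factorization p : ℤ) ∧ 0 < padicValRat p b := by
  have : Fact p.Prime := ⟨hp⟩
  have hn : b.num.natAbs ≠ 0 := Int.natAbs_ne_zero.2 (Rat.num_ne_zero.2 hb0)
  have h1 : ¬ p ∣ b.den := by
    intro h2
    have h3 := Nat.dvd_gcd hd h2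
    rw [b.reduced] at h3
    exact hp.one_lt.not_ge (Nat.le_of_dvd one_pos h3)
  have h2 : padicValRat p b = (b.num.natAbs.factorization p : ℤ) := by
    rw [padicValRat_def, padicValInt, padicValNat.eq_zero_of_not_dvd h1,
      Nat.factorization_def _ hp]
    simp
  refine ⟨h2, ?_⟩
  rw [h2]
  have := (hp.factorization_pos_of_dvd hn hd)
  exact_mod_cast this

theorem prime_dvd_sz (h : IsTCycle b t n) {p : ℕ} (hp : p.Prime) (i : ℕ)
    (hd : p ∣ sz ((b * t i + 1) / t i)) : p ∣ b.num.natAbs := by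
  by_contra hcon
  have : Fact p.Prime := ⟨hp⟩
  have h1 := h.val_q_zero (norm_ge_of_not_dvd hp hcon) i
  have h2 := factorization_sz hp (h.q_ne i)
  rw [h1, abs_zero] at h2
  have h3 := hp.factorization_pos_of_dvd (sz_ne_zero (h.q_ne i)) hd
  omega

/-- **Height bound**: some ratio has size at most `|N|^4`. -/
theorem exists_small (h : IsTCycle b t n) (hb0 : b ≠ 0) :
    ∃ i, sz ((b * t i + 1) / t i) ≤ b.num.natAbs ^ 4 := by
  by_contra hcon
  push Not at hcon
  have hn : b.num.natAbs ≠ 0 := Int.natAbs_ne_zero.2 (Rat.num_ne_zero.2 hb0)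
  have hdvd : ∏ i ∈ Finset.range n, sz ((b * t i + 1) / t i) ∣ b.num.natAbs ^ (4 * n) := by
    have hne : ∏ i ∈ Finset.range n, sz ((b * t i + 1) / t i) ≠ 0 :=
      Finset.prod_ne_zero_iff.2 fun i _ => sz_ne_zero (h.q_ne i)
    rw [← Nat.factorization_le_iff_dvd hne (pow_ne_zero _ hn)]
    intro p
    by_cases hp : p.Prime
    · have : Fact p.Prime := ⟨hp⟩
      rw [Nat.factorization_prod (fun i _ => sz_ne_zero (h.q_ne i)), Finsupp.finsetSum_apply,
        Nat.factorization_pow, Finsupp.smul_apply, smul_eq_mul]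
      by_cases hd : p ∣ b.num.natAbs
      · obtain ⟨h1, h2⟩ := val_of_dvd_num hp hb0 hd
        have h3 := h.sum_val_q hb0 h2
        have h4 : ((∑ i ∈ Finset.range n, (sz ((b * t i + 1) / t i)).factorization p : ℕ) : ℤ) =
            ∑ i ∈ Finset.range n, |padicValRat p ((b * t i + 1) / t i)| := by
          push_cast
          exact Finset.sum_congr rfl fun i _ => factorization_sz hp (h.q_ne i)
        rw [← h4, h1] at h3
        have h5 : ((∑ i ∈ Finset.range n, (sz ((b * t i + 1) / t i)).factorization p : ℕ) : ℤ) ≤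
            ((4 * n * b.num.natAbs.factorization p : ℕ) : ℤ) := by
          push_cast at h3 ⊢
          linarith
        exact_mod_cast h5
      · have h1 : ∀ i ∈ Finset.range n, (sz ((b * t i + 1) / t i)).factorization p = 0 := by
          intro i _
          apply Nat.factorization_eq_zero_of_not_dvd
          intro hd2
          exact hd (h.prime_dvd_sz hp i hd2)
        rw [Finset.sum_eq_zero h1]
        exact Nat.zero_le _
    · rw [Nat.factorization_eq_zero_of_not_prime _ hp]
      exact Nat.zero_le _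
  have hle := Nat.le_of_dvd (pow_pos (Nat.pos_of_ne_zero hn) _) hdvd
  have hlt : ∏ i ∈ Finset.range n, b.num.natAbs ^ 4 < ∏ i ∈ Finset.range n,
      sz ((b * t i + 1) / t i) := by
    apply Finset.prod_lt_prod_of_nonempty
    · intro i _
      exact pow_pos (Nat.pos_of_ne_zero hn) _
    · intro i _
      exact hcon i
    · exact ⟨0, Finset.mem_range.2 h.pos⟩
  rw [Finset.prod_const, Finset.card_range, ← pow_mul] at hlt
  omega

/-- **Divisibility**: the denominator of `b` divides `den² - num²` of each ratio. -/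
theorem den_dvd (h : IsTCycle b t n) (i : ℕ) :
    (b.den : ℤ) ∣ (((b * t i + 1) / t i).den : ℤ) ^ 2 - (((b * t i + 1) / t i).num) ^ 2 := by
  set q := (b * t i + 1) / t i with hq
  set q' := (b * t (i + 1) + 1) / t (i + 1) with hq'
  have hrel : b * (1 - q ^ 2) = q * (1 - q * q') := h.q_rel i
  have hqd : (q.den : ℚ) ≠ 0 := by exact_mod_cast q.den_nz
  have hqd' : (q'.den : ℚ) ≠ 0 := by exact_mod_cast q'.den_nz
  have hbd : (b.den : ℚ) ≠ 0 := by exact_mod_cast b.den_nz
  have e1 : (q.num : ℚ) / q.den = q := Rat.num_div_den q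
  have e2 : (q'.num : ℚ) / q'.den = q' := Rat.num_div_den q'
  have e3 : (b.num : ℚ) / b.den = b := Rat.num_div_den b
  have hint : (b.num : ℚ) * ((q.den : ℚ) ^ 2 - (q.num : ℚ) ^ 2) * q'.den =
      b.den * (q.num * (q.den * q'.den - q.num * q'.num)) := by
    rw [← e1, ← e2, ← e3] at hrel
    field_simp at hrel
    linarith
  have hint' : b.num * ((q.den : ℤ) ^ 2 - q.num ^ 2) * q'.den =
      b.den * (q.num * (q.den * q'.den - q.num * q'.num)) := by exact_mod_cast hint
  have hcop1 : IsCoprime (b.den : ℤ) b.num := by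
    rw [Int.isCoprime_iff_gcd_eq_one, Int.gcd_comm]
    exact b.reduced
  have hcop2 : IsCoprime (b.den : ℤ) (q'.den : ℤ) := by
    rw [Nat.isCoprime_iff_coprime]
    apply Nat.Coprime.symm
    apply Nat.coprime_of_dvd
    intro p hp hd1 hd2
    have h1 : p ∣ b.num.natAbs := h.prime_dvd_sz hp (i + 1) (Dvd.dvd.mul_left hd1 _)
    have h3 := Nat.dvd_gcd h1 hd2
    rw [b.reduced] at h3
    exact hp.one_lt.not_ge (Nat.le_of_dvd one_pos h3)
  have h1 : (b.den : ℤ) ∣ b.num * ((q.den : ℤ) ^ 2 - q.num ^ 2) * q'.den := ⟨_, hint'⟩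
  have h2 := hcop2.dvd_of_dvd_mul_right h1
  exact hcop1.dvd_of_dvd_mul_left h2

/-- if a ratio is `± 1` then the cycle is constant -/
theorem fixed_of_ratio (h : IsTCycle b t n) (i : ℕ)
    (hi : ((((b * t i + 1) / t i).den : ℤ)) ^ 2 - (((b * t i + 1) / t i).num) ^ 2 = 0) :
    t 1 = t 0 := by
  set q := (b * t i + 1) / t i with hq
  have hq2 : q ^ 2 = 1 := by
    have e1 : (q.num : ℚ) / q.den = q := Rat.num_div_den q
    have hqd : (q.den : ℚ) ≠ 0 := by exact_mod_cast q.den_nz
    have h1 : ((q.den : ℚ)) ^ 2 - (q.num : ℚ) ^ 2 = 0 := by exact_mod_cast hi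
    rw [← e1, div_pow, div_eq_one_iff_eq (pow_ne_zero 2 hqd)]
    linarith
  have h1 : t (i + 1) = t i := by
    have := h.q_sq i
    rw [← hq, hq2, one_mul] at this
    exact this.symm
  have hall : ∀ j, t j = t i := by
    apply h.all_of_step (Q := fun s => s = t i) _ i rfl
    intro j hj
    rw [h.next, hj, ← h.next, h1]
  rw [hall 1, hall 0]

end IsTCycle

end Pool.Agent.H97
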