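import Pool.Agent.H97.ManesBasic

/-!
# Local analysis of cycles of `t ↦ (b t + 1)² / t`
-/

set_option autoImplicit false

namespace Pool.Agent.H97

theorem inv_le_one {p : ℕ} [hp : Fact p.Prime] : (1 : ℚ) / p < 1 := by
  have hp1 : (1 : ℚ) < p := by exact_mod_cast hp.out.one_lt
  rw [div_lt_one (by linarith)]
  exact hp1

theorem int_dvd_of_norm {p : ℕ} [hp : Fact p.Prime] {z : ℤ} (h : padicNorm p (z : ℚ) ≤ 1 / p) :
    (p : ℤ) ∣ z := by
  rw [← padicNorm.int_lt_one_iff]
  exact lt_of_le_of_lt h inv_le_one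

theorem norm_int_le {p : ℕ} [hp : Fact p.Prime] {z : ℤ} (h : (p : ℤ) ∣ z) :
    padicNorm p (z : ℚ) ≤ 1 / p :=
  norm_le_of_lt_one ((padicNorm.int_lt_one_iff z).2 h)

/-- residue with the bound `1/p`, and nonzero for a unit -/
theorem exists_residue' {p : ℕ} [hp : Fact p.Prime] {x : ℚ} (hx : padicNorm p x = 1) :
    ∃ r : ℕ, 0 < r ∧ r < p ∧ padicNorm p (x - r) ≤ 1 / p := by
  obtain ⟨r, hr, h⟩ := exists_residue (p := p) hx.le
  refine ⟨r, ?_, hr, norm_le_of_lt_one h⟩
  rcases Nat.eq_zero_or_pos r with h0 | h0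
  · rw [h0] at h
    simp only [Nat.cast_zero, sub_zero] at h
    linarith
  · exact h0

namespace IsTCycle

variable {b : ℚ} {t : ℕ → ℚ} {n : ℕ}

/-- a property of the terms which propagates holds everywhere on a cycle -/
theorem all_of_step (h : IsTCycle b t n) {Q : ℚ → Prop} (hstep : ∀ i, Q (t i) → Q (t (i + 1)))
    (i0 : ℕ) (h0 : Q (t i0)) : ∀ i, Q (t i) := by
  have h1 : ∀ j, Q (t (i0 + j)) := by
    intro j
    induction j with
    | zero => exact h0
    | succ j ih => rw [← add_assoc]; exact hstep _ ih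
  intro i
  have e2 : t i = t (i + i0 * n) := (periodic_mul h.per _ _).symm
  have e3 : i0 ≤ i + i0 * n := by
    have := h.pos
    nlinarith
  obtain ⟨j, hj⟩ := Nat.exists_eq_add_of_le e3
  rw [e2, hj]
  exact h1 j

theorem norm_next {p : ℕ} [hp : Fact p.Prime] (h : IsTCycle b t n) (i : ℕ) :
    padicNorm p (t (i + 1)) = padicNorm p (b * t i + 1) ^ 2 / padicNorm p (t i) := by
  rw [h.next, padicNorm.div, norm_pow]

theorem unit_dichotomy {p : ℕ} [hp : Fact p.Prime] (h : IsTCycle b t n)
    (hb : padicNorm p b = 1) :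
    (∀ i, padicNorm p (t i) = 1) ∨ ∃ τ : ℚ, 1 < τ ∧ ∀ i, padicNorm p (t i) = τ := by
  have hbt : ∀ i, padicNorm p (b * t i) = padicNorm p (t i) := by
    intro i; rw [padicNorm.mul, hb, one_mul]
  have hlarge : ∀ i, 1 < padicNorm p (t i) → padicNorm p (t (i + 1)) = padicNorm p (t i) := by
    intro i hi
    rw [h.norm_next, norm_add_eq (by rw [padicNorm.one, hbt]; exact hi), hbt]
    field_simp
  have hsmall : ∀ i, padicNorm p (t i) < 1 → 1 < padicNorm p (t (i + 1)) := by
    intro i hi
    have h0 : 0 < padicNorm p (t i) := norm_pos (h.ne i)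
    rw [h.norm_next, add_comm, norm_add_eq (by rw [padicNorm.one, hbt]; exact hi),
      padicNorm.one, one_pow]
    rwa [lt_div_iff₀ h0, one_mul]
  have hex : ∀ i, 1 < padicNorm p (t i) → ∀ j, padicNorm p (t j) = padicNorm p (t i) := by
    intro i hi
    apply h.all_of_step (Q := fun s => padicNorm p s = padicNorm p (t i)) _ i rfl
    intro j hj
    rw [hlarge j (by rw [hj]; exact hi), hj]
  have hge : ∀ i, 1 ≤ padicNorm p (t i) := by
    intro i
    by_contra hcon
    push Not at hcon
    have h1 := hsmall i hcon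
    have h2 := hex (i + 1) h1 i
    rw [h2] at hcon
    linarith
  by_cases hall : ∀ i, padicNorm p (t i) = 1
  · exact Or.inl hall
  · right
    push Not at hall
    obtain ⟨i, hi⟩ := hall
    have h1 : 1 < padicNorm p (t i) := lt_of_le_of_ne (hge i) (Ne.symm hi)
    exact ⟨_, h1, hex i h1⟩

/-- In the large case the difference factors are constant modulo `p²`. -/
theorem large_K {p : ℕ} [hp : Fact p.Prime] (_h : IsTCycle b t n) {τ : ℚ} (hτ : 1 < τ)
    (ht : ∀ i, padicNorm p (t i) = τ) (i k : ℕ) :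
    padicNorm p ((b ^ 2 - 1 / (t i * t (i + k))) - b ^ 2) ≤ 1 / (p : ℚ) ^ 2 := by
  have hp0 : (0 : ℚ) < p := by exact_mod_cast hp.out.pos
  have h1 : (p : ℚ) ≤ τ := by
    have := le_norm_of_one_lt (p := p) (q := t 0) (by rw [ht 0]; exact hτ)
    rwa [ht 0] at this
  have e : (b ^ 2 - 1 / (t i * t (i + k))) - b ^ 2 = -(1 / (t i * t (i + k))) := by ring
  rw [e, padicNorm.neg, padicNorm.div, padicNorm.mul, ht, ht, padicNorm.one]
  rw [div_le_div_iff₀ (by positivity) (by positivity)]
  nlinarith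

theorem fixed_of_two_unit (h : IsTCycle b t n) (hb : padicNorm 2 b = 1) : t 1 = t 0 := by
  have : Fact (Nat.Prime 2) := ⟨Nat.prime_two⟩
  have hb1 : padicNorm 2 (b - 1) ≤ 1 / 2 := by
    obtain ⟨r, hr0, hr, h1⟩ := exists_residue' (p := 2) hb
    have : r = 1 := by omega
    rw [this] at h1
    simpa using h1
  have hb2 : padicNorm 2 (b + 1) ≤ 1 / 2 := by
    have e : b + 1 = (b - 1) + (2 : ℤ) := by push_cast; ring
    rw [e]
    apply norm_add_le hb1
    have := norm_int_le (p := 2) (z := 2) (by norm_num)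
    simpa using this
  have hbb : padicNorm 2 (b ^ 2 - 1) ≤ 1 / (2 : ℚ) ^ 2 := by
    have e : b ^ 2 - 1 = (b - 1) * (b + 1) := by ring
    rw [e]
    calc _ ≤ 1 / 2 * (1 / 2 : ℚ) := norm_mul_le hb1 hb2
      _ = _ := by norm_num
  rcases h.unit_dichotomy hb with hall | ⟨τ, hτ, ht⟩
  · exfalso
    have hu : padicNorm 2 (b * t 0) = 1 := by rw [padicNorm.mul, hb, hall 0, one_mul]
    obtain ⟨r, hr0, hr, h1⟩ := exists_residue' (p := 2) hu
    have hr1 : r = 1 := by omega
    rw [hr1] at h1
    have h2 : padicNorm 2 (b * t 0 + 1) ≤ 1 / 2 := by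
      have e : b * t 0 + 1 = (b * t 0 - (1 : ℕ)) + (2 : ℤ) := by push_cast; ring
      rw [e]
      apply norm_add_le (by exact_mod_cast h1)
      have := norm_int_le (p := 2) (z := 2) (by norm_num)
      simpa using this
    have h3 := h.norm_next (p := 2) 0
    rw [hall, hall, div_one] at h3
    have h4 : padicNorm 2 (b * t 0 + 1) ^ 2 ≤ (1 / 2) ^ 2 :=
      pow_le_pow_left₀ (padicNorm.nonneg _) h2 2
    rw [← h3] at h4
    norm_num at h4
  · have hK : ∀ i k, padicNorm 2 ((b ^ 2 - 1 / (t i * t (i + k))) - 1) ≤ 1 / ((2 : ℕ) : ℚ) ^ 2 :=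
      fun i k => norm_tri (h.large_K hτ ht i k) (by exact_mod_cast hbb)
    refine no_cycle (p := 2) t n h.pos h.per _ h.diff (fun i k => (hK i k).trans ?_) (Or.inl hK)
    norm_num

theorem fixed_of_three_unit (h : IsTCycle b t n) (hb : padicNorm 3 b = 1) : t 1 = t 0 := by
  have : Fact (Nat.Prime 3) := ⟨Nat.prime_three⟩
  rcases h.unit_dichotomy hb with hall | ⟨τ, hτ, ht⟩
  · -- all terms are units
    have hu1 : ∀ i, padicNorm 3 (b * t i) = 1 := fun i => by
      rw [padicNorm.mul, hb, hall i, one_mul]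
    have hu : ∀ i, padicNorm 3 (b * t i - 1) ≤ 1 / (3 : ℕ) := by
      intro i
      obtain ⟨r, hr0, hr, h1⟩ := exists_residue' (p := 3) (hu1 i)
      have hr1 : r = 1 ∨ r = 2 := by omega
      rcases hr1 with hr1 | hr1
      · rw [hr1] at h1
        exact_mod_cast h1
      · exfalso
        rw [hr1] at h1
        have h2 : padicNorm 3 (b * t i + 1) ≤ 1 / (3 : ℕ) := by
          have e : b * t i + 1 = (b * t i - (2 : ℕ)) + (3 : ℤ) := by push_cast; ring
          rw [e]
          exact norm_add_le h1 (norm_int_le (by norm_num))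
        have h3 := h.norm_next (p := 3) i
        rw [hall, hall, div_one] at h3
        have h4 := pow_le_pow_left₀ (padicNorm.nonneg _) h2 2
        rw [← h3] at h4
        norm_num at h4
    refine contract (p := 3) t n h.pos h.per _ (fun i => h.diff i 1) ?_
    intro i
    have e : b ^ 2 - 1 / (t i * t (i + 1)) =
        b ^ 2 * ((b * t i) * (b * t (i + 1)) - 1) / ((b * t i) * (b * t (i + 1))) := by
      have h1 := h.ne i
      have h2 := h.ne (i + 1)
      have h3 : b ≠ 0 := by
        rintro rfl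
        rw [padicNorm.zero] at hb
        norm_num at hb
      field_simp
    rw [e, padicNorm.div, padicNorm.mul, padicNorm.mul (b * t i), hu1, hu1, norm_pow, hb, one_pow,
      one_mul, one_mul, div_one]
    have h2 : padicNorm 3 ((b * t i) * (b * t (i + 1)) - 1 * 1) ≤ 1 / (3 : ℕ) :=
      mul_congr (by positivity) (hu i) (hu (i + 1)) (by simp) (hu1 _).le
    rw [one_mul] at h2
    exact lt_of_le_of_lt h2 inv_le_one
  · have hbb : padicNorm 3 (b ^ 2 - 1) ≤ 1 / (3 : ℕ) := by
      obtain ⟨r, hr0, hr, h1⟩ := exists_residue' (p := 3) hb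
      have e : b ^ 2 - 1 = (b * b - (r : ℚ) * r) + ((r * r - 1 : ℤ) : ℚ) := by push_cast; ring
      rw [e]
      apply norm_add_le
      · exact mul_congr (by positivity) h1 h1 (padicNorm.of_nat r) hb.le
      · apply norm_int_le
        have hr1 : r = 1 ∨ r = 2 := by omega
        rcases hr1 with rfl | rfl <;> norm_num
    refine no_cycle (p := 3) t n h.pos h.per _ h.diff (fun i k => ?_) (Or.inr ⟨by norm_num, ?_⟩)
    · refine norm_tri ((h.large_K hτ ht i k).trans ?_) hbb
      norm_num
    · intro i j k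
      refine norm_tri (h.large_K hτ ht i k) ?_
      rw [norm_sub_comm]
      exact h.large_K hτ ht j k

theorem fixed_of_two_two (h : IsTCycle b t n) (hb : padicNorm 2 b = 2) : t 1 = t 0 := by
  have : Fact (Nat.Prime 2) := ⟨Nat.prime_two⟩
  have hb0 : b ≠ 0 := by
    rintro rfl
    rw [padicNorm.zero] at hb
    norm_num at hb
  -- no term with |b t| > 1
  have hle : ∀ i, padicNorm 2 (b * t i) ≤ 1 := by
    intro i
    by_contra hcon
    push Not at hcon
    -- then the norms strictly increase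
    have hstep : ∀ j, 1 < padicNorm 2 (b * t j) →
        padicNorm 2 (t (j + 1)) = 4 * padicNorm 2 (t j) := by
      intro j hj
      rw [h.norm_next, norm_add_eq (by rw [padicNorm.one]; exact hj), padicNorm.mul, hb]
      have := norm_pos (p := 2) (h.ne j)
      field_simp
      ring
    have hall : ∀ j, 1 < padicNorm 2 (b * t j) := by
      apply h.all_of_step (Q := fun s => 1 < padicNorm 2 (b * s)) _ i hcon
      intro j hj
      rw [padicNorm.mul, hstep j hj]
      rw [padicNorm.mul] at hj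
      have := norm_pos (p := 2) (h.ne j)
      nlinarith [norm_pos (p := 2) hb0]
    have hpow : ∀ j, padicNorm 2 (t j) = 4 ^ j * padicNorm 2 (t 0) := by
      intro j
      induction j with
      | zero => simp
      | succ j ih => rw [hstep j (hall j), ih, pow_succ]; ring
    have h1 := hpow n
    have h2 : t n = t 0 := by have := h.per 0; rwa [zero_add] at this
    rw [h2] at h1
    have h3 := norm_pos (p := 2) (h.ne 0)
    have h4 : (4 : ℚ) ^ n = 1 := by
      have : (4 : ℚ) ^ n * padicNorm 2 (t 0) = 1 * padicNorm 2 (t 0) := by rw [one_mul, ← h1]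
      exact mul_right_cancel₀ h3.ne' this
    have h5 : (1 : ℚ) < 4 ^ n := one_lt_pow₀ (by norm_num) h.pos.ne'
    linarith
  have hbt : ∀ i, padicNorm 2 (b * t i) = 1 := by
    intro i
    by_contra hcon
    have hlt : padicNorm 2 (b * t i) < 1 := lt_of_le_of_ne (hle i) hcon
    have h1 : padicNorm 2 (t (i + 1)) = 1 / padicNorm 2 (t i) := by
      rw [h.norm_next, add_comm, norm_add_eq (by rw [padicNorm.one]; exact hlt), padicNorm.one,
        one_pow]
    have h2 := hle (i + 1)
    have h3 := norm_pos (p := 2) (h.ne i)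
    rw [padicNorm.mul, h1, hb] at h2
    rw [padicNorm.mul, hb] at hlt
    rw [mul_one_div, div_le_one h3] at h2
    linarith
  have ht : ∀ i, padicNorm 2 (t i) = 1 / 2 := by
    intro i
    have := hbt i
    rw [padicNorm.mul, hb] at this
    linarith
  -- |b t + 1| = 1/2
  have hb1 : ∀ i, padicNorm 2 (b * t i + 1) = 1 / 2 := by
    intro i
    have h1 := h.norm_next (p := 2) i
    rw [ht, ht] at h1
    have h2 : padicNorm 2 (b * t i + 1) ^ 2 = (1 / 2) ^ 2 := by
      field_simp at h1
      linarith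
    exact (pow_left_inj₀ (padicNorm.nonneg _) (by norm_num) (by norm_num)).1 h2
  -- squares of units are 1 mod 8
  have hsq : ∀ w : ℚ, padicNorm 2 w = 1 → padicNorm 2 (w ^ 2 - 1) ≤ 1 / 8 := by
    intro w hw
    obtain ⟨r, hr0, hr, h1⟩ := exists_residue' (p := 2) hw
    have hr1 : r = 1 := by omega
    rw [hr1] at h1
    -- w = 1 + 2 s
    set s := (w - 1) / 2 with hs
    have hw' : w = 1 + 2 * s := by rw [hs]; ring
    have hn2 : padicNorm 2 (2 : ℚ) = 1 / 2 := by
      have := padicNorm.padicNorm_p_of_prime (p := 2)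
      rw [one_div]
      exact_mod_cast this
    have hs1 : padicNorm 2 s ≤ 1 := by
      rw [hs, padicNorm.div, hn2]
      rw [div_le_one (by norm_num)]
      exact_mod_cast h1
    have hss : padicNorm 2 (s * (s + 1)) ≤ 1 / 2 := by
      obtain ⟨r', hr', h2⟩ := exists_residue (p := 2) hs1
      have h2' := norm_le_of_lt_one h2
      have hs2 : padicNorm 2 (s + 1) ≤ 1 := norm_add_le hs1 (by simp)
      have hr2 : r' = 0 ∨ r' = 1 := by omega
      rcases hr2 with rfl | rfl
      · have h3 : padicNorm 2 s ≤ 1 / 2 := by simpa using h2'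
        calc _ ≤ 1 / 2 * (1 : ℚ) := norm_mul_le h3 hs2
          _ = _ := by norm_num
      · have h3 : padicNorm 2 (s + 1) ≤ 1 / 2 := by
          have e : s + 1 = (s - (1 : ℕ)) + 2 := by push_cast; ring
          rw [e]
          exact norm_add_le (by exact_mod_cast h2') hn2.le
        calc _ ≤ 1 * (1 / 2 : ℚ) := norm_mul_le hs1 h3
          _ = _ := by norm_num
    have e : w ^ 2 - 1 = 2 * 2 * (s * (s + 1)) := by rw [hw']; ring
    rw [e]
    calc _ ≤ 1 / 2 * (1 / 2) * (1 / 2 : ℚ) := norm_mul_le (norm_mul_le hn2.le hn2.le) hss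
      _ = _ := by norm_num
  -- u_{i+1} u_i is a square of a unit
  have huu : ∀ i, padicNorm 2 ((b * t (i + 1)) * (b * t i) - 1) ≤ 1 / 8 := by
    intro i
    have e : (b * t (i + 1)) * (b * t i) = (b * (b * t i + 1)) ^ 2 := by
      have := h.next_mul i
      linear_combination b ^ 2 * this
    rw [e]
    apply hsq
    rw [padicNorm.mul, hb, hb1]
    norm_num
  refine contract (p := 2) t n h.pos h.per _ (fun i => h.diff i 1) ?_
  intro i
  have e : b ^ 2 - 1 / (t i * t (i + 1)) =
      b ^ 2 * ((b * t (i + 1)) * (b * t i) - 1) / ((b * t i) * (b * t (i + 1))) := by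
    have h1 := h.ne i
    have h2 := h.ne (i + 1)
    field_simp
  rw [e, padicNorm.div, padicNorm.mul, padicNorm.mul (b * t i), hbt, hbt, norm_pow, hb, one_mul,
    div_one]
  have := huu i
  calc (2 : ℚ) ^ 2 * padicNorm 2 ((b * t (i + 1)) * (b * t i) - 1) ≤ 2 ^ 2 * (1 / 8) :=
        mul_le_mul_of_nonneg_left this (by norm_num)
    _ < 1 := by norm_num

end IsTCycle

end Pool.Agent.H97
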