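import Pool.Agent.H97.ManesGlobal

/-!
# Prime power numerators
-/

set_option autoImplicit false

namespace Pool.Agent.H97

theorem sq_inj_nonneg {a b : ℚ} (ha : 0 ≤ a) (hb : 0 ≤ b) (h : a ^ 2 = b ^ 2) : a = b :=
  (pow_left_inj₀ ha hb (by norm_num : 2 ≠ 0)).1 h

/-- a nonzero rational which is `p`-integral for all `p` has absolute value at least one -/
theorem one_le_abs_of_norms {q : ℚ} (hq : q ≠ 0)
    (h : ∀ p : ℕ, p.Prime → padicNorm p q ≤ 1) : 1 ≤ |q| := by
  have hden : q.den = 1 := by
    by_contra hne
    obtain ⟨p, hp, hd⟩ := Nat.exists_prime_and_dvd hne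
    have : Fact p.Prime := ⟨hp⟩
    have h1 : padicNorm p (q.den : ℚ) < 1 := (padicNorm.nat_lt_one_iff q.den).2 hd
    have h2 : padicNorm p (q.num : ℚ) = 1 := by
      rw [padicNorm.int_eq_one_iff]
      intro h3
      have h4 : p ∣ q.num.natAbs := Int.natCast_dvd.1 h3
      have h5 := Nat.dvd_gcd h4 hd
      rw [q.reduced] at h5
      exact hp.one_lt.not_ge (Nat.le_of_dvd one_pos h5)
    have h4 : padicNorm p q = padicNorm p (q.num : ℚ) / padicNorm p (q.den : ℚ) := by
      rw [← padicNorm.div, Rat.num_div_den]
    have h5 : 0 < padicNorm p (q.den : ℚ) := norm_pos (by exact_mod_cast q.den_nz)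
    have h6 := h p hp
    rw [h4, h2, div_le_one h5] at h6
    linarith
  have h1 : q = (q.num : ℚ) := by
    have := Rat.num_div_den q
    rw [hden] at this
    simpa using this.symm
  rw [h1]
  have h2 : q.num ≠ 0 := Rat.num_ne_zero.2 hq
  have h3 : (1 : ℤ) ≤ |q.num| := Int.one_le_abs h2
  calc (1 : ℚ) ≤ ((|q.num| : ℤ) : ℚ) := by exact_mod_cast h3
    _ = |(q.num : ℚ)| := by push_cast; rfl

namespace IsTCycle

variable {b : ℚ} {t : ℕ → ℚ} {n : ℕ}

/-- consecutive terms have the same sign -/
theorem mul_next_nonneg (h : IsTCycle b t n) (i : ℕ) : 0 < t i * t (i + 1) := by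
  have h1 := h.next_mul i
  have h2 : 0 ≤ t i * t (i + 1) := by rw [mul_comm, h1]; positivity
  exact lt_of_le_of_ne h2 (Ne.symm (mul_ne_zero (h.ne i) (h.ne (i + 1))))

/-- at a prime where `b` is not integral, all terms have the same norm -/
theorem norm_of_pole {p : ℕ} [hp : Fact p.Prime] (h : IsTCycle b t n)
    (hb : 1 < padicNorm p b) (i : ℕ) : padicNorm p (b * t i) = 1 := by
  set β := padicNorm p b with hβ
  have hβ0 : 0 < β := by linarith
  have hpos : ∀ i, 0 < padicNorm p (b * t i) := by
    intro i
    rw [padicNorm.mul]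
    exact mul_pos hβ0 (norm_pos (h.ne i))
  have hrec : ∀ i, padicNorm p (b * t (i + 1)) =
      β ^ 2 * padicNorm p (b * t i + 1) ^ 2 / padicNorm p (b * t i) := by
    intro i
    have h1 : 0 < padicNorm p (t i) := norm_pos (h.ne i)
    rw [padicNorm.mul, h.norm_next, padicNorm.mul, ← hβ]
    field_simp
  have hle : ∀ i, padicNorm p (b * t i) ≤ 1 := by
    intro i
    by_contra hcon
    push Not at hcon
    have hall : ∀ j, 1 < padicNorm p (b * t j) := by
      apply h.all_of_step (Q := fun s => 1 < padicNorm p (b * s)) _ i hcon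
      intro j hj
      have h1 : padicNorm p (b * t j + 1) = padicNorm p (b * t j) :=
        norm_add_eq (by rw [padicNorm.one]; exact hj)
      rw [hrec j, h1]
      have h2 : β ^ 2 * padicNorm p (b * t j) ^ 2 / padicNorm p (b * t j) =
        β ^ 2 * padicNorm p (b * t j) := by field_simp
      rw [h2]
      nlinarith
    have hinc : StrictMono (fun j => padicNorm p (b * t j)) := by
      apply strictMono_nat_of_lt_succ
      intro j
      have hj := hall j
      have h1 : padicNorm p (b * t j + 1) = padicNorm p (b * t j) :=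
        norm_add_eq (by rw [padicNorm.one]; exact hj)
      show padicNorm p (b * t j) < padicNorm p (b * t (j + 1))
      rw [hrec j, h1]
      have h2 : β ^ 2 * padicNorm p (b * t j) ^ 2 / padicNorm p (b * t j) =
        β ^ 2 * padicNorm p (b * t j) := by field_simp
      rw [h2]
      exact lt_mul_of_one_lt_left (by linarith) (one_lt_pow₀ hb (by norm_num))
    have h3 := hinc h.pos
    simp only at h3
    have h4 := h.per 0
    rw [zero_add] at h4
    rw [h4] at h3
    exact lt_irrefl _ h3
  by_contra hne
  have hlt : padicNorm p (b * t i) < 1 := lt_of_le_of_ne (hle i) hne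
  have h1 : padicNorm p (b * t i + 1) = 1 := by
    rw [add_comm, norm_add_eq (by rw [padicNorm.one]; exact hlt), padicNorm.one]
  have h2 := hle (i + 1)
  rw [hrec i, h1, div_le_one (hpos i)] at h2
  nlinarith

/-- at a prime not dividing the numerator of `b` the norms of the terms are constant -/
theorem norm_const_of_ge {p : ℕ} [hp : Fact p.Prime] (h : IsTCycle b t n)
    (hb : 1 ≤ padicNorm p b) (i j : ℕ) : padicNorm p (t i) = padicNorm p (t j) := by
  rcases hb.eq_or_lt with h1 | h1
  · rcases h.unit_dichotomy h1.symm with h2 | ⟨τ, _, h2⟩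
    · rw [h2, h2]
    · rw [h2, h2]
  · have e1 := h.norm_of_pole h1 i
    have e2 := h.norm_of_pole h1 j
    rw [padicNorm.mul] at e1 e2
    have h3 : 0 < padicNorm p b := by linarith
    have : padicNorm p b * padicNorm p (t i) = padicNorm p b * padicNorm p (t j) := by
      rw [e1, e2]
    exact mul_left_cancel₀ h3.ne' this

/-- **Key local step** at a prime dividing the numerator of `b`. -/
theorem norm_inv_or {p : ℕ} [hp : Fact p.Prime] (h : IsTCycle b t n) {B : ℚ} (hB1 : 1 < B)
    (hb : padicNorm p b = 1 / B) :
    (∀ i, padicNorm p (t (i + 1)) = 1 / padicNorm p (t i)) ∨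
      ∃ i, padicNorm p (t i) = B ^ 3 ∧ padicNorm p (t (i + 1)) = B := by
  have hB0 : 0 < B := by linarith
  have hτ : ∀ i, 0 < padicNorm p (t i) := fun i => norm_pos (h.ne i)
  have hbt : ∀ i, padicNorm p (b * t i) = padicNorm p (t i) / B := by
    intro i; rw [padicNorm.mul, hb]; ring
  have hsmall : ∀ i, padicNorm p (t i) < B → padicNorm p (t (i + 1)) = 1 / padicNorm p (t i) := by
    intro i hi
    have h1 : padicNorm p (b * t i + 1) = 1 := by
      rw [add_comm, norm_add_eq, padicNorm.one]
      rw [padicNorm.one, hbt, div_lt_one hB0]; exact hi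
    rw [h.norm_next, h1]; norm_num
  have hlarge : ∀ i, B < padicNorm p (t i) →
      padicNorm p (t (i + 1)) = padicNorm p (t i) / B ^ 2 := by
    intro i hi
    have h1 : padicNorm p (b * t i + 1) = padicNorm p (t i) / B := by
      rw [norm_add_eq, hbt]
      rw [padicNorm.one, hbt, one_lt_div hB0]; exact hi
    have := hτ i
    rw [h.norm_next, h1]
    field_simp
  have heq : ∀ i, padicNorm p (t i) = B → padicNorm p (t (i + 1)) ≤ 1 / B := by
    intro i hi
    have h1 : padicNorm p (b * t i + 1) ≤ 1 := by
      apply norm_add_le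
      · rw [hbt, hi, div_self hB0.ne']
      · rw [padicNorm.one]
    have h2 := padicNorm.nonneg (p := p) (b * t i + 1)
    rw [h.norm_next, hi]
    apply div_le_div_of_nonneg_right _ hB0.le
    nlinarith
  by_cases hex : ∃ i, B < padicNorm p (t i)
  · right
    obtain ⟨i0, hi0⟩ := hex
    -- there is an index leaving the region
    have hleave : ∃ i, B < padicNorm p (t i) ∧ padicNorm p (t (i + 1)) ≤ B := by
      by_contra hcon
      push Not at hcon
      have hall : ∀ j, B < padicNorm p (t j) := by
        apply h.all_of_step (Q := fun s => B < padicNorm p s) _ i0 hi0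
        intro j hj
        exact hcon j hj
      have hdec : ∀ j, padicNorm p (t (j + 1)) < padicNorm p (t j) := by
        intro j
        rw [hlarge j (hall j)]
        apply div_lt_self (hτ j)
        nlinarith
      have h1 : StrictAnti (fun j => padicNorm p (t j)) := strictAnti_nat_of_succ_lt hdec
      have h2 := h1 h.pos
      simp only at h2
      have h3 := h.per 0
      rw [zero_add] at h3
      rw [h3] at h2
      exact lt_irrefl _ h2
    obtain ⟨i, hi1, hi2⟩ := hleave
    have hv := hlarge i hi1
    have hgt : 1 / B < padicNorm p (t (i + 1)) := by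
      rw [hv, div_lt_div_iff₀ hB0 (by positivity)]
      nlinarith
    have hfin : padicNorm p (t (i + 1)) = B := by
      by_contra hne
      have hlt : padicNorm p (t (i + 1)) < B := lt_of_le_of_ne hi2 hne
      have hall : ∀ j, 1 / B < padicNorm p (t j) ∧ padicNorm p (t j) < B := by
        apply h.all_of_step (Q := fun s => 1 / B < padicNorm p s ∧ padicNorm p s < B) _ (i + 1)
          ⟨hgt, hlt⟩
        intro j hj
        rw [hsmall j hj.2]
        refine ⟨one_div_lt_one_div_of_lt (hτ j) hj.2, ?_⟩
        have := hj.1
        rw [div_lt_iff₀ hB0] at this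
        rw [div_lt_iff₀ (hτ j)]
        linarith
      exact absurd (hall i).2 (not_lt.2 hi1.le)
    refine ⟨i, ?_, hfin⟩
    rw [hv] at hfin
    have hB2 : B ^ 2 ≠ 0 := by positivity
    field_simp at hfin
    linarith
  · left
    push Not at hex
    intro i
    rcases (hex i).lt_or_eq with h1 | h1
    · exact hsmall i h1
    · have h2 := heq i h1
      rcases h2.lt_or_eq with h3 | h3
      · exfalso
        have h4 : padicNorm p (t (i + 1)) < B := by
          refine lt_trans h3 ?_
          rw [div_lt_iff₀ hB0]; nlinarith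
        have h5 := hsmall (i + 1) h4
        have h6 := hex (i + 1 + 1)
        rw [h5, div_le_iff₀ (hτ _)] at h6
        rw [lt_div_iff₀ hB0] at h3
        linarith
      · rw [h3, h1]

/-- if all norms are eventually inverted or constant, then `t 2 = t 0` -/
theorem two_of_norms (h : IsTCycle b t n)
    (hn : ∀ p : ℕ, p.Prime → padicNorm p (t 2) = padicNorm p (t 0)) : t 2 = t 0 := by
  rcases eq_or_neg_of_norms (h.ne 2) (h.ne 0) hn with h1 | h1
  · exact h1
  · exfalso
    have e1 := h.mul_next_nonneg 0
    have e2 := h.mul_next_nonneg 1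
    simp only [zero_add] at e1
    rw [show (1 : ℕ) + 1 = 2 by rfl, h1] at e2
    nlinarith

/-- **Prime power numerator**: `t 2 = t 0`. -/
theorem two_of_prime_pow (h : IsTCycle b t n) {p k : ℕ} (hp : p.Prime)
    (hbp : b.num.natAbs = p ^ k) : t 2 = t 0 := by
  have hpf : Fact p.Prime := ⟨hp⟩
  have hp1 : (1 : ℚ) < p := by exact_mod_cast hp.one_lt
  -- primes not dividing the numerator
  have hge : ∀ q : ℕ, q.Prime → ¬ q ∣ b.num.natAbs → 1 ≤ padicNorm q b := by
    intro q hq hd
    have : Fact q.Prime := ⟨hq⟩
    have h1 : padicNorm q (b.num : ℚ) = 1 := by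
      rw [padicNorm.int_eq_one_iff]
      intro h3
      exact hd (Int.natCast_dvd.1 h3)
    have h2 : padicNorm q (b.den : ℚ) ≤ 1 := padicNorm.of_nat b.den
    have h3 : 0 < padicNorm q (b.den : ℚ) := norm_pos (by exact_mod_cast b.den_nz)
    have h4 : padicNorm q b = padicNorm q (b.num : ℚ) / padicNorm q (b.den : ℚ) := by
      rw [← padicNorm.div, Rat.num_div_den]
    rw [h4, h1, le_div_iff₀ h3]
    linarith
  rcases Nat.eq_zero_or_pos k with hk | hk
  · apply h.two_of_norms
    intro q hq
    have : Fact q.Prime := ⟨hq⟩
    refine h.norm_const_of_ge (hge q hq ?_) 2 0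
    rw [hbp, hk, pow_zero]
    intro hd
    exact hq.one_lt.not_ge (Nat.le_of_dvd one_pos hd)
  · set B : ℚ := (p : ℚ) ^ k with hB
    have hB1 : 1 < B := one_lt_pow₀ hp1 hk.ne'
    have hB0 : 0 < B := by linarith
    have hother : ∀ q : ℕ, q.Prime → q ≠ p → 1 ≤ padicNorm q b := by
      intro q hq hne
      apply hge q hq
      rw [hbp]
      intro hd
      exact hne ((Nat.prime_dvd_prime_iff_eq hq hp).1 (hq.dvd_of_dvd_pow hd))
    have hpd : ¬ p ∣ b.den := by
      intro hd
      have h5 := Nat.dvd_gcd (show p ∣ b.num.natAbs by rw [hbp]; exact dvd_pow_self p hk.ne') hd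
      rw [b.reduced] at h5
      exact hp.one_lt.not_ge (Nat.le_of_dvd one_pos h5)
    have hnumabs : |(b.num : ℚ)| = B := by
      have h1 : ((b.num.natAbs : ℕ) : ℚ) = |(b.num : ℚ)| := by
        rw [Nat.cast_natAbs]; push_cast; rfl
      rw [← h1, hbp]; push_cast; rfl
    have hnormB : padicNorm p B = 1 / B := by
      rw [hB, norm_pow, padicNorm.padicNorm_p_of_prime, inv_pow, one_div]
    have hbn : padicNorm p b = 1 / B := by
      have h4 : padicNorm p b = padicNorm p (b.num : ℚ) / padicNorm p (b.den : ℚ) := by
        rw [← padicNorm.div, Rat.num_div_den]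
      rw [h4, (padicNorm.nat_eq_one_iff b.den).2 hpd, div_one, ← hnormB]
      rcases abs_choice (b.num : ℚ) with h5 | h5
      · rw [← h5, hnumabs]
      · rw [← padicNorm.neg, ← h5, hnumabs]
    have hbabs : |b| ≤ B := by
      have h1 : |b| = |(b.num : ℚ)| / (b.den : ℚ) := by
        nth_rewrite 1 [← Rat.num_div_den b]
        rw [abs_div, Nat.abs_cast]
      have h2 : (1 : ℚ) ≤ b.den := by exact_mod_cast b.den_pos
      rw [h1, hnumabs]
      exact div_le_self hB0.le h2
    rcases h.norm_inv_or hB1 hbn with hinv | ⟨i, hi1, hi2⟩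
    · apply h.two_of_norms
      intro q hq
      by_cases hqp : q = p
      · subst hqp
        have e1 := hinv 0
        have e2 := hinv 1
        simp only [zero_add] at e1
        rw [show (1 : ℕ) + 1 = 2 by rfl, e1] at e2
        rw [e2]
        simp
      · have : Fact q.Prime := ⟨hq⟩
        exact h.norm_const_of_ge (hother q hq hqp) 2 0
    · exfalso
      set w0 := b * t i + 1 with hw0
      set w := b * t (i + 1) + 1 with hw
      have hm0 : t (i + 1) * t i = w0 ^ 2 := h.next_mul i
      have hm1 : t (i + 1 + 1) * t (i + 1) = w ^ 2 := h.next_mul (i + 1)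
      have ht0 := h.ne i
      have ht1 := h.ne (i + 1)
      have ht2 := h.ne (i + 1 + 1)
      have hw0n : w0 ≠ 0 := by
        intro h0
        rw [h0] at hm0
        exact (mul_ne_zero ht1 ht0) (by rw [hm0]; norm_num)
      have hwn : w ≠ 0 := by
        intro h0
        rw [h0] at hm1
        exact (mul_ne_zero ht2 ht1) (by rw [hm1]; norm_num)
      -- w0 = ± t(i+1) / B
      have hA : t (i + 1) = B * w0 ∨ t (i + 1) = -(B * w0) := by
        apply eq_or_neg_of_norms ht1 (mul_ne_zero hB0.ne' hw0n)
        intro q hq
        have : Fact q.Prime := ⟨hq⟩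
        by_cases hqp : q = p
        · subst hqp
          have e1 : padicNorm q w0 ^ 2 = (B ^ 2) ^ 2 := by
            rw [← norm_pow, ← hm0, padicNorm.mul, hi1, hi2]; ring
          have e2 := sq_inj_nonneg (padicNorm.nonneg _) (by positivity) e1
          rw [padicNorm.mul, hnormB, hi2, e2]
          field_simp
        · have e0 := h.norm_const_of_ge (hother q hq hqp) i (i + 1)
          have e1 : padicNorm q w0 ^ 2 = padicNorm q (t (i + 1)) ^ 2 := by
            rw [← norm_pow, ← hm0, padicNorm.mul, e0]; ring
          have e2 := sq_inj_nonneg (padicNorm.nonneg _) (padicNorm.nonneg _) e1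
          have e3 : padicNorm q B = 1 := by
            rw [hB, norm_pow]
            have : padicNorm q (p : ℚ) = 1 :=
              (padicNorm.nat_eq_one_iff p).2 (fun hd => hqp ((Nat.prime_dvd_prime_iff_eq hq hp).1 hd))
            rw [this, one_pow]
          rw [padicNorm.mul, e3, e2, one_mul]
      -- |w| ≥ B |t (i+1)|
      have hC : B * |t (i + 1)| ≤ |w| := by
        have h1 : 1 ≤ |w / (B * t (i + 1))| := by
          apply one_le_abs_of_norms (div_ne_zero hwn (mul_ne_zero hB0.ne' ht1))
          intro q hq
          have : Fact q.Prime := ⟨hq⟩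
          rw [padicNorm.div, padicNorm.mul]
          by_cases hqp : q = p
          · subst hqp
            rw [hnormB, hi2]
            have e1 : padicNorm q w ≤ 1 := by
              apply norm_add_le
              · rw [padicNorm.mul, hbn, hi2]
                field_simp
                exact le_refl _
              · rw [padicNorm.one]
            rw [one_div, inv_mul_cancel₀ hB0.ne', div_one]
            exact e1
          · have e0 := h.norm_const_of_ge (hother q hq hqp) (i + 1 + 1) (i + 1)
            have e1 : padicNorm q w ^ 2 = padicNorm q (t (i + 1)) ^ 2 := by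
              rw [← norm_pow, ← hm1, padicNorm.mul, e0]; ring
            have e2 := sq_inj_nonneg (padicNorm.nonneg _) (padicNorm.nonneg _) e1
            have e3 : padicNorm q B = 1 := by
              rw [hB, norm_pow]
              have : padicNorm q (p : ℚ) = 1 :=
                (padicNorm.nat_eq_one_iff p).2 (fun hd => hqp ((Nat.prime_dvd_prime_iff_eq hq hp).1 hd))
              rw [this, one_pow]
            rw [e3, e2, one_mul, div_self (padicNorm.nonzero ht1)]
        rw [abs_div, abs_mul, abs_of_pos hB0,
          le_div_iff₀ (mul_pos hB0 (abs_pos.2 ht1)), one_mul] at h1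
        exact h1
      -- the real contradiction
      set T := |t (i + 1)| with hT
      have hT0 : 0 < T := abs_pos.2 ht1
      have hbb := abs_le.1 hbabs
      -- t i and t (i+1) have the same sign, t i = t (i+1) / B²
      have hti : t i = t (i + 1) / B ^ 2 := by
        have hsq : t (i + 1) ^ 2 = B ^ 2 * w0 ^ 2 := by
          rcases hA with h1 | h1 <;> rw [h1] <;> ring
        have h1 : t (i + 1) * (t i * B ^ 2) = t (i + 1) * t (i + 1) := by
          linear_combination B ^ 2 * hm0 - hsq
        have h2 := mul_left_cancel₀ ht1 h1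
        field_simp
        linarith
      have hw0' : B ^ 2 * w0 = b * t (i + 1) + B ^ 2 := by
        rw [hw0, hti]; field_simp
      have hBB : B ^ 2 > 1 := by nlinarith
      rcases lt_or_gt_of_ne ht1 with hneg | hpos
      · -- t (i+1) < 0
        have hTe : T = -t (i + 1) := abs_of_neg hneg
        have hw' : w = 1 - b * T := by rw [hw, hTe]; ring
        have hB2 : B ^ 2 * w0 = B ^ 2 - b * T := by rw [hw0', hTe]; ring
        have hABt : B ^ 2 * w0 = B * T ∨ B ^ 2 * w0 = -(B * T) := by
          rcases hA with h1 | h1
          · right; rw [hTe, h1]; ring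
          · left; rw [hTe, h1]; ring
        rcases hABt with h1 | h1
        · -- B² = T (B + b)
          have e1 : B ^ 2 = T * (B + b) := by linarith
          rcases le_abs'.1 hC with h2 | h2
          · -- 1 - bT ≤ - B T
            have : 0 ≤ T * (B - b) := mul_nonneg hT0.le (by linarith [hbb.2])
            nlinarith
          · nlinarith
        · have e1 : B ^ 2 = T * (b - B) := by linarith
          have : T * (b - B) ≤ 0 := mul_nonpos_of_nonneg_of_nonpos hT0.le (by linarith [hbb.2])
          nlinarith
      · have hTe : T = t (i + 1) := abs_of_pos hpos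
        have hw' : w = 1 + b * T := by rw [hw, hTe]; ring
        have hB2 : B ^ 2 * w0 = B ^ 2 + b * T := by rw [hw0', hTe]; ring
        have hABt : B ^ 2 * w0 = B * T ∨ B ^ 2 * w0 = -(B * T) := by
          rcases hA with h1 | h1
          · left; rw [hTe, h1]; ring
          · right; rw [hTe, h1]; ring
        rcases hABt with h1 | h1
        · have e1 : B ^ 2 = T * (B - b) := by linarith
          rcases le_abs'.1 hC with h2 | h2
          · have : 0 ≤ T * (B + b) := mul_nonneg hT0.le (by linarith [hbb.1])
            nlinarith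
          · nlinarith
        · have e1 : B ^ 2 = T * (-b - B) := by linarith
          have : T * (-b - B) ≤ 0 := mul_nonpos_of_nonneg_of_nonpos hT0.le (by linarith [hbb.1])
          nlinarith

end IsTCycle

end Pool.Agent.H97
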