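import Pool.Agent.H97.ManesBasic

/-!
# Preperiodic points when all cycles are `f(x) = ± x`
-/

set_option autoImplicit false

namespace Pool.Agent.H97

/-- the set of rational preperiodic points: points with finite forward orbit -/
def prePer (b c : ℚ) : Set (Option ℚ) :=
  {P | (Set.range (fun n : ℕ => (mf b c)^[n] P)).Finite}

theorem mf_eq_none {b c : ℚ} {P : Option ℚ} (h : mf b c P = none) : P = none ∨ P = some 0 := by
  rcases P with _ | x
  · exact Or.inl rfl
  · right
    by_contra hx
    have hx0 : x ≠ 0 := fun h0 => hx (by rw [h0])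
    rw [mf_some _ _ _ hx0] at h
    exact Option.some_ne_none _ h

theorem mf_eq_some {b c y : ℚ} {P : Option ℚ} (h : mf b c P = some y) :
    ∃ x : ℚ, x ≠ 0 ∧ P = some x ∧ b * x ^ 2 + c = x * y := by
  rcases P with _ | x
  · rw [mf_none] at h
    exact absurd h.symm (Option.some_ne_none _)
  · by_cases hx : x = 0
    · rw [hx, mf_zero] at h
      exact absurd h.symm (Option.some_ne_none _)
    · rw [mf_some _ _ _ hx] at h
      have h1 := Option.some.inj h
      refine ⟨x, hx, rfl, ?_⟩
      rw [← h1]
      field_simp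

/-- A point with finite orbit eventually reaches a periodic point. -/
theorem exists_iterate_periodic {b c : ℚ} {P : Option ℚ} (hP : P ∈ prePer b c) :
    ∃ m : ℕ, (mf b c)^[m] P ∈ Function.periodicPts (mf b c) := by
  have hni : ¬ Function.Injective (fun n : ℕ => (mf b c)^[n] P) := by
    intro hinj
    exact Set.infinite_range_of_injective hinj hP
  rw [Function.Injective] at hni
  push Not at hni
  obtain ⟨m, k, hmk, hne⟩ := hni
  wlog hlt : m < k generalizing m k
  · exact this k m hmk.symm hne.symm (by omega)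
  refine ⟨m, k - m, by omega, ?_⟩
  show (mf b c)^[k - m] ((mf b c)^[m] P) = (mf b c)^[m] P
  rw [← Function.iterate_add_apply, Nat.sub_add_cancel hlt.le]
  exact hmk.symm

/-- points of the tree of infinity up to level two -/
def treeInf (b c : ℚ) : Set (Option ℚ) :=
  {P | P = none ∨ P = some 0 ∨ ∃ y : ℚ, y ≠ 0 ∧ P = some y ∧ b * y ^ 2 + c = 0}

/-- fixed points and their other preimages -/
def treeFix (b c : ℚ) : Set (Option ℚ) :=
  {P | ∃ y : ℚ, y ≠ 0 ∧ y ^ 2 * (1 - b) = c ∧ (P = some y ∨ ∃ z : ℚ, P = some z ∧ b * z = (1 - b) * y)}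

/-- points with `f y = - y` and their other preimages -/
def treeNeg (b c : ℚ) : Set (Option ℚ) :=
  {P | ∃ y : ℚ, y ≠ 0 ∧ y ^ 2 * (-1 - b) = c ∧ (P = some y ∨ ∃ z : ℚ, P = some z ∧ b * z = (1 + b) * y)}

theorem prePer_subset {b c : ℚ}
    (hcyc : ∀ (x : ℕ → ℚ) (n : ℕ), IsCycle b c x n → x 1 = x 0 ∨ x 1 = -x 0)
    (h1 : ¬ IsSquare (1 + 4 * b ^ 2))
    (h2 : ¬ IsSquare ((1 - b) * (1 - b - 4 * b ^ 3)))
    (h3 : ¬ IsSquare ((1 + b) * (1 + b + 4 * b ^ 3))) :
    prePer b c ⊆ treeInf b c ∪ treeFix b c ∪ treeNeg b c := by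
  intro P hP
  obtain ⟨m, hm⟩ := exists_iterate_periodic hP
  clear hP
  induction m generalizing P with
  | zero =>
    rw [Function.iterate_zero, id] at hm
    rcases exists_cycle b c P hm with h0 | ⟨x, n, hx, hPx⟩
    · exact Or.inl (Or.inl (Or.inl h0))
    · have hx0 := hx.ne 0
      have hx1 := hx.next 0
      rw [zero_add] at hx1
      rcases hcyc x n hx with h | h
      · refine Or.inl (Or.inr ⟨x 0, hx0, ?_, Or.inl hPx⟩)
        rw [h] at hx1
        field_simp at hx1
        linarith
      · refine Or.inr ⟨x 0, hx0, ?_, Or.inl hPx⟩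
        rw [h] at hx1
        field_simp at hx1
        linarith
  | succ m ih =>
    rw [Function.iterate_succ_apply] at hm
    rcases ih hm with (h | h) | h
    · rcases h with h | h | ⟨y, hy0, h, hy⟩
      · rcases mf_eq_none h with h | h
        · exact Or.inl (Or.inl (Or.inl h))
        · exact Or.inl (Or.inl (Or.inr (Or.inl h)))
      · obtain ⟨x, hx0, hPx, hx⟩ := mf_eq_some h
        refine Or.inl (Or.inl (Or.inr (Or.inr ⟨x, hx0, hPx, ?_⟩)))
        rw [hx, mul_zero]
      · obtain ⟨x, hx0, hPx, hx⟩ := mf_eq_some h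
        exfalso
        apply h1
        refine ⟨(2 * b * x - y) / y, ?_⟩
        field_simp
        linear_combination 4 * b * hy - 4 * b * hx
    · obtain ⟨y, hy0, hy, h⟩ := h
      rcases h with h | ⟨z, h, hz⟩
      · obtain ⟨x, hx0, hPx, hx⟩ := mf_eq_some h
        have hfac : (x - y) * (b * x - (1 - b) * y) = 0 := by
          linear_combination hx + hy
        rcases mul_eq_zero.1 hfac with h4 | h4
        · refine Or.inl (Or.inr ⟨y, hy0, hy, Or.inl ?_⟩)
          rw [hPx, sub_eq_zero.1 h4]
        · exact Or.inl (Or.inr ⟨y, hy0, hy, Or.inr ⟨x, hPx, sub_eq_zero.1 h4⟩⟩)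
      · obtain ⟨x, hx0, hPx, hx⟩ := mf_eq_some h
        exfalso
        apply h2
        refine ⟨b * (2 * b * x - z) / y, ?_⟩
        field_simp
        linear_combination (-(b*z + (1-b)*y)) * hz - 4 * b ^ 3 * hy - 4 * b ^ 3 * hx
    · obtain ⟨y, hy0, hy, h⟩ := h
      rcases h with h | ⟨z, h, hz⟩
      · obtain ⟨x, hx0, hPx, hx⟩ := mf_eq_some h
        have hfac : (x + y) * (b * x - (1 + b) * y) = 0 := by
          linear_combination hx + hy
        rcases mul_eq_zero.1 hfac with h4 | h4
        · refine Or.inr ⟨-y, neg_ne_zero.2 hy0, by rw [neg_sq]; exact hy, Or.inl ?_⟩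
          rw [hPx]
          congr 1
          linarith
        · exact Or.inr ⟨y, hy0, hy, Or.inr ⟨x, hPx, sub_eq_zero.1 h4⟩⟩
      · obtain ⟨x, hx0, hPx, hx⟩ := mf_eq_some h
        exfalso
        apply h3
        refine ⟨b * (2 * b * x - z) / y, ?_⟩
        field_simp
        linear_combination (-(b*z + (1+b)*y)) * hz - 4 * b ^ 3 * hy - 4 * b ^ 3 * hx

theorem isSquare_of_mul {u v w : ℚ} (hw : w ≠ 0) (h : u * w ^ 2 = v ^ 2) : IsSquare u := by
  refine ⟨v / w, ?_⟩
  have hw2 : w ^ 2 ≠ 0 := pow_ne_zero 2 hw
  rw [div_mul_div_comm, ← pow_two, ← pow_two, ← h]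
  field_simp

theorem sq_eq_of {y z u c : ℚ} (hc : c ≠ 0) (h1 : y ^ 2 * u = c) (h2 : z ^ 2 * u = c) :
    y = z ∨ y = -z := by
  have hu : u ≠ 0 := by
    rintro rfl
    rw [mul_zero] at h1
    exact hc h1.symm
  have : y ^ 2 = z ^ 2 := mul_right_cancel₀ hu (h1.trans h2.symm)
  exact sq_eq_sq_iff_eq_or_eq_neg.1 this

/-- the six candidate points -/
def six (y z : ℚ) : Finset (Option ℚ) :=
  {none, some 0, some y, some (-y), some z, some (-z)}

theorem card_six (y z : ℚ) : (six y z).card ≤ 6 := Finset.card_le_six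

theorem prePer_encard_le {b c : ℚ} (hb : b ≠ 0) (hc : c ≠ 0)
    (hcyc : ∀ (x : ℕ → ℚ) (n : ℕ), IsCycle b c x n → x 1 = x 0 ∨ x 1 = -x 0)
    (h1 : ¬ IsSquare (1 + 4 * b ^ 2))
    (h2 : ¬ IsSquare ((1 - b) * (1 - b - 4 * b ^ 3)))
    (h3 : ¬ IsSquare ((1 + b) * (1 + b + 4 * b ^ 3)))
    (h4 : ¬ IsSquare (b ^ 2 - 1)) (h5 : ¬ IsSquare (b * (b - 1)))
    (h6 : ¬ IsSquare (b * (b + 1))) :
    (prePer b c).encard ≤ 6 := by
  have hsub := prePer_subset hcyc h1 h2 h3
  have hfin : ∃ y z : ℚ, prePer b c ⊆ (six y z : Set (Option ℚ)) := by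
    by_cases hF : ∃ y : ℚ, y ≠ 0 ∧ y ^ 2 * (1 - b) = c
    · obtain ⟨y, hy0, hy⟩ := hF
      refine ⟨y, (1 - b) * y / b, fun P hP => ?_⟩
      simp only [six, Finset.coe_insert, Finset.coe_singleton, Set.mem_insert_iff,
        Set.mem_singleton_iff]
      rcases hsub hP with (h | h) | h
      · rcases h with h | h | ⟨z, hz0, _, hz⟩
        · exact Or.inl h
        · exact Or.inr (Or.inl h)
        · exfalso
          apply h5
          refine isSquare_of_mul (v := b * z) hy0 ?_
          linear_combination (-b) * hz - b * hy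
      · obtain ⟨z, hz0, hz, h⟩ := h
        rcases sq_eq_of hc hz hy with h7 | h7
        · rcases h with h | ⟨w, h, hw⟩
          · rw [h, h7]; simp
          · have : w = (1 - b) * y / b := by
              rw [h7] at hw
              field_simp
              linarith
            rw [h, this]; simp
        · rcases h with h | ⟨w, h, hw⟩
          · rw [h, h7]; simp
          · have : w = -((1 - b) * y / b) := by
              rw [h7] at hw
              field_simp
              linarith
            rw [h, this]; simp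
      · obtain ⟨z, hz0, hz, _⟩ := h
        exfalso
        apply h4
        refine isSquare_of_mul (v := (1 - b) * y) hz0 ?_
        linear_combination (1 - b) * hz - (1 - b) * hy
    · by_cases hG : ∃ y : ℚ, y ≠ 0 ∧ y ^ 2 * (-1 - b) = c
      · obtain ⟨y, hy0, hy⟩ := hG
        refine ⟨y, (1 + b) * y / b, fun P hP => ?_⟩
        simp only [six, Finset.coe_insert, Finset.coe_singleton, Set.mem_insert_iff,
          Set.mem_singleton_iff]
        rcases hsub hP with (h | h) | h
        · rcases h with h | h | ⟨z, hz0, _, hz⟩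
          · exact Or.inl h
          · exact Or.inr (Or.inl h)
          · exfalso
            apply h6
            refine isSquare_of_mul (v := b * z) hy0 ?_
            linear_combination (-b) * hz - b * hy
        · obtain ⟨z, hz0, hz, _⟩ := h
          exact (hF ⟨z, hz0, hz⟩).elim
        · obtain ⟨z, hz0, hz, h⟩ := h
          rcases sq_eq_of hc hz hy with h7 | h7
          · rcases h with h | ⟨w, h, hw⟩
            · rw [h, h7]; simp
            · have : w = (1 + b) * y / b := by
                rw [h7] at hw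
                field_simp
                linarith
              rw [h, this]; simp
          · rcases h with h | ⟨w, h, hw⟩
            · rw [h, h7]; simp
            · have : w = -((1 + b) * y / b) := by
                rw [h7] at hw
                field_simp
                linarith
              rw [h, this]; simp
      · by_cases hI : ∃ y : ℚ, b * y ^ 2 + c = 0
        · obtain ⟨y, hy⟩ := hI
          refine ⟨y, 0, fun P hP => ?_⟩
          simp only [six, Finset.coe_insert, Finset.coe_singleton, Set.mem_insert_iff,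
            Set.mem_singleton_iff]
          rcases hsub hP with (h | h) | h
          · rcases h with h | h | ⟨z, hz0, h, hz⟩
            · exact Or.inl h
            · exact Or.inr (Or.inl h)
            · have h8 : z ^ 2 = y ^ 2 := by
                have : b * z ^ 2 = b * y ^ 2 := by linarith
                exact mul_left_cancel₀ hb this
              rcases sq_eq_sq_iff_eq_or_eq_neg.1 h8 with h9 | h9
              · rw [h, h9]; simp
              · rw [h, h9]; simp
          · obtain ⟨z, hz0, hz, _⟩ := h
            exact (hF ⟨z, hz0, hz⟩).elim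
          · obtain ⟨z, hz0, hz, _⟩ := h
            exact (hG ⟨z, hz0, hz⟩).elim
        · refine ⟨0, 0, fun P hP => ?_⟩
          simp only [six, Finset.coe_insert, Finset.coe_singleton, Set.mem_insert_iff,
            Set.mem_singleton_iff]
          rcases hsub hP with (h | h) | h
          · rcases h with h | h | ⟨z, hz0, h, hz⟩
            · exact Or.inl h
            · exact Or.inr (Or.inl h)
            · exact (hI ⟨z, hz⟩).elim
          · obtain ⟨z, hz0, hz, _⟩ := h
            exact (hF ⟨z, hz0, hz⟩).elim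
          · obtain ⟨z, hz0, hz, _⟩ := h
            exact (hG ⟨z, hz0, hz⟩).elim
  obtain ⟨y, z, hyz⟩ := hfin
  calc (prePer b c).encard ≤ ((six y z : Finset (Option ℚ)) : Set (Option ℚ)).encard :=
        Set.encard_le_encard hyz
    _ = ((six y z).card : ℕ∞) := Set.encard_coe_eq_coe_finsetCard _
    _ ≤ 6 := by exact_mod_cast card_six y z

end Pool.Agent.H97
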