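import Pool.Agent.H97.ManesPre
import Pool.Agent.H97.ManesCount

/-!
# Counting the parameters with more than six rational preperiodic points
-/

set_option autoImplicit false

namespace Pool.Agent.H97

/-- pairs determined by divisors of `4 N³` -/
noncomputable def setA (H : ℕ) : Finset (ℤ × ℕ) :=
  ((Finset.Icc (-(H : ℤ)) H).erase 0).biUnion (fun N =>
    ((4 * N.natAbs ^ 3).divisors ×ˢ (4 * N.natAbs ^ 3).divisors).biUnion (fun rs =>
      ((rs.1 + rs.2).divisors ∪ ((rs.1 : ℤ) - rs.2).natAbs.divisors).image (fun D => (N, D))))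

/-- pairs determined by divisors of `D²` -/
noncomputable def setB (H : ℕ) : Finset (ℤ × ℕ) :=
  (Finset.Icc 1 H).biUnion (fun D =>
    ((D ^ 2).divisors ×ˢ (D ^ 2).divisors).biUnion (fun rs =>
      (({((rs.1 : ℤ) + rs.2) / 2, (-((rs.1 : ℤ) + rs.2)) / 2, ((rs.1 : ℤ) + rs.2 + 2 * D) / 4,
        (-((rs.1 : ℤ) + rs.2) + 2 * D) / 4, ((rs.1 : ℤ) + rs.2 - 2 * D) / 4,
        (-((rs.1 : ℤ) + rs.2) - 2 * D) / 4} : Finset ℤ)).image (fun N => (N, D))))

theorem mem_setA {H : ℕ} {N : ℤ} {D : ℕ} (hN : N ≠ 0) (hH : N.natAbs ≤ H) {α β : ℤ}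
    (hα : α ∣ 4 * N ^ 3) (hβ : β ∣ 4 * N ^ 3) (hne : α + β ≠ 0) (hD : (D : ℤ) ∣ α + β) :
    (N, D) ∈ setA H := by
  have h4 : (4 * N.natAbs ^ 3) ≠ 0 := by
    have := Int.natAbs_ne_zero.2 hN
    positivity
  have hcast : (4 * N ^ 3).natAbs = 4 * N.natAbs ^ 3 := by
    rw [Int.natAbs_mul, Int.natAbs_pow]; rfl
  have hα' : α.natAbs ∈ (4 * N.natAbs ^ 3).divisors := by
    rw [Nat.mem_divisors, ← hcast]
    exact ⟨Int.natAbs_dvd_natAbs.2 hα, by rw [hcast]; exact h4⟩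
  have hβ' : β.natAbs ∈ (4 * N.natAbs ^ 3).divisors := by
    rw [Nat.mem_divisors, ← hcast]
    exact ⟨Int.natAbs_dvd_natAbs.2 hβ, by rw [hcast]; exact h4⟩
  refine Finset.mem_biUnion.2 ⟨N, ?_, ?_⟩
  · rw [Finset.mem_erase, Finset.mem_Icc]
    refine ⟨hN, ?_⟩
    omega
  · refine Finset.mem_biUnion.2 ⟨(α.natAbs, β.natAbs), Finset.mem_product.2 ⟨hα', hβ'⟩, ?_⟩
    refine Finset.mem_image.2 ⟨D, ?_, rfl⟩
    rw [Finset.mem_union, Nat.mem_divisors, Nat.mem_divisors]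
    simp only
    rw [← Int.natAbs_dvd_natAbs, Int.natAbs_natCast] at hD
    by_cases hs : (α + β).natAbs = α.natAbs + β.natAbs
    · left
      rw [← hs]
      exact ⟨hD, Int.natAbs_ne_zero.2 hne⟩
    · right
      have h5 : (α + β).natAbs = ((α.natAbs : ℤ) - β.natAbs).natAbs := by omega
      rw [← h5]
      exact ⟨hD, Int.natAbs_ne_zero.2 hne⟩

theorem mem_setB {H : ℕ} {N : ℤ} {D : ℕ} (hD0 : 1 ≤ D) (hH : D ≤ H) {α β : ℤ}
    (hαβ : α * β = (D : ℤ) ^ 2)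
    (h : 2 * N = α + β ∨ 4 * N = α + β + 2 * D ∨ 4 * N = α + β - 2 * D) :
    (N, D) ∈ setB H := by
  have hD2 : D ^ 2 ≠ 0 := by positivity
  have hm : α.natAbs * β.natAbs = D ^ 2 := by
    rw [← Int.natAbs_mul, hαβ, Int.natAbs_pow]; rfl
  have hα' : α.natAbs ∈ (D ^ 2).divisors := by
    rw [Nat.mem_divisors]
    exact ⟨Dvd.intro _ hm, hD2⟩
  have hβ' : β.natAbs ∈ (D ^ 2).divisors := by
    rw [Nat.mem_divisors]
    exact ⟨Dvd.intro_left _ hm, hD2⟩
  have hpos : 0 < α * β := by rw [hαβ]; positivity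
  refine Finset.mem_biUnion.2 ⟨D, Finset.mem_Icc.2 ⟨hD0, hH⟩, ?_⟩
  refine Finset.mem_biUnion.2 ⟨(α.natAbs, β.natAbs), Finset.mem_product.2 ⟨hα', hβ'⟩, ?_⟩
  refine Finset.mem_image.2 ⟨N, ?_, rfl⟩
  simp only [Finset.mem_insert, Finset.mem_singleton]
  rcases mul_pos_iff.1 hpos with ⟨h1, h2⟩ | ⟨h1, h2⟩
  · have e1 : (α.natAbs : ℤ) = α := by omega
    have e2 : (β.natAbs : ℤ) = β := by omega
    rw [e1, e2]
    omega
  · have e1 : (α.natAbs : ℤ) = -α := by omega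
    have e2 : (β.natAbs : ℤ) = -β := by omega
    rw [e1, e2]
    omega

/-- the gcd argument for the curve `(1 - b)(1 - b - 4 b³) = □` -/
theorem fourteen_divisors {N D w : ℤ} (hD : D ≠ 0)
    (hE : D - N ≠ 0) (h : (D - N) * (D ^ 2 * (D - N) - 4 * N ^ 3) = w ^ 2) :
    ∃ α β : ℤ, α ∣ 4 * N ^ 3 ∧ β ∣ 4 * N ^ 3 ∧ α + β ≠ 0 ∧ D ∣ α + β := by
  set E := D - N with hEdef
  set Q := D ^ 2 * E - 4 * N ^ 3 with hQdef
  set g := Int.gcd E Q with hg
  have hg0 : 0 < g := Int.gcd_pos_of_ne_zero_left _ hE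
  have hgZ : (g : ℤ) ≠ 0 := by exact_mod_cast hg0.ne'
  obtain ⟨E', hE'⟩ : (g : ℤ) ∣ E := Int.gcd_dvd_left ..
  obtain ⟨Q', hQ'⟩ : (g : ℤ) ∣ Q := Int.gcd_dvd_right ..
  have hcop' : Int.gcd E' Q' = 1 := by
    have h1 : Int.gcd ((g : ℤ) * E') ((g : ℤ) * Q') = g := by rw [← hE', ← hQ']
    rw [Int.gcd_mul_left, Int.natAbs_natCast] at h1
    have h2 : g * Int.gcd E' Q' = g * 1 := by rw [h1, mul_one]
    exact Nat.eq_of_mul_eq_mul_left hg0 h2
  have hw : (g : ℤ) ^ 2 * (E' * Q') = w ^ 2 := by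
    rw [← h, hE', hQ']; ring
  obtain ⟨w', hw'⟩ : (g : ℤ) ∣ w := by
    rw [← Int.pow_dvd_pow_iff (n := 2) (by norm_num)]
    exact ⟨_, hw.symm⟩
  have hprod : E' * Q' = w' ^ 2 := by
    have : (g : ℤ) ^ 2 * (E' * Q') = (g : ℤ) ^ 2 * w' ^ 2 := by rw [hw, hw']; ring
    exact mul_left_cancel₀ (pow_ne_zero 2 hgZ) this
  have hE'0 : E' ≠ 0 := by
    rintro rfl
    rw [mul_zero] at hE'
    exact hE hE'
  obtain ⟨u, hu⟩ := Int.sq_of_gcd_eq_one hcop' hprod
  obtain ⟨v, hv⟩ := Int.sq_of_gcd_eq_one (by rw [Int.gcd_comm]; exact hcop')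
    (show Q' * E' = w' ^ 2 by rw [mul_comm]; exact hprod)
  -- common sign
  obtain ⟨σ, hσ, hEσ, hQσ⟩ : ∃ σ : ℤ, (σ = 1 ∨ σ = -1) ∧ E' = σ * u ^ 2 ∧ Q' = σ * v ^ 2 := by
    rcases hu with hu | hu <;> rcases hv with hv | hv
    · exact ⟨1, Or.inl rfl, by rw [hu]; ring, by rw [hv]; ring⟩
    · refine ⟨1, Or.inl rfl, by rw [hu]; ring, ?_⟩
      have h1 : -(u * v) ^ 2 = w' ^ 2 := by rw [← hprod, hu, hv]; ring
      have h2 : (u * v) ^ 2 = 0 := by nlinarith [sq_nonneg (u * v), sq_nonneg w']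
      have h3 : u * v = 0 := by simpa using h2
      rcases mul_eq_zero.1 h3 with h4 | h4
      · rw [h4] at hu
        exact absurd (by rw [hu]; ring) hE'0
      · rw [hv, h4]; ring
    · refine ⟨-1, Or.inr rfl, by rw [hu]; ring, ?_⟩
      have h1 : -(u * v) ^ 2 = w' ^ 2 := by rw [← hprod, hu, hv]; ring
      have h2 : (u * v) ^ 2 = 0 := by nlinarith [sq_nonneg (u * v), sq_nonneg w']
      have h3 : u * v = 0 := by simpa using h2
      rcases mul_eq_zero.1 h3 with h4 | h4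
      · rw [h4] at hu
        exact absurd (by rw [hu]; ring) hE'0
      · rw [hv, h4]; ring
    · exact ⟨-1, Or.inr rfl, by rw [hu]; ring, by rw [hv]; ring⟩
  have hu0 : u ≠ 0 := by
    rintro rfl
    exact hE'0 (by rw [hEσ]; ring)
  have hkey : (σ * g) * ((D * u - v) * (D * u + v)) = 4 * N ^ 3 := by
    have h1 : Q = D ^ 2 * E - 4 * N ^ 3 := hQdef
    rw [hQ', hE', hEσ, hQσ] at h1
    linear_combination -h1
  refine ⟨D * u - v, D * u + v, ?_, ?_, ?_, ?_⟩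
  · exact ⟨(σ * g) * (D * u + v), by rw [← hkey]; ring⟩
  · exact ⟨(σ * g) * (D * u - v), by rw [← hkey]; ring⟩
  · have : D * u - v + (D * u + v) = 2 * (D * u) := by ring
    rw [this]
    exact mul_ne_zero two_ne_zero (mul_ne_zero hD hu0)
  · exact ⟨2 * u, by ring⟩

/-- an integer which is a rational square is an integral square -/
theorem int_square {z : ℤ} {r : ℚ} (h : (z : ℚ) = r * r) : ∃ w : ℤ, z = w ^ 2 := by
  have h1 : IsSquare ((z : ℤ) : ℚ) := ⟨r, h⟩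
  rw [Rat.isSquare_intCast_iff] at h1
  obtain ⟨w, hw⟩ := h1
  exact ⟨w, by rw [hw]; ring⟩

theorem exc_one {b : ℚ} {H : ℕ} (hb : b ≠ 0) (hn : b.num.natAbs ≤ H)
    (h : IsSquare (1 + 4 * b ^ 2)) : (b.num, b.den) ∈ setA H := by
  obtain ⟨r, hr⟩ := h
  have hbd : (b.den : ℚ) ≠ 0 := by exact_mod_cast b.den_nz
  have e3 : (b.num : ℚ) / b.den = b := Rat.num_div_den b
  have e4 : (b.num : ℚ) = b * b.den := (Rat.mul_den_eq_num b).symm
  obtain ⟨w, hw⟩ := int_square (z := (b.den : ℤ) ^ 2 + 4 * b.num ^ 2) (r := r * b.den) (by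
    push_cast
    have : (r * b.den) * (r * b.den) = (r * r) * (b.den : ℚ) ^ 2 := by ring
    rw [this, ← hr, e4]
    ring)
  have hn0 : b.num ≠ 0 := Rat.num_ne_zero.2 hb
  have hkey : (w - b.den) * (w + b.den) = 4 * b.num ^ 2 := by linarith
  apply mem_setA hn0 hn (α := -(w - b.den)) (β := w + b.den)
  · exact ⟨-((w + b.den) * b.num), by linear_combination (-b.num) * hkey⟩
  · exact ⟨(w - b.den) * b.num, by linear_combination (-b.num) * hkey⟩
  · have : -(w - (b.den : ℤ)) + (w + b.den) = 2 * b.den := by ring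
    rw [this]
    have := b.den_nz
    omega
  · exact ⟨2, by ring⟩

theorem exc_two {b : ℚ} {H : ℕ} (hb : b ≠ 0) (hb1 : b ≠ 1) (hn : b.num.natAbs ≤ H)
    (h : IsSquare ((1 - b) * (1 - b - 4 * b ^ 3))) : (b.num, b.den) ∈ setA H := by
  obtain ⟨r, hr⟩ := h
  have hbd : (b.den : ℚ) ≠ 0 := by exact_mod_cast b.den_nz
  have e3 : (b.num : ℚ) / b.den = b := Rat.num_div_den b
  have e4 : (b.num : ℚ) = b * b.den := (Rat.mul_den_eq_num b).symm
  obtain ⟨w, hw⟩ := int_square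
    (z := ((b.den : ℤ) - b.num) * ((b.den : ℤ) ^ 2 * ((b.den : ℤ) - b.num) - 4 * b.num ^ 3))
    (r := r * (b.den : ℚ) ^ 2) (by
    push_cast
    have : (r * (b.den : ℚ) ^ 2) * (r * (b.den : ℚ) ^ 2) = (r * r) * (b.den : ℚ) ^ 4 := by ring
    rw [this, ← hr, e4]
    ring)
  have hn0 : b.num ≠ 0 := Rat.num_ne_zero.2 hb
  have hE : (b.den : ℤ) - b.num ≠ 0 := by
    intro h0
    apply hb1
    rw [← e3, div_eq_one_iff_eq hbd]
    have : b.num = (b.den : ℤ) := by omega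
    exact_mod_cast this
  obtain ⟨α, β, h1, h2, h3, h4⟩ := fourteen_divisors (by exact_mod_cast b.den_nz) hE hw
  exact mem_setA hn0 hn h1 h2 h3 h4

theorem exc_three {b : ℚ} {H : ℕ} (hb : b ≠ 0) (hb1 : b ≠ -1) (hn : b.num.natAbs ≤ H)
    (h : IsSquare ((1 + b) * (1 + b + 4 * b ^ 3))) : (b.num, b.den) ∈ setA H := by
  obtain ⟨r, hr⟩ := h
  have hbd : (b.den : ℚ) ≠ 0 := by exact_mod_cast b.den_nz
  have e3 : (b.num : ℚ) / b.den = b := Rat.num_div_den b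
  have e4 : (b.num : ℚ) = b * b.den := (Rat.mul_den_eq_num b).symm
  obtain ⟨w, hw⟩ := int_square
    (z := ((b.den : ℤ) - -b.num) * ((b.den : ℤ) ^ 2 * ((b.den : ℤ) - -b.num) - 4 * (-b.num) ^ 3))
    (r := r * (b.den : ℚ) ^ 2) (by
    push_cast
    have : (r * (b.den : ℚ) ^ 2) * (r * (b.den : ℚ) ^ 2) = (r * r) * (b.den : ℚ) ^ 4 := by ring
    rw [this, ← hr, e4]
    ring)
  have hn0 : b.num ≠ 0 := Rat.num_ne_zero.2 hb
  have hE : (b.den : ℤ) - -b.num ≠ 0 := by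
    intro h0
    apply hb1
    rw [← e3, div_eq_iff hbd]
    have : b.num = -(b.den : ℤ) := by omega
    rw [this]
    push_cast
    ring
  obtain ⟨α, β, h1, h2, h3, h4⟩ :=
    fourteen_divisors (by exact_mod_cast b.den_nz) hE hw
  have e : 4 * (-b.num) ^ 3 = -(4 * b.num ^ 3) := by ring
  rw [e, dvd_neg] at h1 h2
  exact mem_setA hn0 hn h1 h2 h3 h4

theorem exc_four {b : ℚ} {H : ℕ} (hd : b.den ≤ H)
    (h : IsSquare (b ^ 2 - 1)) : (b.num, b.den) ∈ setB H := by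
  obtain ⟨r, hr⟩ := h
  have hbd : (b.den : ℚ) ≠ 0 := by exact_mod_cast b.den_nz
  have e3 : (b.num : ℚ) / b.den = b := Rat.num_div_den b
  have e4 : (b.num : ℚ) = b * b.den := (Rat.mul_den_eq_num b).symm
  obtain ⟨w, hw⟩ := int_square (z := b.num ^ 2 - (b.den : ℤ) ^ 2) (r := r * b.den) (by
    push_cast
    have : (r * b.den) * (r * b.den) = (r * r) * (b.den : ℚ) ^ 2 := by ring
    rw [this, ← hr, e4]
    ring)
  exact mem_setB b.den_pos hd (α := b.num - w) (β := b.num + w) (by linarith) (Or.inl (by ring))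

theorem exc_five {b : ℚ} {H : ℕ} (hd : b.den ≤ H)
    (h : IsSquare (b * (b - 1))) : (b.num, b.den) ∈ setB H := by
  obtain ⟨r, hr⟩ := h
  have hbd : (b.den : ℚ) ≠ 0 := by exact_mod_cast b.den_nz
  have e3 : (b.num : ℚ) / b.den = b := Rat.num_div_den b
  have e4 : (b.num : ℚ) = b * b.den := (Rat.mul_den_eq_num b).symm
  obtain ⟨w, hw⟩ := int_square (z := b.num * (b.num - (b.den : ℤ))) (r := r * b.den) (by
    push_cast
    have : (r * b.den) * (r * b.den) = (r * r) * (b.den : ℚ) ^ 2 := by ring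
    rw [this, ← hr, e4]
    ring)
  exact mem_setB b.den_pos hd (α := 2 * b.num - b.den - 2 * w) (β := 2 * b.num - b.den + 2 * w)
    (by linear_combination 4 * hw) (Or.inr (Or.inl (by ring)))

theorem exc_six {b : ℚ} {H : ℕ} (hd : b.den ≤ H)
    (h : IsSquare (b * (b + 1))) : (b.num, b.den) ∈ setB H := by
  obtain ⟨r, hr⟩ := h
  have hbd : (b.den : ℚ) ≠ 0 := by exact_mod_cast b.den_nz
  have e3 : (b.num : ℚ) / b.den = b := Rat.num_div_den b
  have e4 : (b.num : ℚ) = b * b.den := (Rat.mul_den_eq_num b).symm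
  obtain ⟨w, hw⟩ := int_square (z := b.num * (b.num + (b.den : ℤ))) (r := r * b.den) (by
    push_cast
    have : (r * b.den) * (r * b.den) = (r * r) * (b.den : ℚ) ^ 2 := by ring
    rw [this, ← hr, e4]
    ring)
  exact mem_setB b.den_pos hd (α := 2 * b.num + b.den - 2 * w) (β := 2 * b.num + b.den + 2 * w)
    (by linear_combination 4 * hw) (Or.inr (Or.inr (by ring)))

/-- divisor bound in the form used here -/
theorem div_bound {θ : ℝ} (hθ : 0 < θ) : ∃ K : ℝ, 1 ≤ K ∧ ∀ H m : ℕ, 1 ≤ H → m ≤ 8 * H ^ 3 →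
    (m.divisors.card : ℝ) ≤ K * (H : ℝ) ^ θ := by
  set δ := θ / 6 with hδ
  have hδ0 : 0 < δ := by positivity
  obtain ⟨C, hC1, hC⟩ := card_fac_le hδ0
  have h8 : (1 : ℝ) ≤ (8 : ℝ) ^ (2 * δ) := Real.one_le_rpow (by norm_num) (by linarith)
  refine ⟨C * (8 : ℝ) ^ (2 * δ), ?_, ?_⟩
  · nlinarith
  intro H m hH hm
  have hH0 : (0 : ℝ) < (H : ℝ) := by exact_mod_cast hH
  rcases Nat.eq_zero_or_pos m with h0 | h0
  · rw [h0]
    simp only [Nat.divisors_zero, Finset.card_empty, Nat.cast_zero]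
    positivity
  · have hcard : (m.divisors.card : ℝ) ≤ ((fac m m).card : ℝ) := by
      exact_mod_cast Finset.card_le_card (divisors_subset_fac m)
    refine hcard.trans ((hC m m h0 h0).trans ?_)
    rw [mul_assoc]
    apply mul_le_mul_of_nonneg_left _ (by linarith)
    have hmR : (m : ℝ) ≤ 8 * (H : ℝ) ^ (3 : ℕ) := by exact_mod_cast hm
    have e1 : (m : ℝ) ^ δ * (m : ℝ) ^ δ = (m : ℝ) ^ (2 * δ) := by
      rw [← Real.rpow_add (by exact_mod_cast h0)]; ring_nf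
    rw [e1]
    calc (m : ℝ) ^ (2 * δ) ≤ (8 * (H : ℝ) ^ (3 : ℕ)) ^ (2 * δ) :=
          Real.rpow_le_rpow (by positivity) hmR (by linarith)
      _ = (8 : ℝ) ^ (2 * δ) * (H : ℝ) ^ θ := by
          rw [Real.mul_rpow (by norm_num) (by positivity), ← Real.rpow_natCast,
            ← Real.rpow_mul hH0.le]
          congr 2
          rw [hδ]; push_cast; ring

theorem card_setA_le {ε : ℝ} (hε : 0 < ε) : ∃ C : ℝ, 0 ≤ C ∧ ∀ H : ℕ, 1 ≤ H →
    ((setA H).card : ℝ) ≤ C * (H : ℝ) ^ (1 + ε) := by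
  obtain ⟨K, hK1, hK⟩ := div_bound (θ := ε / 3) (by positivity)
  refine ⟨4 * K ^ 3, by positivity, ?_⟩
  intro H hH
  have hH0 : (0 : ℝ) < (H : ℝ) := by exact_mod_cast hH
  have hone : ∀ N ∈ (Finset.Icc (-(H : ℤ)) H).erase 0,
      (((((4 * N.natAbs ^ 3).divisors ×ˢ (4 * N.natAbs ^ 3).divisors).biUnion (fun rs =>
      ((rs.1 + rs.2).divisors ∪ ((rs.1 : ℤ) - rs.2).natAbs.divisors).image
        (fun D => (N, D)))).card : ℕ) : ℝ) ≤ 2 * K ^ 3 * (H : ℝ) ^ ε := by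
    intro N hN
    rw [Finset.mem_erase, Finset.mem_Icc] at hN
    have h1 : 1 ≤ N.natAbs := by omega
    have h2 : N.natAbs ≤ H := by omega
    have h3 : N.natAbs ^ 3 ≤ H ^ 3 := Nat.pow_le_pow_left h2 3
    have h4 : 4 * N.natAbs ^ 3 ≤ 8 * H ^ 3 := by nlinarith [Nat.zero_le (H ^ 3)]
    refine (Nat.cast_le.2 Finset.card_biUnion_le).trans ?_
    rw [Nat.cast_sum]
    have hb : ∀ rs ∈ (4 * N.natAbs ^ 3).divisors ×ˢ (4 * N.natAbs ^ 3).divisors,
        (((((rs.1 + rs.2).divisors ∪ ((rs.1 : ℤ) - rs.2).natAbs.divisors).image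
        (fun D => (N, D))).card : ℕ) : ℝ) ≤ 2 * (K * (H : ℝ) ^ (ε / 3)) := by
      intro rs hrs
      rw [Finset.mem_product] at hrs
      have a1 := Nat.divisor_le hrs.1
      have a2 := Nat.divisor_le hrs.2
      have a3 : rs.1 + rs.2 ≤ 8 * H ^ 3 := by omega
      have a4 : ((rs.1 : ℤ) - rs.2).natAbs ≤ 8 * H ^ 3 := by omega
      have b1 := hK H _ hH a3
      have b2 := hK H _ hH a4
      have b3 : ((((rs.1 + rs.2).divisors ∪ ((rs.1 : ℤ) - rs.2).natAbs.divisors).image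
        (fun D => (N, D))).card : ℕ) ≤ (rs.1 + rs.2).divisors.card +
          ((rs.1 : ℤ) - rs.2).natAbs.divisors.card :=
        Finset.card_image_le.trans (Finset.card_union_le _ _)
      have b4 : (((((rs.1 + rs.2).divisors ∪ ((rs.1 : ℤ) - rs.2).natAbs.divisors).image
        (fun D => (N, D))).card : ℕ) : ℝ) ≤ ((rs.1 + rs.2).divisors.card : ℝ) +
          (((rs.1 : ℤ) - rs.2).natAbs.divisors.card : ℝ) := by exact_mod_cast b3
      linarith
    refine (Finset.sum_le_sum hb).trans ?_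
    rw [Finset.sum_const, Finset.card_product, nsmul_eq_mul, Nat.cast_mul]
    have hd := hK H _ hH h4
    calc ((4 * N.natAbs ^ 3).divisors.card : ℝ) * ((4 * N.natAbs ^ 3).divisors.card : ℝ) *
          (2 * (K * (H : ℝ) ^ (ε / 3)))
        ≤ (K * (H : ℝ) ^ (ε / 3)) * (K * (H : ℝ) ^ (ε / 3)) * (2 * (K * (H : ℝ) ^ (ε / 3))) := by
          apply mul_le_mul_of_nonneg_right _ (by positivity)
          exact mul_le_mul hd hd (Nat.cast_nonneg _) (by positivity)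
      _ = 2 * K ^ 3 * ((H : ℝ) ^ (ε / 3) * (H : ℝ) ^ (ε / 3) * (H : ℝ) ^ (ε / 3)) := by ring
      _ = 2 * K ^ 3 * (H : ℝ) ^ ε := by
          rw [← Real.rpow_add hH0, ← Real.rpow_add hH0]
          congr 2
          ring
  refine (Nat.cast_le.2 Finset.card_biUnion_le).trans ?_
  rw [Nat.cast_sum]
  refine (Finset.sum_le_sum hone).trans ?_
  rw [Finset.sum_const, nsmul_eq_mul]
  have hcard : ((Finset.Icc (-(H : ℤ)) H).erase 0).card = 2 * H := by
    rw [Finset.card_erase_of_mem (by simp), Int.card_Icc]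
    omega
  rw [hcard, Real.rpow_add hH0, Real.rpow_one]
  push_cast
  apply le_of_eq
  ring

theorem card_setB_le {ε : ℝ} (hε : 0 < ε) : ∃ C : ℝ, 0 ≤ C ∧ ∀ H : ℕ, 1 ≤ H →
    ((setB H).card : ℝ) ≤ C * (H : ℝ) ^ (1 + ε) := by
  obtain ⟨K, hK1, hK⟩ := div_bound (θ := ε / 2) (by positivity)
  refine ⟨6 * K ^ 2, by positivity, ?_⟩
  intro H hH
  have hH0 : (0 : ℝ) < (H : ℝ) := by exact_mod_cast hH
  have hone : ∀ D ∈ Finset.Icc 1 H,
      (((((D ^ 2).divisors ×ˢ (D ^ 2).divisors).biUnion (fun rs =>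
      (({((rs.1 : ℤ) + rs.2) / 2, (-((rs.1 : ℤ) + rs.2)) / 2, ((rs.1 : ℤ) + rs.2 + 2 * D) / 4,
        (-((rs.1 : ℤ) + rs.2) + 2 * D) / 4, ((rs.1 : ℤ) + rs.2 - 2 * D) / 4,
        (-((rs.1 : ℤ) + rs.2) - 2 * D) / 4} : Finset ℤ)).image (fun N => (N, D)))).card : ℕ) : ℝ)
      ≤ 6 * K ^ 2 * (H : ℝ) ^ ε := by
    intro D hD
    rw [Finset.mem_Icc] at hD
    have h4 : D ^ 2 ≤ 8 * H ^ 3 := by
      calc D ^ 2 ≤ H ^ 2 := Nat.pow_le_pow_left hD.2 2
        _ ≤ H ^ 3 := Nat.pow_le_pow_right hH (by norm_num)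
        _ ≤ 8 * H ^ 3 := by omega
    refine (Nat.cast_le.2 Finset.card_biUnion_le).trans ?_
    rw [Nat.cast_sum]
    have hb : ∀ rs ∈ (D ^ 2).divisors ×ˢ (D ^ 2).divisors,
        (((({((rs.1 : ℤ) + rs.2) / 2, (-((rs.1 : ℤ) + rs.2)) / 2, ((rs.1 : ℤ) + rs.2 + 2 * D) / 4,
        (-((rs.1 : ℤ) + rs.2) + 2 * D) / 4, ((rs.1 : ℤ) + rs.2 - 2 * D) / 4,
        (-((rs.1 : ℤ) + rs.2) - 2 * D) / 4} : Finset ℤ).image (fun N => (N, D))).card : ℕ) : ℝ)
        ≤ 6 := by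
      intro rs _
      exact_mod_cast Finset.card_image_le.trans Finset.card_le_six
    refine (Finset.sum_le_sum hb).trans ?_
    rw [Finset.sum_const, Finset.card_product, nsmul_eq_mul, Nat.cast_mul]
    have hd := hK H _ hH h4
    calc ((D ^ 2).divisors.card : ℝ) * ((D ^ 2).divisors.card : ℝ) * 6
        ≤ (K * (H : ℝ) ^ (ε / 2)) * (K * (H : ℝ) ^ (ε / 2)) * 6 := by
          apply mul_le_mul_of_nonneg_right _ (by positivity)
          exact mul_le_mul hd hd (Nat.cast_nonneg _) (by positivity)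
      _ = 6 * K ^ 2 * ((H : ℝ) ^ (ε / 2) * (H : ℝ) ^ (ε / 2)) := by ring
      _ = 6 * K ^ 2 * (H : ℝ) ^ ε := by
          rw [← Real.rpow_add hH0]
          congr 2
          ring
  refine (Nat.cast_le.2 Finset.card_biUnion_le).trans ?_
  rw [Nat.cast_sum]
  refine (Finset.sum_le_sum hone).trans ?_
  rw [Finset.sum_const, nsmul_eq_mul, Nat.card_Icc, Nat.add_sub_cancel, Real.rpow_add hH0,
    Real.rpow_one]
  apply le_of_eq
  ring

/-- all exceptional pairs -/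
noncomputable def excAll (H : ℕ) : Finset (ℤ × ℕ) := excPairs H ∪ setA H ∪ setB H

theorem card_excAll_le {ε : ℝ} (hε : 0 < ε) : ∃ C : ℝ, 0 ≤ C ∧ ∀ H : ℕ, 1 ≤ H →
    ((excAll H).card : ℝ) ≤ C * (H : ℝ) ^ (1 + ε) := by
  obtain ⟨C1, h1, H1⟩ := card_excPairs_le hε
  obtain ⟨C2, h2, H2⟩ := card_setA_le hε
  obtain ⟨C3, h3, H3⟩ := card_setB_le hε
  refine ⟨C1 + C2 + C3, by positivity, ?_⟩
  intro H hH
  have e1 := H1 H hH
  have e2 := H2 H hH
  have e3 := H3 H hH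
  have e4 : (excAll H).card ≤ (excPairs H).card + (setA H).card + (setB H).card :=
    (Finset.card_union_le _ _).trans (Nat.add_le_add_right (Finset.card_union_le _ _) _)
  have e5 : ((excAll H).card : ℝ) ≤ (excPairs H).card + (setA H).card + (setB H).card := by
    exact_mod_cast e4
  linarith

/-- outside the exceptional pairs there are at most six preperiodic points -/
theorem encard_le_of_not_exc {b c : ℚ} (hb : b ≠ 0) (hc : c ≠ 0) {H : ℕ}
    (hn : b.num.natAbs ≤ H) (hd : b.den ≤ H) (hexc : (b.num, b.den) ∉ excAll H) :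
    (prePer b c).encard ≤ 6 := by
  have hP : (b.num, b.den) ∉ excPairs H := fun h =>
    hexc (Finset.mem_union_left _ (Finset.mem_union_left _ h))
  have hA : (b.num, b.den) ∉ setA H := fun h =>
    hexc (Finset.mem_union_left _ (Finset.mem_union_right _ h))
  have hB : (b.num, b.den) ∉ setB H := fun h => hexc (Finset.mem_union_right _ h)
  have hb1 : b ≠ 1 := by
    rintro rfl
    exact hB (exc_four hd ⟨0, by norm_num⟩)
  have hb1' : b ≠ -1 := by
    rintro rfl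
    exact hB (exc_four hd ⟨0, by norm_num⟩)
  apply prePer_encard_le hb hc
  · intro x n hx
    apply IsCycle.eq_or_neg_of_t hc
    by_contra hne
    exact hP ((hx.toT hc).mem_excPairs hb hne hn)
  · exact fun h => hA (exc_one hb hn h)
  · exact fun h => hA (exc_two hb hb1 hn h)
  · exact fun h => hA (exc_three hb hb1' hn h)
  · exact fun h => hB (exc_four hd h)
  · exact fun h => hB (exc_five hd h)
  · exact fun h => hB (exc_six hd h)

end Pool.Agent.H97
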