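import Mathlib

/-!
# Small tools on `padicNorm` and cycles
-/

set_option autoImplicit false

namespace Pool.Agent.H97

variable {p : ℕ} [hp : Fact p.Prime]

theorem norm_le_of_lt_one {q : ℚ} (h : padicNorm p q < 1) : padicNorm p q ≤ 1 / p := by
  have hp1 : (1 : ℚ) < p := by exact_mod_cast hp.out.one_lt
  by_cases hq : q = 0
  · rw [hq, padicNorm.zero]; positivity
  · obtain ⟨z, hz⟩ := padicNorm.values_discrete (p := p) hq
    rw [hz] at h ⊢
    have h1 : (p : ℚ) ^ (-z) < (p : ℚ) ^ (0 : ℤ) := by simpa using h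
    have h2 : -z < 0 := (zpow_lt_zpow_iff_right₀ hp1).1 h1
    have h3 : -z ≤ -1 := by omega
    calc (p : ℚ) ^ (-z) ≤ (p : ℚ) ^ (-1 : ℤ) := zpow_le_zpow_right₀ hp1.le h3
      _ = 1 / p := by rw [zpow_neg_one, one_div]

theorem le_norm_of_one_lt {q : ℚ} (h : 1 < padicNorm p q) : (p : ℚ) ≤ padicNorm p q := by
  have hp1 : (1 : ℚ) < p := by exact_mod_cast hp.out.one_lt
  have hq : q ≠ 0 := by
    rintro rfl
    rw [padicNorm.zero] at h
    linarith
  have hpos : 0 < padicNorm p q := by linarith
  have h1 : padicNorm p q⁻¹ < 1 := by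
    rw [← one_div, padicNorm.div, padicNorm.one, div_lt_one hpos]
    exact h
  have h2 := norm_le_of_lt_one h1
  rw [← one_div, padicNorm.div, padicNorm.one] at h2
  have hp0 : (0 : ℚ) < p := by linarith
  rwa [one_div_le_one_div hpos hp0] at h2

theorem norm_pos {q : ℚ} (hq : q ≠ 0) : 0 < padicNorm p q :=
  lt_of_le_of_ne (padicNorm.nonneg q) (Ne.symm (padicNorm.nonzero hq))

theorem norm_add_le {a b e : ℚ} (ha : padicNorm p a ≤ e) (hb : padicNorm p b ≤ e) :
    padicNorm p (a + b) ≤ e :=
  (padicNorm.nonarchimedean (p := p)).trans (max_le ha hb)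

theorem norm_sub_le {a b e : ℚ} (ha : padicNorm p a ≤ e) (hb : padicNorm p b ≤ e) :
    padicNorm p (a - b) ≤ e :=
  (padicNorm.sub (p := p)).trans (max_le ha hb)

omit hp in
theorem norm_sub_comm (a b : ℚ) : padicNorm p (a - b) = padicNorm p (b - a) := by
  rw [← padicNorm.neg (a - b), neg_sub]

theorem norm_tri {a b c e : ℚ} (h1 : padicNorm p (a - b) ≤ e) (h2 : padicNorm p (b - c) ≤ e) :
    padicNorm p (a - c) ≤ e := by
  have : a - c = (a - b) + (b - c) := by ring
  rw [this]
  exact norm_add_le h1 h2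

theorem norm_mul_le {a b e f : ℚ} (ha : padicNorm p a ≤ e) (hb : padicNorm p b ≤ f) :
    padicNorm p (a * b) ≤ e * f := by
  rw [padicNorm.mul]
  exact mul_le_mul ha hb (padicNorm.nonneg b) ((padicNorm.nonneg a).trans ha)

theorem norm_pow (a : ℚ) (n : ℕ) : padicNorm p (a ^ n) = padicNorm p a ^ n := by
  induction n with
  | zero => simp
  | succ n ih => rw [pow_succ, padicNorm.mul, ih, pow_succ]

/-- if `|b| < |a|` then `|a + b| = |a|` -/
theorem norm_add_eq {a b : ℚ} (h : padicNorm p b < padicNorm p a) :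
    padicNorm p (a + b) = padicNorm p a := by
  rw [padicNorm.add_eq_max_of_ne h.ne', max_eq_left h.le]

theorem norm_eq_one_of_near {a b : ℚ} (ha : padicNorm p a = 1) (h : padicNorm p (b - a) < 1) :
    padicNorm p b = 1 := by
  have : b = a + (b - a) := by ring
  rw [this, norm_add_eq (by rw [ha]; exact h), ha]

/-- products of congruent things -/
theorem mul_congr {a a' b b' e : ℚ} (he : 0 ≤ e) (h1 : padicNorm p (a - a') ≤ e)
    (h2 : padicNorm p (b - b') ≤ e) (ha' : padicNorm p a' ≤ 1) (hb : padicNorm p b ≤ 1) :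
    padicNorm p (a * b - a' * b') ≤ e := by
  have : a * b - a' * b' = (a - a') * b + a' * (b - b') := by ring
  rw [this]
  apply norm_add_le
  · calc padicNorm p ((a - a') * b) ≤ e * 1 := norm_mul_le h1 hb
      _ = e := mul_one e
  · calc padicNorm p (a' * (b - b')) ≤ 1 * e := norm_mul_le ha' h2
      _ = e := one_mul e

theorem norm_le_one_of_congr {a b e : ℚ} (he : e ≤ 1) (h : padicNorm p (a - b) ≤ e)
    (hb : padicNorm p b ≤ 1) : padicNorm p a ≤ 1 := by
  have : a = (a - b) + b := by ring
  rw [this]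
  exact norm_add_le (h.trans he) hb

/-- residues -/
theorem exists_residue {x : ℚ} (hx : padicNorm p x ≤ 1) :
    ∃ r : ℕ, r < p ∧ padicNorm p (x - r) < 1 := by
  have hden : ¬ p ∣ x.den := by
    intro hd
    have h1 : padicNorm p (x.den : ℚ) < 1 := (padicNorm.nat_lt_one_iff x.den).2 hd
    have h2 : padicNorm p (x.num : ℚ) = 1 := by
      rw [padicNorm.int_eq_one_iff]
      intro h3
      have h4 : p ∣ x.num.natAbs := Int.natCast_dvd.1 h3
      have h5 : p ∣ 1 := by
        have := Nat.dvd_gcd h4 hd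
        rwa [x.reduced] at this
      exact hp.out.one_lt.not_ge (Nat.le_of_dvd one_pos h5)
    have h3 : padicNorm p x = padicNorm p (x.num : ℚ) / padicNorm p (x.den : ℚ) := by
      rw [← padicNorm.div, Rat.num_div_den]
    have h4 : 0 < padicNorm p (x.den : ℚ) := norm_pos (by exact_mod_cast x.den_nz)
    rw [h3, h2, div_le_one h4] at hx
    linarith
  have hcop : Nat.Coprime x.den p := ((hp.out.coprime_iff_not_dvd).2 hden).symm
  -- inverse of the denominator
  have hco' : IsCoprime (x.den : ℤ) (p : ℤ) := Nat.isCoprime_iff_coprime.2 hcop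
  obtain ⟨u, v, huv⟩ := hco'
  have hp0 : (p : ℤ) ≠ 0 := by exact_mod_cast hp.out.ne_zero
  have hpos : (0 : ℤ) < p := by exact_mod_cast hp.out.pos
  set r : ℤ := (x.num * u) % p with hr
  have hr0 : 0 ≤ r := Int.emod_nonneg _ hp0
  have hrp : r < p := Int.emod_lt_of_pos _ hpos
  refine ⟨r.toNat, by omega, ?_⟩
  have hdvd : (p : ℤ) ∣ x.num - r * x.den := by
    have h1 : (p : ℤ) ∣ x.num * u - r := by
      rw [hr]; exact Int.dvd_self_sub_emod
    obtain ⟨t, ht⟩ := h1
    refine ⟨x.num * v + t * x.den, ?_⟩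
    have : x.num = x.num * (u * x.den + v * p) := by rw [huv, mul_one]
    linear_combination this + (x.den : ℤ) * ht
  have hden1 : padicNorm p (x.den : ℚ) = 1 := (padicNorm.nat_eq_one_iff x.den).2 hden
  have hx' : x - (r.toNat : ℚ) = ((x.num - r * x.den : ℤ) : ℚ) / (x.den : ℚ) := by
    have hd : (x.den : ℚ) ≠ 0 := by exact_mod_cast x.den_nz
    have h2 : ((r.toNat : ℕ) : ℚ) = (r : ℚ) := by
      have : ((r.toNat : ℕ) : ℤ) = r := Int.toNat_of_nonneg hr0
      exact_mod_cast this
    rw [h2]
    push_cast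
    rw [eq_div_iff hd, sub_mul]
    congr 1
    exact Rat.mul_den_eq_num x
  rw [hx', padicNorm.div, hden1, div_one]
  exact (padicNorm.int_lt_one_iff _).2 hdvd

section Cycles

/-- periodicity for multiples -/
theorem periodic_mul {s : ℕ → ℚ} {n : ℕ} (hs : ∀ i, s (i + n) = s i) (i m : ℕ) :
    s (i + m * n) = s i := by
  induction m with
  | zero => simp
  | succ m ih => rw [Nat.succ_mul, ← add_assoc, hs, ih]

/-- A cycle on which the map contracts is constant. -/
theorem contract (s : ℕ → ℚ) (n : ℕ) (hn : 0 < n) (hs : ∀ i, s (i + n) = s i) (K : ℕ → ℚ)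
    (hK : ∀ i, s (i + 2) - s (i + 1) = K i * (s (i + 1) - s i))
    (h : ∀ i, padicNorm p (K i) < 1) : s 1 = s 0 := by
  by_contra hne
  have h0 : 0 < padicNorm p (s 1 - s 0) := norm_pos (sub_ne_zero.2 hne)
  have key : ∀ i, 0 < i → padicNorm p (s (i + 1) - s i) < padicNorm p (s 1 - s 0) := by
    intro i hi
    induction i with
    | zero => omega
    | succ i ih =>
      rw [show i + 1 + 1 = i + 2 by ring, hK i, padicNorm.mul]
      rcases Nat.eq_zero_or_pos i with rfl | hi'
      · have := mul_lt_mul_of_pos_right (h 0) h0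
        rwa [one_mul] at this
      · calc padicNorm p (K i) * padicNorm p (s (i + 1) - s i)
            ≤ 1 * padicNorm p (s (i + 1) - s i) :=
              mul_le_mul_of_nonneg_right (h i).le (padicNorm.nonneg _)
          _ = padicNorm p (s (i + 1) - s i) := one_mul _
          _ < _ := ih hi'
  have h1 := key n hn
  have h2 : s (n + 1) = s 1 := by rw [add_comm]; exact hs 1
  have h3 : s n = s 0 := by have := hs 0; rwa [zero_add] at this
  rw [h2, h3] at h1
  exact lt_irrefl _ h1

theorem prod_congr_one {e : ℚ} (he0 : 0 ≤ e) (he1 : e ≤ 1) (f : ℕ → ℚ) (k : ℕ)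
    (h : ∀ i, padicNorm p (f i - 1) ≤ e) : padicNorm p (∏ i ∈ Finset.range k, f i - 1) ≤ e := by
  induction k with
  | zero => simpa using he0
  | succ k ih =>
    rw [Finset.prod_range_succ]
    have := mul_congr he0 ih (h k) (by simp) (norm_le_one_of_congr he1 (h k) (by simp))
    simpa using this

theorem prod_congr' {e : ℚ} (he0 : 0 ≤ e) (he1 : e ≤ 1) (f g : ℕ → ℚ) (k : ℕ)
    (h : ∀ i, padicNorm p (f i - g i) ≤ e) (hf : ∀ i, padicNorm p (g i) ≤ 1) :
    padicNorm p (∏ i ∈ Finset.range k, f i - ∏ i ∈ Finset.range k, g i) ≤ e ∧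
      padicNorm p (∏ i ∈ Finset.range k, g i) ≤ 1 := by
  induction k with
  | zero => simpa using he0
  | succ k ih =>
    rw [Finset.prod_range_succ, Finset.prod_range_succ]
    refine ⟨mul_congr he0 ih.1 (h k) ih.2 (norm_le_one_of_congr he1 (h k) (hf k)), ?_⟩
    calc padicNorm p ((∏ i ∈ Finset.range k, g i) * g k) ≤ 1 * 1 := norm_mul_le ih.2 (hf k)
      _ = 1 := one_mul 1

/-- **No nontrivial cycles** for a map which is close to the identity. -/
theorem no_cycle (s : ℕ → ℚ) (n : ℕ) (hn : 0 < n) (hs : ∀ i, s (i + n) = s i)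
    (K : ℕ → ℕ → ℚ) (hK : ∀ i k, s (i + 1 + k) - s (i + 1) = K i k * (s (i + k) - s i))
    (h1 : ∀ i k, padicNorm p (K i k - 1) ≤ 1 / p)
    (h2 : (∀ i k, padicNorm p (K i k - 1) ≤ 1 / (p : ℚ) ^ 2) ∨
      (p ≠ 2 ∧ ∀ i j k, padicNorm p (K i k - K j k) ≤ 1 / (p : ℚ) ^ 2)) : s 1 = s 0 := by
  classical
  have hp1 : (1 : ℚ) < p := by exact_mod_cast hp.out.one_lt
  have hp0 : (0 : ℚ) < p := by linarith
  have hinv : (1 : ℚ) / p < 1 := by rw [div_lt_one hp0]; exact hp1
  have hinv2 : (1 : ℚ) / (p : ℚ) ^ 2 < 1 / p := by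
    rw [div_lt_div_iff₀ (by positivity) hp0]
    nlinarith
  have hex : ∃ m, 0 < m ∧ ∀ i, s (i + m) = s i := ⟨n, hn, hs⟩
  set m := Nat.find hex with hm
  obtain ⟨hm0, hms⟩ : 0 < m ∧ ∀ i, s (i + m) = s i := Nat.find_spec hex
  have hmin : ∀ k, 0 < k → k < m → ∀ i, s (i + k) ≠ s i := by
    intro k hk hkm i heq
    have h3 : ∀ j, s (i + j + k) = s (i + j) := by
      intro j
      induction j with
      | zero => simpa using heq
      | succ j ih =>
        have := hK (i + j) k
        rw [ih, sub_self, mul_zero, sub_eq_zero] at this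
        rw [← add_assoc]
        exact this
    have h4 : ∀ i', s (i' + k) = s i' := by
      intro i'
      have e1 : s (i' + k) = s (i' + k + i * m) := (periodic_mul hms _ _).symm
      have e2 : s i' = s (i' + i * m) := (periodic_mul hms _ _).symm
      have e3 : i ≤ i' + i * m := by nlinarith
      obtain ⟨j, hj⟩ := Nat.exists_eq_add_of_le e3
      rw [e1, e2, show i' + k + i * m = (i' + i * m) + k by ring, hj]
      exact h3 j
    exact Nat.find_min hex hkm ⟨hk, h4⟩
  rcases Nat.lt_or_ge 1 m with hm1 | hm1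
  · exfalso
    set l := m.minFac with hl
    have hlp : l.Prime := Nat.minFac_prime (by omega)
    obtain ⟨k, hk⟩ : l ∣ m := Nat.minFac_dvd m
    have hk0 : 0 < k := by
      rcases Nat.eq_zero_or_pos k with rfl | h
      · omega
      · exact h
    have hkm : k < m := by
      rw [hk]
      exact (lt_mul_iff_one_lt_left hk0).2 hlp.one_lt
    set ρ : ℕ → ℚ := fun j => ∏ i ∈ Finset.range k, K (j * k + i) k with hρ
    have hstep : ∀ j, s ((j + 1) * k + k) - s ((j + 1) * k) =
        ρ j * (s (j * k + k) - s (j * k)) := by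
      intro j
      have h3 : ∀ i, s (j * k + i + k) - s (j * k + i) =
          (∏ i' ∈ Finset.range i, K (j * k + i') k) * (s (j * k + k) - s (j * k)) := by
        intro i
        induction i with
        | zero => simp
        | succ i ih =>
          have := hK (j * k + i) k
          rw [ih] at this
          rw [Finset.prod_range_succ, ← add_assoc, this]
          ring
      have h4 := h3 k
      rw [show (j + 1) * k = j * k + k by ring]
      exact h4
    set P : ℕ → ℚ := fun j => ∏ j' ∈ Finset.range j, ρ j' with hP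
    have hD : ∀ j, s (j * k + k) - s (j * k) = P j * (s k - s 0) := by
      intro j
      induction j with
      | zero => simp [hP]
      | succ j ih =>
        rw [hstep, ih]
        simp only [hP]
        rw [Finset.prod_range_succ]
        ring
    have hD0 : s k - s 0 ≠ 0 := by
      have := hmin k hk0 hkm 0
      rw [zero_add] at this
      exact sub_ne_zero.2 this
    have hsum : ∑ j ∈ Finset.range l, P j = 0 := by
      have e1 : ∑ j ∈ Finset.range l, (s ((j + 1) * k) - s (j * k)) = s (l * k) - s (0 * k) :=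
        Finset.sum_range_sub (fun j => s (j * k)) l
      have e2 : s (l * k) = s (0 * k) := by
        rw [← hk]
        have := hms 0
        rw [zero_add] at this
        simpa using this
      rw [e2, sub_self] at e1
      have e3 : ∑ j ∈ Finset.range l, (s ((j + 1) * k) - s (j * k)) =
          (∑ j ∈ Finset.range l, P j) * (s k - s 0) := by
        rw [Finset.sum_mul]
        apply Finset.sum_congr rfl
        intro j _
        rw [← hD j, show (j + 1) * k = j * k + k by ring]
      rw [e3] at e1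
      exact (mul_eq_zero.1 e1).resolve_right hD0
    have hρ1 : ∀ j, padicNorm p (ρ j - 1) ≤ 1 / p := fun j =>
      prod_congr_one (by positivity) hinv.le _ k (fun i => h1 _ _)
    have hP1 : ∀ j, padicNorm p (P j - 1) ≤ 1 / p := fun j =>
      prod_congr_one (by positivity) hinv.le _ j hρ1
    have hcount : ∀ e : ℚ, (∀ j, padicNorm p (P j - 1) ≤ e) → 0 ≤ e → padicNorm p (l : ℚ) ≤ e := by
      intro e he he0
      have e1 : (l : ℚ) = -∑ j ∈ Finset.range l, (P j - 1) := by
        rw [Finset.sum_sub_distrib, hsum]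
        simp
      rw [e1, padicNorm.neg]
      exact padicNorm.sum_le' (fun j _ => he j) he0
    have hl1 : padicNorm p (l : ℚ) ≤ 1 / p := hcount _ hP1 (by positivity)
    have hpl : p = l := by
      have h3 : padicNorm p (l : ℚ) < 1 := lt_of_le_of_lt hl1 hinv
      have h4 : p ∣ l := (padicNorm.nat_lt_one_iff l).1 h3
      exact (Nat.prime_dvd_prime_iff_eq hp.out hlp).1 h4
    have hnp : padicNorm p (l : ℚ) = 1 / p := by
      rw [← hpl, padicNorm.padicNorm_p_of_prime, one_div]
    rcases h2 with h2 | ⟨hp2, h2⟩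
    · have hρ2 : ∀ j, padicNorm p (ρ j - 1) ≤ 1 / (p : ℚ) ^ 2 := fun j =>
        prod_congr_one (by positivity) (hinv2.trans hinv).le _ k (fun i => h2 _ _)
      have hP2 : ∀ j, padicNorm p (P j - 1) ≤ 1 / (p : ℚ) ^ 2 := fun j =>
        prod_congr_one (by positivity) (hinv2.trans hinv).le _ j hρ2
      have := hcount _ hP2 (by positivity)
      rw [hnp] at this
      linarith
    · -- the borderline case
      have hK1 : ∀ i, padicNorm p (K i k) ≤ 1 := fun i =>
        norm_le_one_of_congr hinv.le (h1 i k) (by simp)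
      have hρc : ∀ j, padicNorm p (ρ j - ρ 0) ≤ 1 / (p : ℚ) ^ 2 := fun j =>
        (prod_congr' (by positivity) (hinv2.trans hinv).le _ _ k (fun i => h2 _ _ _)
          (fun i => hK1 _)).1
      set π : ℚ := ρ 0 - 1 with hπ
      have hπ1 : padicNorm p π ≤ 1 / p := hρ1 0
      have hρn : ∀ j, padicNorm p (ρ j) ≤ 1 := fun j =>
        norm_le_one_of_congr hinv.le (hρ1 j) (by simp)
      have hPn : ∀ j, padicNorm p (P j) ≤ 1 := fun j =>
        norm_le_one_of_congr hinv.le (hP1 j) (by simp)
      have hPj : ∀ j, padicNorm p (P j - (1 + j * π)) ≤ 1 / (p : ℚ) ^ 2 := by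
        intro j
        induction j with
        | zero => simp [hP]
        | succ j ih =>
          have e1 : P (j + 1) = P j * ρ j := by
            simp only [hP]
            rw [Finset.prod_range_succ]
          have e2 : P (j + 1) - (1 + ((j + 1 : ℕ) : ℚ) * π) =
              (P j * (ρ j - ρ 0) + (P j - (1 + j * π)) * ρ 0) + (j : ℚ) * (π * π) := by
            have : ρ 0 = 1 + π := by rw [hπ]; ring
            rw [e1, this]
            push_cast
            ring
          rw [e2]
          apply norm_add_le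
          · apply norm_add_le
            · calc padicNorm p (P j * (ρ j - ρ 0)) ≤ 1 * (1 / (p : ℚ) ^ 2) :=
                  norm_mul_le (hPn j) (hρc j)
                _ = _ := one_mul _
            · calc padicNorm p ((P j - (1 + j * π)) * ρ 0) ≤ 1 / (p : ℚ) ^ 2 * 1 :=
                  norm_mul_le ih (hρn 0)
                _ = _ := mul_one _
          · calc padicNorm p ((j : ℚ) * (π * π)) ≤ 1 * (1 / p * (1 / p)) :=
                norm_mul_le (padicNorm.of_nat j) (norm_mul_le hπ1 hπ1)
              _ = 1 / (p : ℚ) ^ 2 := by field_simp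
      -- sum
      have hSig : padicNorm p (∑ j ∈ Finset.range l, (1 + (j : ℚ) * π)) ≤ 1 / (p : ℚ) ^ 2 := by
        have e1 : ∑ j ∈ Finset.range l, (1 + (j : ℚ) * π) =
            -∑ j ∈ Finset.range l, (P j - (1 + (j : ℚ) * π)) := by
          rw [Finset.sum_sub_distrib, hsum]
          ring
        rw [e1, padicNorm.neg]
        exact padicNorm.sum_le' (fun j _ => hPj j) (by positivity)
      have hSig2 : ∑ j ∈ Finset.range l, (1 + (j : ℚ) * π) =
          l + π * ((∑ j ∈ Finset.range l, j : ℕ) : ℚ) := by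
        rw [Finset.sum_add_distrib, ← Finset.sum_mul]
        push_cast
        simp
        ring
      have hdvd : p ∣ ∑ j ∈ Finset.range l, j := by
        rw [← hpl]
        have e1 := Finset.sum_range_id_mul_two p
        have e2 : p ∣ (∑ j ∈ Finset.range p, j) * 2 := ⟨p - 1, e1⟩
        rcases (Nat.Prime.dvd_mul hp.out).1 e2 with h | h
        · exact h
        · exact absurd ((Nat.prime_dvd_prime_iff_eq hp.out Nat.prime_two).1 h) hp2
      have hlast : padicNorm p (π * ((∑ j ∈ Finset.range l, j : ℕ) : ℚ)) ≤ 1 / (p : ℚ) ^ 2 := by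
        have h3 : padicNorm p ((∑ j ∈ Finset.range l, j : ℕ) : ℚ) ≤ 1 / p :=
          norm_le_of_lt_one ((padicNorm.nat_lt_one_iff _).2 hdvd)
        calc _ ≤ 1 / (p : ℚ) * (1 / p) := norm_mul_le hπ1 h3
          _ = 1 / (p : ℚ) ^ 2 := by field_simp
      have hfin : padicNorm p (l : ℚ) ≤ 1 / (p : ℚ) ^ 2 := by
        have : (l : ℚ) = (∑ j ∈ Finset.range l, (1 + (j : ℚ) * π)) -
            π * ((∑ j ∈ Finset.range l, j : ℕ) : ℚ) := by
          rw [hSig2]; ring
        rw [this]
        exact norm_sub_le hSig hlast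
      rw [hnp] at hfin
      linarith
  · have hm1' : m = 1 := by omega
    have := hms 0
    rw [hm1', zero_add] at this
    exact this

end Cycles

end Pool.Agent.H97
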