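import Mathlib

/-!
# The iteration `w(n) = n * sum 1 / p^a`
-/

set_option autoImplicit false

namespace Pool.Agent.H97.WIter

open Finset

/-- `w(m)`: the sum of `m / p ^ a` over the prime powers `p ^ a` exactly dividing `m`. -/
def wf (m : ℕ) : ℕ := ∑ p ∈ m.primeFactors, m / p ^ (m.factorization p)

/-- the sum of `1 / p ^ a` -/
def gf (m : ℕ) : ℚ := ∑ p ∈ m.primeFactors, 1 / (p : ℚ) ^ (m.factorization p)

theorem wf_cast (m : ℕ) : (wf m : ℚ) = m * gf m := by
  unfold wf gf
  rw [Nat.cast_sum, Finset.mul_sum]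
  apply Finset.sum_congr rfl
  intro p hp
  have hpp := Nat.prime_of_mem_primeFactors hp
  rw [Nat.cast_div (Nat.ordProj_dvd m p) (by
    have := hpp.ne_zero
    exact_mod_cast pow_ne_zero _ this)]
  push_cast
  ring

theorem wf_coprime {m : ℕ} (hm : 2 ≤ m) : Nat.Coprime m (wf m) := by
  apply Nat.coprime_of_dvd
  intro q hq hqm hqw
  have hm0 : m ≠ 0 := by omega
  have hqmem : q ∈ m.primeFactors := Nat.mem_primeFactors.2 ⟨hq, hqm, hm0⟩
  unfold wf at hqw
  rw [← Finset.add_sum_erase _ _ hqmem] at hqw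
  have hrest : q ∣ ∑ p ∈ m.primeFactors.erase q, m / p ^ (m.factorization p) := by
    apply Finset.dvd_sum
    intro p hp
    rw [Finset.mem_erase] at hp
    have hpp := Nat.prime_of_mem_primeFactors hp.2
    have h1 : p ^ (m.factorization p) * (m / p ^ (m.factorization p)) = m :=
      Nat.ordProj_mul_ordCompl_eq_self m p
    have h2 : q ∣ p ^ (m.factorization p) * (m / p ^ (m.factorization p)) := by rw [h1]; exact hqm
    rcases (hq.dvd_mul).1 h2 with h3 | h3
    · exact absurd ((Nat.prime_dvd_prime_iff_eq hq hpp).1 (hq.dvd_of_dvd_pow h3)).symm hp.1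
    · exact h3
  have h3 : q ∣ m / q ^ (m.factorization q) := (Nat.dvd_add_iff_left hrest).2 hqw
  exact Nat.not_dvd_ordCompl hq hm0 h3

theorem wf_pos {m : ℕ} (hm : 2 ≤ m) : 0 < wf m := by
  rcases Nat.eq_zero_or_pos (wf m) with h | h
  · have := wf_coprime hm
    rw [h, Nat.coprime_zero_right] at this
    omega
  · exact h

/-- the primes up to `271` -/
def T1 : Finset ℕ := {2, 3, 5, 7, 11, 13, 17, 19, 23, 29, 31, 37, 41, 43, 47, 53, 59, 61, 67, 71, 73, 79, 83, 89, 97, 101, 103, 107, 109, 113, 127, 131, 137, 139, 149, 151, 157, 163, 167, 173, 179, 181, 191, 193, 197, 199, 211, 223, 227, 229, 233, 239, 241, 251, 257, 263, 269, 271}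

theorem mem_T1 {p : ℕ} (hp : p.Prime) (h : p < 277) : p ∈ T1 := by
  interval_cases p <;> first | decide +kernel | (exfalso; revert hp; norm_num)

theorem card_T1 : T1.card = 58 := by decide +kernel

theorem le_of_mem_T1 {p : ℕ} (hp : p ∈ T1) : 2 ≤ p ∧ p ≤ 271 := by
  revert p
  decide +kernel

set_option maxRecDepth 100000 in
theorem prime_of_mem_T1 {p : ℕ} (hp : p ∈ T1) : p.Prime := by
  simp only [T1, Finset.mem_insert, Finset.mem_singleton] at hp
  rcases hp with rfl | rfl | rfl | rfl | rfl | rfl | rfl | rfl | rfl | rfl | rfl | rfl | rfl | rfl | rfl | rfl | rfl | rfl | rfl | rfl | rfl | rfl | rfl | rfl | rfl | rfl | rfl | rfl | rfl | rfl | rfl | rfl | rfl | rfl | rfl | rfl | rfl | rfl | rfl | rfl | rfl | rfl | rfl | rfl | rfl | rfl | rfl | rfl | rfl | rfl | rfl | rfl | rfl | rfl | rfl | rfl | rfl | rfl <;> norm_num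

theorem sum_T1 : ∑ p ∈ T1, 1 / (p : ℚ) < 2 := by
  decide +kernel

/-- the primes up to `277` -/
def T2 : Finset ℕ := insert 277 T1

theorem T2_eq : (range (277 + 1)).filter (fun p => p.Prime) = T2 := by
  ext p
  rw [Finset.mem_filter, Finset.mem_range, T2, Finset.mem_insert]
  constructor
  · rintro ⟨h1, h2⟩
    rcases Nat.lt_or_ge p 277 with h | h
    · exact Or.inr (mem_T1 h2 h)
    · left; omega
  · rintro (h | h)
    · subst h
      exact ⟨by norm_num, by norm_num⟩
    · exact ⟨by have := (le_of_mem_T1 h).2; omega, prime_of_mem_T1 h⟩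

theorem card_T2 : T2.card = 59 := by decide +kernel

theorem primorial_eq : primorial 277 = ∏ p ∈ T2, p := by
  rw [← T2_eq]
  rfl

/-- a set of primes with small product has at most 58 elements -/
theorem card_le {S : Finset ℕ} (hS : ∀ p ∈ S, p.Prime) (h : ∏ p ∈ S, p < primorial 277) :
    S.card ≤ 58 := by
  by_contra hcon
  push Not at hcon
  have h1 : (T2 \ S).card ≤ (S \ T2).card := by
    have e1 := Finset.card_sdiff_add_card_inter T2 S
    have e2 := Finset.card_sdiff_add_card_inter S T2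
    rw [Finset.inter_comm, card_T2] at e1
    omega
  have h2 : ∏ p ∈ T2 \ S, p ≤ 277 ^ (T2 \ S).card := by
    apply Finset.prod_le_pow_card
    intro p hp
    have := (Finset.mem_sdiff.1 hp).1
    rw [T2, Finset.mem_insert] at this
    rcases this with h | h
    · omega
    · have := (le_of_mem_T1 h).2; omega
  have h3 : 277 ^ (S \ T2).card ≤ ∏ p ∈ S \ T2, p := by
    apply Finset.pow_card_le_prod
    intro p hp
    rw [Finset.mem_sdiff] at hp
    by_contra hlt
    push Not at hlt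
    exact hp.2 (Finset.mem_insert_of_mem (mem_T1 (hS p hp.1) hlt))
  have h4 : primorial 277 ≤ ∏ p ∈ S, p := by
    rw [primorial_eq, ← Finset.prod_inter_mul_prod_sdiff T2 S, ← Finset.prod_inter_mul_prod_sdiff S T2,
      Finset.inter_comm]
    apply Nat.mul_le_mul_left
    exact h2.trans ((Nat.pow_le_pow_right (by norm_num) h1).trans h3)
  omega

/-- at most 58 primes have sum of reciprocals below 2 -/
theorem sum_lt {S : Finset ℕ} (hS : ∀ p ∈ S, p.Prime) (h : S.card ≤ 58) :
    ∑ p ∈ S, 1 / (p : ℚ) < 2 := by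
  have h1 : (S \ T1).card ≤ (T1 \ S).card := by
    have e1 := Finset.card_sdiff_add_card_inter T1 S
    have e2 := Finset.card_sdiff_add_card_inter S T1
    rw [Finset.inter_comm, card_T1] at e1
    omega
  have h2 : ∑ p ∈ S \ T1, 1 / (p : ℚ) ≤ (S \ T1).card * (1 / 271 : ℚ) := by
    rw [← nsmul_eq_mul]
    apply Finset.sum_le_card_nsmul
    intro p hp
    rw [Finset.mem_sdiff] at hp
    have : 277 ≤ p := by
      by_contra hlt
      push Not at hlt
      exact hp.2 (mem_T1 (hS p hp.1) hlt)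
    apply one_div_le_one_div_of_le (by norm_num)
    have : (277 : ℚ) ≤ p := by exact_mod_cast this
    linarith
  have h3 : (T1 \ S).card * (1 / 271 : ℚ) ≤ ∑ p ∈ T1 \ S, 1 / (p : ℚ) := by
    rw [← nsmul_eq_mul]
    apply Finset.card_nsmul_le_sum
    intro p hp
    have hp1 := le_of_mem_T1 (Finset.mem_sdiff.1 hp).1
    have a1 : (2 : ℚ) ≤ p := by exact_mod_cast hp1.1
    have a2 : (p : ℚ) ≤ 271 := by exact_mod_cast hp1.2
    apply one_div_le_one_div_of_le (by linarith) a2
  have h4 : ((S \ T1).card : ℚ) ≤ (T1 \ S).card := by exact_mod_cast h1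
  have h5 := Finset.sum_inter_add_sum_sdiff S T1 (fun p : ℕ => 1 / (p : ℚ))
  have h6 := Finset.sum_inter_add_sum_sdiff T1 S (fun p : ℕ => 1 / (p : ℚ))
  rw [Finset.inter_comm] at h6
  have h7 := sum_T1
  linarith

theorem gf_le (m : ℕ) : gf m ≤ ∑ p ∈ m.primeFactors, 1 / (p : ℚ) := by
  apply Finset.sum_le_sum
  intro p hp
  have hpp := Nat.prime_of_mem_primeFactors hp
  have hp1 : (1 : ℚ) ≤ p := by exact_mod_cast hpp.one_lt.le
  have h1 : 1 ≤ m.factorization p := by
    have h2 := Nat.mem_primeFactors.1 hp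
    exact hpp.factorization_pos_of_dvd h2.2.2 h2.2.1
  apply one_div_le_one_div_of_le (by linarith)
  calc (p : ℚ) = (p : ℚ) ^ 1 := (pow_one _).symm
    _ ≤ (p : ℚ) ^ (m.factorization p) := pow_le_pow_right₀ hp1 h1

theorem gf_pos {m : ℕ} (hm : 2 ≤ m) : 0 < gf m := by
  have h1 : (0 : ℚ) < wf m := by exact_mod_cast wf_pos hm
  rw [wf_cast] at h1
  have h2 : (0 : ℚ) < m := by exact_mod_cast (by omega : 0 < m)
  exact (mul_pos_iff_of_pos_left h2).1 h1

/-- **Two steps decrease** as long as `m * w(m) < 277#`. -/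
theorem two_step' {Q : ℕ}
    (hQ : ∀ S : Finset ℕ, (∀ p ∈ S, p.Prime) → ∏ p ∈ S, p < Q → S.card ≤ 58)
    {m : ℕ} (hm : 2 ≤ m) (h : m * wf m < Q) : wf (wf m) < m := by
  have hw := wf_pos hm
  have hcop := wf_coprime hm
  rcases Nat.lt_or_ge (wf m) 2 with h1 | h1
  · have h2 : wf m = 1 := by omega
    have h3 : wf 1 = 0 := by simp [wf]
    rw [h2, h3]
    omega
  have hm0 : m ≠ 0 := by omega
  have hw0 : wf m ≠ 0 := by omega
  have hdisj : Disjoint m.primeFactors (wf m).primeFactors := hcop.disjoint_primeFactors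
  have hprime : ∀ p ∈ m.primeFactors ∪ (wf m).primeFactors, p.Prime := by
    intro p hp
    rcases Finset.mem_union.1 hp with h | h
    · exact Nat.prime_of_mem_primeFactors h
    · exact Nat.prime_of_mem_primeFactors h
  have hprod : ∏ p ∈ m.primeFactors ∪ (wf m).primeFactors, p < Q := by
    rw [Finset.prod_union hdisj]
    refine lt_of_le_of_lt ?_ h
    exact Nat.mul_le_mul (Nat.le_of_dvd (by omega) (Nat.prod_primeFactors_dvd m))
      (Nat.le_of_dvd hw (Nat.prod_primeFactors_dvd _))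
  have hsum := sum_lt hprime (hQ _ hprime hprod)
  rw [Finset.sum_union hdisj] at hsum
  have g1 := gf_le m
  have g2 := gf_le (wf m)
  have g3 := gf_pos hm
  have g4 := gf_pos h1
  have e1 := wf_cast m
  have e2 := wf_cast (wf m)
  have hlt : (wf (wf m) : ℚ) < m := by
    rw [e2, e1, mul_assoc]
    have h5 : gf m * gf (wf m) < 1 := by nlinarith [sq_nonneg (gf m - gf (wf m))]
    have h6 : (0 : ℚ) < m := by exact_mod_cast (by omega : 0 < m)
    nlinarith
  exact_mod_cast hlt

theorem big_primorial : (2 * 10 ^ 56) * (2 * (2 * 10 ^ 56)) < primorial 277 := by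
  rw [primorial_eq]
  decide +kernel

theorem small_lt' {Q : ℕ}
    (hQ : ∀ S : Finset ℕ, (∀ p ∈ S, p.Prime) → ∏ p ∈ S, p < Q → S.card ≤ 58)
    {m X : ℕ} (hX : X * (2 * X) < Q) (hm : 2 ≤ m) (h : m ≤ X) :
    m * wf m < Q := by
  have hprime : ∀ p ∈ m.primeFactors, p.Prime := fun p hp => Nat.prime_of_mem_primeFactors hp
  have hprod : ∏ p ∈ m.primeFactors, p < Q := by
    refine lt_of_le_of_lt (Nat.le_of_dvd (by omega) (Nat.prod_primeFactors_dvd m)) ?_
    refine lt_of_le_of_lt h (lt_of_le_of_lt ?_ hX)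
    nlinarith
  have hsum := sum_lt hprime (hQ _ hprime hprod)
  have g1 := gf_le m
  have e1 := wf_cast m
  have h6 : (0 : ℚ) < m := by exact_mod_cast (by omega : 0 < m)
  have h7 : (wf m : ℚ) < 2 * m := by
    rw [e1]
    nlinarith
  have h8 : wf m < 2 * m := by exact_mod_cast h7
  calc m * wf m ≤ m * (2 * m) := Nat.mul_le_mul_left _ h8.le
    _ ≤ X * (2 * X) := Nat.mul_le_mul h (Nat.mul_le_mul_left _ h)
    _ < Q := hX

theorem small_reaches {Q : ℕ}
    (hQ : ∀ S : Finset ℕ, (∀ p ∈ S, p.Prime) → ∏ p ∈ S, p < Q → S.card ≤ 58)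
    {X : ℕ} (hX : X * (2 * X) < Q) (m : ℕ) (hm : 1 ≤ m)
    (h : m ≤ X) : ∃ j, wf^[j] m = 1 := by
  induction m using Nat.strong_induction_on with
  | _ m ih =>
    rcases Nat.lt_or_ge m 2 with h1 | h1
    · exact ⟨0, by simp; omega⟩
    · have h2 := two_step' hQ h1 (small_lt' hQ hX h1 h)
      rcases Nat.lt_or_ge (wf m) 2 with h3 | h3
      · refine ⟨1, ?_⟩
        have := wf_pos h1
        show wf m = 1
        omega
      · have h4 := wf_pos h3
        obtain ⟨j, hj⟩ := ih (wf (wf m)) h2 h4 (by omega)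
        exact ⟨j + 2, by rw [Function.iterate_add_apply]; exact hj⟩

theorem product_reaches {Q : ℕ}
    (hQ : ∀ S : Finset ℕ, (∀ p ∈ S, p.Prime) → ∏ p ∈ S, p < Q → S.card ≤ 58)
    (P m : ℕ) (hP : m * wf m = P) (hm : 1 ≤ m) (h : m * wf m < Q) : ∃ j, wf^[j] m = 1 := by
  induction P using Nat.strong_induction_on generalizing m with
  | _ P ih =>
    rcases Nat.lt_or_ge m 2 with h1 | h1
    · exact ⟨0, by simp; omega⟩
    · have h2 := two_step' hQ h1 h
      have h0 := wf_pos h1
      rcases Nat.lt_or_ge (wf m) 2 with h3 | h3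
      · refine ⟨1, ?_⟩
        show wf m = 1
        omega
      · have h4 : wf m * wf (wf m) < m * wf m := by
          rw [mul_comm m]
          exact Nat.mul_lt_mul_of_pos_left h2 h0
        obtain ⟨j, hj⟩ := ih (wf m * wf (wf m)) (by rw [← hP]; exact h4) (wf m) rfl h0
          (h4.trans h)
        exact ⟨j + 1, by rw [Function.iterate_add_apply]; exact hj⟩

/-- an iterate below `2` forces an iterate equal to `1` -/
theorem reaches_of_lt_two {n : ℕ} (hn : 2 ≤ n) (k : ℕ) (hk : wf^[k] n < 2) :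
    ∃ j, wf^[j] n = 1 := by
  induction k with
  | zero => simp at hk; omega
  | succ k ih =>
    rcases Nat.lt_or_ge (wf^[k] n) 2 with h1 | h1
    · exact ih h1
    · refine ⟨k + 1, ?_⟩
      rw [Function.iterate_succ_apply'] at hk ⊢
      have := wf_pos h1
      omega

theorem main (n : ℕ) (hn : 2 ≤ n) (h : ∃ k, wf^[k] n ≤ 2 * 10 ^ 56 ∨
    wf^[k] n * wf^[k + 1] n < primorial 277) : ∃ j, wf^[j] n = 1 := by
  obtain ⟨k, hk⟩ := h
  have hQ : ∀ S : Finset ℕ, (∀ p ∈ S, p.Prime) → ∏ p ∈ S, p < primorial 277 → S.card ≤ 58 :=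
    fun S h1 h2 => card_le h1 h2
  have hX := big_primorial
  generalize primorial 277 = Q at hk hQ hX
  generalize 2 * 10 ^ 56 = X at hk hX
  rcases Nat.lt_or_ge (wf^[k] n) 2 with h1 | h1
  · exact reaches_of_lt_two hn k h1
  · have h2 : wf^[k] n * wf (wf^[k] n) < Q := by
      rcases hk with h3 | h3
      · exact small_lt' hQ hX h1 h3
      · rw [Function.iterate_succ_apply'] at h3
        exact h3
    obtain ⟨j, hj⟩ := product_reaches hQ _ _ rfl (by omega) h2
    exact ⟨j + k, by rw [Function.iterate_add_apply]; exact hj⟩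

end Pool.Agent.H97.WIter
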